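import Mathlib
import Pool.Agent.H69.CPR.Copos
import Pool.Agent.H69.CPR.Lin
import Pool.Agent.H69.CPR.Types

/-!
# Multiset kernels (MP_10f644_co, upper bound `c* ≤ 1/45`)

`MK Y`: `Y` is a dual kernel on the types of one clique, feasible for every multiset of types.
`TMK Y`: `Y` is a dual kernel on all the types `Finset (Fin k)`, feasible for every multiset
of pairwise intersecting types.
-/

open Finset

namespace Pool.Agent.H99.CP

open Pool.Agent.H69.CPR

/-- the bilinear form of a kernel -/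
noncomputable def bf {ι : Type} [Fintype ι] (Y : ι → ι → ℝ) (u v : ι → ℝ) : ℝ :=
  ∑ a, ∑ b, Y a b * (u a * v b)

/-- dual kernel on one clique of types: every multiset of types has pair sum at most one -/
structure MK {ι : Type} [Fintype ι] (Y : ι → ι → ℝ) : Prop where
  sym : ∀ a b, Y a b = Y b a
  pat : ∀ n : ι → ℕ,
    ∑ a, ∑ b, Y a b * ((n a : ℝ) * (n b : ℝ)) - ∑ a, Y a a * (n a : ℝ) ≤ 2

/-- `(Y - 1/2)⁺` -/
noncomputable def tp {ι : Type} (Y : ι → ι → ℝ) : ι → ι → ℝ := fun a b => max (Y a b - 1 / 2) 0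

/-- dual kernel on the types `Finset (Fin k)`: every multiset of pairwise intersecting
(nonempty) types has pair sum at most one -/
structure TMK {k : ℕ} (Y : Finset (Fin k) → Finset (Fin k) → ℝ) : Prop where
  sym : ∀ A B, Y A B = Y B A
  adj : ∀ A B, ¬ (A ∩ B).Nonempty → Y A B = 0
  pat : ∀ n : Finset (Fin k) → ℕ,
    (∀ A B, n A ≠ 0 → n B ≠ 0 → (A ∩ B).Nonempty) →
    ∑ A, ∑ B, Y A B * ((n A : ℝ) * (n B : ℝ)) - ∑ A, Y A A * (n A : ℝ) ≤ 2

end Pool.Agent.H99.CP
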