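import Mathlib
import Pool.Agent.H99.CP.Defs
import Pool.Agent.H69.CPR.Comb

/-!
# Combination of the local inequalities for multiset kernels

From the inequality `qf (tp Y) / 2 ≤ - qf Y` for the kernels of one clique, a scheme of
overlap `c` gives the bound `qf Y ≤ β / 2 (∑ m)²` for the kernels on all the types.
-/

open Finset

namespace Pool.Agent.H99.CP

open Pool.Agent.H69.CPR Pool.Agent.H29.CPR

section MKbasic

variable {ι : Type} [Fintype ι] [DecidableEq ι]

/-- the multiplicities of a family -/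
def mult {r : ℕ} (f : Fin r → ι) (a : ι) : ℕ := (univ.filter fun i => f i = a).card

theorem sum_mult {r : ℕ} (f : Fin r → ι) (g : ι → ℝ) :
    ∑ a, g a * (mult f a : ℝ) = ∑ i, g (f i) := by
  rw [← Finset.sum_fiberwise univ f (fun i => g (f i))]
  refine Finset.sum_congr rfl fun a _ => ?_
  have : ∀ i ∈ univ.filter (fun i => f i = a), g (f i) = g a := by
    intro i hi
    rw [(Finset.mem_filter.1 hi).2]
  rw [Finset.sum_congr rfl this, Finset.sum_const, nsmul_eq_mul, mul_comm]
  rfl

theorem sum_mult2 {r : ℕ} (f : Fin r → ι) (Y : ι → ι → ℝ) :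
    ∑ a, ∑ b, Y a b * ((mult f a : ℝ) * (mult f b : ℝ)) = ∑ i, ∑ j, Y (f i) (f j) := by
  have h1 : ∀ a, ∑ b, Y a b * ((mult f a : ℝ) * (mult f b : ℝ))
      = (∑ j, Y a (f j)) * (mult f a : ℝ) := by
    intro a
    rw [← sum_mult f (fun b => Y a b), Finset.sum_mul]
    exact Finset.sum_congr rfl fun b _ => by ring
  rw [Finset.sum_congr rfl fun a _ => h1 a, sum_mult f (fun a => ∑ j, Y a (f j))]

theorem MK.fam {Y : ι → ι → ℝ} (hY : MK Y) {r : ℕ} (f : Fin r → ι) :
    ∑ i, ∑ j, Y (f i) (f j) - ∑ i, Y (f i) (f i) ≤ 2 := by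
  have h := hY.pat (mult f)
  rw [sum_mult2, sum_mult f (fun a => Y a a)] at h
  exact h

theorem MK.diag98 {Y : ι → ι → ℝ} (hY : MK Y) (a : ι) : Y a a ≤ 0 := by
  by_contra hcon
  push Not at hcon
  obtain ⟨N, hN⟩ := exists_nat_gt (2 / Y a a)
  have h := hY.fam (fun _ : Fin (N + 1) => a)
  simp only [Finset.sum_const, Finset.card_univ, Fintype.card_fin, nsmul_eq_mul] at h
  push_cast at h
  rw [div_lt_iff₀ hcon] at hN
  have hN0 : (0 : ℝ) ≤ N := Nat.cast_nonneg N
  nlinarith [mul_nonneg (mul_nonneg hN0 hN0) hcon.le]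

theorem MK.two98 {Y : ι → ι → ℝ} (hY : MK Y) (a b : ι) : Y a b ≤ 1 := by
  have h := hY.fam (![a, b])
  have e := hY.sym a b
  simp only [Fin.sum_univ_two, Matrix.cons_val_zero, Matrix.cons_val_one] at h
  linarith

theorem MK.three98 {Y : ι → ι → ℝ} (hY : MK Y) (a b c : ι) : Y a b + Y a c + Y b c ≤ 1 := by
  have h := hY.fam (![a, b, c])
  have e1 := hY.sym a b
  have e2 := hY.sym a c
  have e3 := hY.sym b c
  simp only [Fin.sum_univ_three, Matrix.cons_val] at h
  linarith

theorem MK.four98 {Y : ι → ι → ℝ} (hY : MK Y) (a b c d : ι) :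
    Y a b + Y c d + Y a c + Y a d + Y b c + Y b d ≤ 1 := by
  have h := hY.fam (![a, b, c, d])
  have e1 := hY.sym a b
  have e2 := hY.sym a c
  have e3 := hY.sym a d
  have e4 := hY.sym b c
  have e5 := hY.sym b d
  have e6 := hY.sym c d
  simp only [Fin.sum_univ_four, Matrix.cons_val] at h
  linarith

theorem MK.ker {Y : ι → ι → ℝ} (hY : MK Y) : Ker Y where
  sym := hY.sym
  h0 := hY.diag98
  h2 := hY.two98
  h3 := hY.three98
  h4 := fun a b c d _ _ => hY.four98 a b c d

end MKbasic

section sub

variable {k : ℕ}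

theorem sum_sub (C : Finset (Finset (Fin k))) (f : Finset (Fin k) → ℝ)
    (h : ∀ A, A ∉ C → f A = 0) : ∑ a : {A // A ∈ C}, f a.1 = ∑ A, f A := by
  rw [Finset.sum_coe_sort C f]
  exact Finset.sum_subset (Finset.subset_univ C) fun A _ hA => h A hA

theorem qf_sub (C : Finset (Finset (Fin k))) (M : Finset (Fin k) → Finset (Fin k) → ℝ)
    (v : Finset (Fin k) → ℝ) (hv : ∀ A, A ∉ C → v A = 0) :
    qf (fun a b : {A // A ∈ C} => M a.1 b.1) (fun a => v a.1) = qf M v := by
  unfold qf
  rw [← sum_sub C (fun A => ∑ B, M A B * (v A * v B))]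
  · refine Finset.sum_congr rfl fun a _ => ?_
    exact sum_sub C (fun B => M a.1 B * (v a.1 * v B)) fun B hB => by rw [hv B hB]; ring
  · intro A hA
    exact Finset.sum_eq_zero fun B _ => by rw [hv A hA]; ring

variable {Y : Finset (Fin k) → Finset (Fin k) → ℝ}

/-- the restriction of a kernel to a clique of types -/
theorem TMK.restrict (hY : TMK Y) (C : Finset (Finset (Fin k)))
    (hC : ∀ A ∈ C, ∀ B ∈ C, (A ∩ B).Nonempty) :
    MK (fun a b : {A // A ∈ C} => Y a.1 b.1) where
  sym := fun a b => hY.sym a.1 b.1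
  pat := by
    intro n
    set n' : Finset (Fin k) → ℕ := fun A => if h : A ∈ C then n ⟨A, h⟩ else 0 with hn'
    have h1 : ∀ A, A ∉ C → n' A = 0 := fun A hA => by simp only [hn']; rw [dif_neg hA]
    have h2 : ∀ a : {A // A ∈ C}, n' a.1 = n a := fun a => by
      simp only [hn']; rw [dif_pos a.2]
    have h3 := hY.pat n' (by
      intro A B hA hB
      apply hC
      · by_contra h
        exact hA (h1 A h)
      · by_contra h
        exact hB (h1 B h))
    have e1 : ∑ a : {A // A ∈ C}, ∑ b : {A // A ∈ C}, Y a.1 b.1 * ((n a : ℝ) * (n b : ℝ))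
        = ∑ A, ∑ B, Y A B * ((n' A : ℝ) * (n' B : ℝ)) := by
      have := qf_sub C Y (fun A => (n' A : ℝ)) (fun A hA => by rw [h1 A hA]; simp)
      unfold qf at this
      simp only [h2] at this
      exact this
    have e2 : ∑ a : {A // A ∈ C}, Y a.1 a.1 * (n a : ℝ) = ∑ A, Y A A * (n' A : ℝ) := by
      have := sum_sub C (fun A => Y A A * (n' A : ℝ)) (fun A hA => by
        show Y A A * (n' A : ℝ) = 0
        rw [h1 A hA]; simp)
      simp only [h2] at this
      exact this
    rw [e1, e2]
    exact h3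

theorem TMK.diag (hY : TMK Y) (A : Finset (Fin k)) : Y A A ≤ 0 := by
  classical
  by_cases h : A.Nonempty
  · have h1 := hY.restrict {A} (by
      intro E hE F hF
      rw [Finset.mem_singleton] at hE hF
      subst hE
      subst hF
      rw [Finset.inter_self]
      exact h)
    exact h1.diag98 ⟨A, Finset.mem_singleton_self A⟩
  · rw [hY.adj A A (by rwa [Finset.inter_self])]

theorem TMK.le_one (hY : TMK Y) (A B : Finset (Fin k)) : Y A B ≤ 1 := by
  classical
  by_cases hadj : (A ∩ B).Nonempty
  · have h1 := hY.restrict {A, B} (by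
      intro E hE F hF
      simp only [Finset.mem_insert, Finset.mem_singleton] at hE hF
      have hAA : (A ∩ A).Nonempty := by
        rw [Finset.inter_self]; exact hadj.mono Finset.inter_subset_left
      have hBB : (B ∩ B).Nonempty := by
        rw [Finset.inter_self]; exact hadj.mono Finset.inter_subset_right
      have hBA : (B ∩ A).Nonempty := by rw [Finset.inter_comm]; exact hadj
      rcases hE with rfl | rfl <;> rcases hF with rfl | rfl <;> assumption)
    exact h1.two98 ⟨A, by simp⟩ ⟨B, by simp⟩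
  · rw [hY.adj A B hadj]
    exact zero_le_one

/-- **Motzkin-Straus.** -/
theorem TMK.ms (hY : TMK Y) (w : Finset (Fin k) → ℝ) (hw0 : ∀ A, 0 ≤ w A) :
    qf (fun A B => min 1 (2 * pos Y A B)) w ≤ (∑ A, w A) ^ 2 / 2 := by
  classical
  apply kappa_ms
  · intro A B
    have : pos Y A B = pos Y B A := by unfold pos; rw [hY.sym]
    rw [this]
  · intro A
    have : pos Y A A = 0 := max_eq_right (hY.diag A)
    rw [this]
    simp
  · intro A B
    have := pos_nonneg Y A B
    exact le_min zero_le_one (by linarith)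
  · intro A B
    exact min_le_left _ _
  · intro S hS
    have hS' : ∀ A ∈ S, ∀ B ∈ S, A ≠ B → 0 < Y A B := by
      intro A hA B hB hAB
      have h := hS A hA B hB hAB
      by_contra hcon
      push Not at hcon
      have : pos Y A B = 0 := max_eq_right hcon
      rw [this] at h
      simp at h
    have hadj : ∀ A ∈ S, ∀ B ∈ S, A ≠ B → (A ∩ B).Nonempty := by
      intro A hA B hB hAB
      by_contra hcon
      have h2 := hY.adj A B hcon
      have h3 := hS' A hA B hB hAB
      linarith
    by_cases hex : ∃ A ∈ S, ∃ B ∈ S, A ≠ B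
    · have hne : ∀ A ∈ S, A.Nonempty := by
        intro A hA
        obtain ⟨E, hE, F, hF, hEF⟩ := hex
        by_cases hAE : A = E
        · subst hAE
          exact (hadj A hE F hF hEF).mono Finset.inter_subset_left
        · exact (hadj A hA E hE hAE).mono Finset.inter_subset_left
      have h := hY.pat (fun A => if A ∈ S then 1 else 0) (by
        intro A B hA hB
        have hA' : A ∈ S := by
          by_contra h
          exact hA (if_neg h)
        have hB' : B ∈ S := by
          by_contra h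
          exact hB (if_neg h)
        by_cases hAB : A = B
        · subst hAB
          rw [Finset.inter_self]
          exact hne A hA'
        · exact hadj A hA' B hB' hAB)
      have e1 : ∑ A, ∑ B, Y A B * ((((if A ∈ S then 1 else 0 : ℕ) : ℝ))
          * (((if B ∈ S then 1 else 0 : ℕ) : ℝ))) = ∑ A ∈ S, ∑ B ∈ S, Y A B := by
        have g1 : ∀ A, ∑ B, Y A B * ((((if A ∈ S then 1 else 0 : ℕ) : ℝ))
            * (((if B ∈ S then 1 else 0 : ℕ) : ℝ)))
            = if A ∈ S then ∑ B ∈ S, Y A B else 0 := by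
          intro A
          by_cases hA : A ∈ S
          · simp only [if_pos hA, Nat.cast_one, Nat.cast_ite, Nat.cast_zero, mul_ite,
              mul_one, mul_zero]
            rw [Finset.sum_ite_mem, Finset.univ_inter]
          · simp [if_neg hA]
        rw [Finset.sum_congr rfl fun A _ => g1 A, Finset.sum_ite_mem, Finset.univ_inter]
      have e2 : ∑ A, Y A A * ((if A ∈ S then 1 else 0 : ℕ) : ℝ) = ∑ A ∈ S, Y A A := by
        simp only [Nat.cast_ite, Nat.cast_one, Nat.cast_zero, mul_ite, mul_one, mul_zero]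
        rw [Finset.sum_ite_mem, Finset.univ_inter]
      rw [e1, e2] at h
      have e3 : ∑ A ∈ S, ∑ B ∈ S, Y A B - ∑ A ∈ S, Y A A
          = ∑ A ∈ S, ∑ B ∈ S, (if A = B then 0 else Y A B) := by
        rw [← Finset.sum_sub_distrib]
        refine Finset.sum_congr rfl fun A hA => ?_
        have : ∀ B ∈ S, (if A = B then 0 else Y A B) = Y A B - (if A = B then Y A B else 0) := by
          intro B _
          split_ifs <;> simp
        rw [Finset.sum_congr rfl this, Finset.sum_sub_distrib, Finset.sum_ite_eq, if_pos hA]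
      rw [e3] at h
      have h2 : ∑ A ∈ S, ∑ B ∈ S, min 1 (2 * pos Y A B)
          ≤ ∑ A ∈ S, ∑ B ∈ S, 2 * (if A = B then 0 else Y A B) := by
        refine Finset.sum_le_sum fun A hA => Finset.sum_le_sum fun B hB => ?_
        by_cases hAB : A = B
        · subst hAB
          have : pos Y A A = 0 := max_eq_right (hY.diag A)
          rw [this]
          simp
        · rw [if_neg hAB]
          have : pos Y A B = Y A B := max_eq_left (hS' A hA B hB hAB).le
          rw [this]
          exact min_le_right _ _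
      simp only [← Finset.mul_sum] at h2
      linarith
    · push Not at hex
      have h0 : ∑ A ∈ S, ∑ B ∈ S, min 1 (2 * pos Y A B) = 0 := by
        refine Finset.sum_eq_zero fun A hA => Finset.sum_eq_zero fun B hB => ?_
        rw [← hex A hA B hB]
        have : pos Y A A = 0 := max_eq_right (hY.diag A)
        rw [this]
        simp
      rw [h0]
      norm_num
  · exact hw0

end sub

theorem tp_nonneg98 {ι : Type} (Y : ι → ι → ℝ) (a b : ι) : 0 ≤ tp Y a b := le_max_right _ _

theorem rho_eq_tp {ι : Type} (Y : ι → ι → ℝ) (a b : ι) : rho Y a b = 2 * tp Y a b := by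
  unfold rho tp
  rcases le_total (Y a b - 1 / 2) 0 with h | h
  · rw [max_eq_right h, max_eq_right (by linarith)]
    ring
  · rw [max_eq_left h, max_eq_left (by linarith)]
    ring

/-- **Combination.** -/
theorem kernel_bound {k : ℕ} {J : Type} [Fintype J] {c : ℝ} (S : Scheme k J c) (hc0 : 0 ≤ c)
    {s β : ℝ} (hs0 : 0 ≤ s) (hs1 : s ≤ 1) (hβ : 0 ≤ β) (h1 : (1 - c * s) / 2 ≤ β)
    (h2 : 1 - c * (5 / 4 * s + √2 * (1 - s)) ≤ β)
    (LH : ∀ (ι : Type) [Fintype ι] [DecidableEq ι] (Y : ι → ι → ℝ), MK Y →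
      ∀ m : ι → ℝ, (∀ a, 0 ≤ m a) → qf (tp Y) m / 2 ≤ - qf Y m)
    {Y : Finset (Fin k) → Finset (Fin k) → ℝ} (hY : TMK Y)
    (m : Finset (Fin k) → ℝ) (hm : ∀ A, 0 ≤ m A) :
    qf Y m ≤ β / 2 * (∑ A, m A) ^ 2 := by
  classical
  have hsq2 : √2 * √2 = 2 := Real.mul_self_sqrt (by norm_num)
  have hsq0 : 0 < √2 := Real.sqrt_pos.2 (by norm_num)
  set N : ℝ := ∑ j, qf (neg Y) (fun A => S.φ j A * m A) with hN
  have hNle : N ≤ qf (neg Y) m := by
    rw [hN, Scheme.sum_qf]
    apply qf_mono _ _ _ hm
    intro A B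
    have g1 := S.ov_le_one A B
    have g2 := neg_nonneg' Y A B
    nlinarith
  have hov : ∀ A B, 0 < Y A B → c ≤ ∑ j, S.φ j A * S.φ j B := by
    intro A B hAB
    apply S.ov
    · rintro rfl
      linarith [hY.diag A]
    · by_contra h
      rw [hY.adj A B h] at hAB
      exact lt_irrefl _ hAB
  -- the support of the weights
  have hsupp : ∀ j, ∀ A, A ∉ S.cliq j → S.φ j A * m A = 0 := by
    intro j A hA
    have : S.φ j A = 0 := by
      by_contra h
      apply hA
      unfold Scheme.cliq
      rw [Finset.mem_filter]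
      exact ⟨mem_univ _, h⟩
    rw [this, zero_mul]
  have hres : ∀ j, MK (fun a b : {A // A ∈ S.cliq j} => Y a.1 b.1) := fun j =>
    hY.restrict (S.cliq j) (S.cliq_inter j)
  have hvn : ∀ j A, 0 ≤ S.φ j A * m A := fun j A => mul_nonneg (S.nonneg j A) (hm A)
  -- LIN
  have hL : c * (2 * √2 * qf (tp Y) m) ≤ N := by
    have e0 : ∀ j, qf (fun A B => rho Y A B + srho Y A B) (fun A => S.φ j A * m A)
        ≤ √2 * qf (neg Y) (fun A => S.φ j A * m A) := by
      intro j
      have g := (hres j).ker.linplus (m := fun a => S.φ j a.1 * m a.1) (fun a => hvn j a.1)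
      rw [← qf_sub (S.cliq j) (fun A B => rho Y A B + srho Y A B) _ (hsupp j),
        ← qf_sub (S.cliq j) (neg Y) _ (hsupp j)]
      exact g
    have e1 : ∑ j, qf (fun A B => rho Y A B + srho Y A B) (fun A => S.φ j A * m A)
        ≤ √2 * N := by
      rw [hN, Finset.mul_sum]
      exact Finset.sum_le_sum fun j _ => e0 j
    rw [Scheme.sum_qf] at e1
    have e2 : qf (fun A B => (4 * c) * tp Y A B + 0 * tp Y A B) m
        ≤ qf (fun A B => (∑ j, S.φ j A * S.φ j B) * (rho Y A B + srho Y A B)) m := by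
      apply qf_mono _ _ _ hm
      intro A B
      show 4 * c * tp Y A B + 0 * tp Y A B
        ≤ (∑ j, S.φ j A * S.φ j B) * (rho Y A B + srho Y A B)
      by_cases hAB : 1 / 2 < Y A B
      · have g3 := hov A B (by linarith)
        have g4 := rho_nonneg Y A B
        have g5 : rho Y A B ≤ srho Y A B := Scheme.rho_le_srho' (hY.le_one A B)
        have g6 := rho_eq_tp Y A B
        have g7 : c * (rho Y A B + srho Y A B)
            ≤ (∑ j, S.φ j A * S.φ j B) * (rho Y A B + srho Y A B) :=
          mul_le_mul_of_nonneg_right g3 (by linarith)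
        have g8 : c * (2 * rho Y A B) ≤ c * (rho Y A B + srho Y A B) :=
          mul_le_mul_of_nonneg_left (by linarith) hc0
        have g9 : c * (2 * rho Y A B) = 4 * c * tp Y A B := by rw [g6]; ring
        linarith
      · have g6 := rho_eq_tp Y A B
        rw [rho_of_ge hAB] at g6
        rw [rho_of_ge hAB, srho_of_ge hAB]
        have : tp Y A B = 0 := by linarith
        rw [this]
        simp
    rw [qf_lin] at e2
    have e3 : 4 * c * qf (tp Y) m ≤ √2 * N := by linarith
    have e4 : √2 * (c * (2 * √2 * qf (tp Y) m)) ≤ √2 * N := by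
      have : √2 * (c * (2 * √2 * qf (tp Y) m)) = 2 * (√2 * √2) * c * qf (tp Y) m := by ring
      rw [this, hsq2]
      linarith
    exact le_of_mul_le_mul_left e4 hsq0
  -- BIG
  have hB : c * (qf (pos Y) m + 1 / 2 * qf (tp Y) m) ≤ N := by
    have e0 : ∀ j, qf (fun A B => 1 * pos Y A B + 1 / 2 * tp Y A B) (fun A => S.φ j A * m A)
        ≤ qf (neg Y) (fun A => S.φ j A * m A) := by
      intro j
      have g := LH {A // A ∈ S.cliq j} (fun a b => Y a.1 b.1) (hres j)
        (fun a => S.φ j a.1 * m a.1) (fun a => hvn j a.1)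
      have g1 := qf_sub (S.cliq j) (tp Y) _ (hsupp j)
      have g2 := qf_sub (S.cliq j) Y _ (hsupp j)
      have g3 : qf (tp Y) (fun A => S.φ j A * m A) / 2 ≤ - qf Y (fun A => S.φ j A * m A) := by
        rw [← g1, ← g2]
        exact g
      rw [Scheme.qf_split Y] at g3
      rw [qf_lin]
      linarith
    have e1 : ∑ j, qf (fun A B => 1 * pos Y A B + 1 / 2 * tp Y A B) (fun A => S.φ j A * m A)
        ≤ N := Finset.sum_le_sum fun j _ => e0 j
    rw [Scheme.sum_qf] at e1
    have e2 : qf (fun A B => c * pos Y A B + (c * (1 / 2)) * tp Y A B) m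
        ≤ qf (fun A B => (∑ j, S.φ j A * S.φ j B) * (1 * pos Y A B + 1 / 2 * tp Y A B)) m := by
      apply qf_mono _ _ _ hm
      intro A B
      show c * pos Y A B + (c * (1 / 2)) * tp Y A B
        ≤ (∑ j, S.φ j A * S.φ j B) * (1 * pos Y A B + 1 / 2 * tp Y A B)
      by_cases hAB : 0 < Y A B
      · have g3 := hov A B hAB
        have g4 := pos_nonneg Y A B
        have g5 := tp_nonneg98 Y A B
        have g6 : c * (1 * pos Y A B + 1 / 2 * tp Y A B)
            ≤ (∑ j, S.φ j A * S.φ j B) * (1 * pos Y A B + 1 / 2 * tp Y A B) :=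
          mul_le_mul_of_nonneg_right g3 (by linarith)
        linarith
      · have g3 : pos Y A B = 0 := max_eq_right (not_lt.1 hAB)
        have g4 : tp Y A B = 0 := max_eq_right (by linarith [not_lt.1 hAB])
        rw [g3, g4]
        simp
    rw [qf_lin] at e2
    linarith
  -- combination
  have hV : s * (c * (qf (pos Y) m + 1 / 2 * qf (tp Y) m))
      + (1 - s) * (c * (2 * √2 * qf (tp Y) m)) ≤ qf (neg Y) m := by
    have e1 := mul_le_mul_of_nonneg_left hB hs0
    have e2 := mul_le_mul_of_nonneg_left hL (sub_nonneg.2 hs1)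
    linarith [(by ring : s * N + (1 - s) * N = N)]
  have hms := hY.ms m hm
  have hpt : qf (fun A B => (1 - c * s) * pos Y A B
        + (-(c * (s / 2 + 2 * √2 * (1 - s)))) * tp Y A B) m
      ≤ qf (fun A B => β * min 1 (2 * pos Y A B) + 0 * tp Y A B) m := by
    apply qf_mono _ _ _ hm
    intro A B
    show (1 - c * s) * pos Y A B + (-(c * (s / 2 + 2 * √2 * (1 - s)))) * tp Y A B
      ≤ β * min 1 (2 * pos Y A B) + 0 * tp Y A B
    rw [zero_mul, add_zero]
    have hle := hY.le_one A B
    rcases le_or_gt (Y A B) 0 with h | h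
    · have e1 : pos Y A B = 0 := max_eq_right h
      have e2 : tp Y A B = 0 := max_eq_right (by linarith)
      rw [e1, e2]
      simp
    · have e1 : pos Y A B = Y A B := max_eq_left h.le
      rw [e1]
      rcases le_or_gt (Y A B) (1 / 2) with h' | h'
      · have e2 : tp Y A B = 0 := max_eq_right (by linarith)
        rw [e2, min_eq_right (by linarith)]
        have f1 := mul_le_mul_of_nonneg_left h1 (by linarith : 0 ≤ 2 * Y A B)
        linarith
      · have e2 : tp Y A B = Y A B - 1 / 2 := max_eq_left (by linarith)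
        rw [e2, min_eq_left (by linarith)]
        have f1 := mul_le_mul_of_nonneg_left h1 (by linarith : 0 ≤ 2 - 2 * Y A B)
        have f2 := mul_le_mul_of_nonneg_left h2 (by linarith : 0 ≤ 2 * Y A B - 1)
        linarith
  rw [qf_lin, qf_lin] at hpt
  have hms' : β * qf (fun A B => min 1 (2 * pos Y A B)) m ≤ β * ((∑ A, m A) ^ 2 / 2) :=
    mul_le_mul_of_nonneg_left hms hβ
  rw [Scheme.qf_split Y m]
  linarith

end Pool.Agent.H99.CP
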