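import Mathlib
import Pool.Agent.H99.CP.Comb

/-!
# Combination for a general local inequality

If `qf (H ∘ Y) ≤ qf (neg Y)` for the kernels of one clique, then a scheme of overlap `c`
gives `qf Y ≤ β / 2 (∑ m)²` as soon as `y - c H y ≤ β min 1 (2 y)` on `[0, 1]`.
-/

open Finset

namespace Pool.Agent.H99.CP

open Pool.Agent.H69.CPR Pool.Agent.H29.CPR

/-- **Combination**, general form. -/
theorem kernel_bound_fun {k : ℕ} {J : Type} [Fintype J] {c : ℝ} (S : Scheme k J c)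
    (H : ℝ → ℝ) (hH0 : ∀ y, y ≤ 0 → H y = 0) (hH1 : ∀ y, 0 ≤ y → y ≤ 1 → 0 ≤ H y)
    {β : ℝ} (hβ : 0 ≤ β) (hpt : ∀ y, 0 ≤ y → y ≤ 1 → y - c * H y ≤ β * min 1 (2 * y))
    (LH : ∀ (ι : Type) [Fintype ι] [DecidableEq ι] (Y : ι → ι → ℝ), MK Y →
      ∀ m : ι → ℝ, (∀ a, 0 ≤ m a) → qf (fun a b => H (Y a b)) m ≤ qf (neg Y) m)
    {Y : Finset (Fin k) → Finset (Fin k) → ℝ} (hY : TMK Y)
    (m : Finset (Fin k) → ℝ) (hm : ∀ A, 0 ≤ m A) :
    qf Y m ≤ β / 2 * (∑ A, m A) ^ 2 := by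
  classical
  set N : ℝ := ∑ j, qf (neg Y) (fun A => S.φ j A * m A) with hN
  have hNle : N ≤ qf (neg Y) m := by
    rw [hN, Scheme.sum_qf]
    apply qf_mono _ _ _ hm
    intro A B
    have g1 := S.ov_le_one A B
    have g2 := neg_nonneg' Y A B
    nlinarith
  have hov : ∀ A B, 0 < Y A B → c ≤ ∑ j, S.φ j A * S.φ j B := by
    intro A B hAB
    apply S.ov
    · rintro rfl
      linarith [hY.diag A]
    · by_contra h
      rw [hY.adj A B h] at hAB
      exact lt_irrefl _ hAB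
  have hsupp : ∀ j, ∀ A, A ∉ S.cliq j → S.φ j A * m A = 0 := by
    intro j A hA
    have : S.φ j A = 0 := by
      by_contra h
      apply hA
      unfold Scheme.cliq
      rw [Finset.mem_filter]
      exact ⟨mem_univ _, h⟩
    rw [this, zero_mul]
  have hres : ∀ j, MK (fun a b : {A // A ∈ S.cliq j} => Y a.1 b.1) := fun j =>
    hY.restrict (S.cliq j) (S.cliq_inter j)
  have hvn : ∀ j A, 0 ≤ S.φ j A * m A := fun j A => mul_nonneg (S.nonneg j A) (hm A)
  have hB : qf (fun A B => c * H (Y A B) + 0 * H (Y A B)) m ≤ N := by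
    have e0 : ∀ j, qf (fun A B => H (Y A B)) (fun A => S.φ j A * m A)
        ≤ qf (neg Y) (fun A => S.φ j A * m A) := by
      intro j
      have g := LH {A // A ∈ S.cliq j} (fun a b => Y a.1 b.1) (hres j)
        (fun a => S.φ j a.1 * m a.1) (fun a => hvn j a.1)
      have g1 := qf_sub (S.cliq j) (fun A B => H (Y A B)) _ (hsupp j)
      have g2 := qf_sub (S.cliq j) (neg Y) _ (hsupp j)
      rw [← g1, ← g2]
      exact g
    have e1 : ∑ j, qf (fun A B => H (Y A B)) (fun A => S.φ j A * m A) ≤ N :=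
      Finset.sum_le_sum fun j _ => e0 j
    rw [Scheme.sum_qf] at e1
    refine le_trans (qf_mono _ _ _ hm ?_) e1
    intro A B
    show c * H (Y A B) + 0 * H (Y A B) ≤ (∑ j, S.φ j A * S.φ j B) * H (Y A B)
    by_cases hAB : 0 < Y A B
    · have g3 := hov A B hAB
      have g4 := hH1 (Y A B) hAB.le (hY.le_one A B)
      have g6 := mul_le_mul_of_nonneg_right g3 g4
      linarith
    · rw [hH0 _ (not_lt.1 hAB)]
      simp
  have hms := hY.ms m hm
  have hpt' : qf (fun A B => 1 * pos Y A B + (-1) * (c * H (Y A B) + 0 * H (Y A B))) m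
      ≤ qf (fun A B => β * min 1 (2 * pos Y A B) + 0 * pos Y A B) m := by
    apply qf_mono _ _ _ hm
    intro A B
    show 1 * pos Y A B + (-1) * (c * H (Y A B) + 0 * H (Y A B))
      ≤ β * min 1 (2 * pos Y A B) + 0 * pos Y A B
    rcases le_or_gt (Y A B) 0 with h | h
    · have e1 : pos Y A B = 0 := max_eq_right h
      rw [e1, hH0 _ h]
      simp
    · have e1 : pos Y A B = Y A B := max_eq_left h.le
      rw [e1]
      have := hpt (Y A B) h.le (hY.le_one A B)
      linarith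
  rw [qf_lin, qf_lin, qf_lin] at hpt'
  rw [qf_lin] at hB
  have hms' : β * qf (fun A B => min 1 (2 * pos Y A B)) m ≤ β * ((∑ A, m A) ^ 2 / 2) :=
    mul_le_mul_of_nonneg_left hms hβ
  rw [Scheme.qf_split Y m]
  linarith

end Pool.Agent.H99.CP
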