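import Mathlib
import Pool.Agent.H99.CP.Defs

/-! # the kernel `(Y - 4/7)⁺` -/

namespace Pool.Agent.H99.CP

/-- `(Y - 4/7)⁺` -/
noncomputable def tq {ι : Type} (Y : ι → ι → ℝ) : ι → ι → ℝ := fun a b => max (Y a b - 4 / 7) 0

end Pool.Agent.H99.CP
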