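import Mathlib
import Pool.Agent.H99.CP.CombFun
import Pool.Agent.H99.CP.Defs49

/-!
# Combination with the local inequality `(L49)`
-/

open Finset

namespace Pool.Agent.H99.CP

open Pool.Agent.H69.CPR Pool.Agent.H29.CPR

/-- the local function of `(L49)` mixed with the one of `Ker.linplus` -/
noncomputable def H49 (s y : ℝ) : ℝ :=
  s * (max y 0 + 3 / 4 * max (y - 4 / 7) 0)
    + (1 - s) * ((1 / √2) * (max (2 * y - 1) 0 + √(max (2 * y - 1) 0)))

theorem H49_zero (s : ℝ) {y : ℝ} (hy : y ≤ 0) : H49 s y = 0 := by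
  unfold H49
  rw [max_eq_right hy, max_eq_right (by linarith : y - 4 / 7 ≤ 0),
    max_eq_right (by linarith : 2 * y - 1 ≤ 0)]
  simp

theorem H49_nonneg {s : ℝ} (hs0 : 0 ≤ s) (hs1 : s ≤ 1) (y : ℝ) : 0 ≤ H49 s y := by
  unfold H49
  have h1 : 0 ≤ max y 0 := le_max_right _ _
  have h2 : 0 ≤ max (y - 4 / 7) 0 := le_max_right _ _
  have h3 : 0 ≤ max (2 * y - 1) 0 := le_max_right _ _
  have h4 : 0 ≤ √(max (2 * y - 1) 0) := Real.sqrt_nonneg _
  have h5 : 0 ≤ 1 / √2 := by positivity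
  have h6 : 0 ≤ 1 - s := by linarith
  positivity

/-- chord inequality for the square root -/
theorem sqrt_chord {p q r : ℝ} (hp : 0 ≤ p) (hpq : p ≤ q) (hr : p ^ 2 ≤ r) (hr' : r ≤ q ^ 2) :
    r + p * q ≤ (p + q) * √r := by
  have hr0 : 0 ≤ r := le_trans (sq_nonneg p) hr
  have h1 : p ≤ √r := Real.le_sqrt_of_sq_le hr
  have h2 : √r ≤ q := by
    rw [← Real.sqrt_sq (hp.trans hpq)]
    exact Real.sqrt_le_sqrt hr'
  have h3 : √r * √r = r := Real.mul_self_sqrt hr0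
  nlinarith [mul_nonneg (sub_nonneg.2 h1) (sub_nonneg.2 h2)]

/-- The pointwise inequality. -/
theorem pt49 {c s β : ℝ} (hc0 : 0 ≤ c) (hs1 : s ≤ 1)
    (h1 : (1 - c * s) / 2 ≤ β)
    (h2 : 4 / 7 - c * (s * (4 / 7) + (1 - s) * ((1 / √2) * (1 / 7 + √(1 / 7)))) ≤ β)
    (h3 : 1 - c * (s * (1 + 9 / 28) + (1 - s) * √2) ≤ β) (y : ℝ) (hy0 : 0 ≤ y) (hy1 : y ≤ 1) :
    y - c * H49 s y ≤ β * min 1 (2 * y) := by
  have hsq2 : √2 * √2 = 2 := Real.mul_self_sqrt (by norm_num)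
  have hsq0 : 0 < √2 := Real.sqrt_pos.2 (by norm_num)
  have hinv : (1 / √2) * 2 = √2 := by
    field_simp
    linarith
  have hi0 : 0 ≤ 1 / √2 := by positivity
  have hcs : 0 ≤ c * (1 - s) := mul_nonneg hc0 (by linarith)
  have hci : 0 ≤ c * (1 - s) * (1 / √2) := mul_nonneg hcs hi0
  unfold H49
  rw [max_eq_left hy0]
  rcases le_or_gt y (1 / 2) with h | h
  · rw [max_eq_right (by linarith : y - 4 / 7 ≤ 0), max_eq_right (by linarith : 2 * y - 1 ≤ 0),
      min_eq_right (by linarith)]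
    simp only [Real.sqrt_zero, mul_zero, add_zero]
    have f1 := mul_le_mul_of_nonneg_left h1 (by linarith : 0 ≤ 2 * y)
    linarith
  · rw [max_eq_left (by linarith : 0 ≤ 2 * y - 1), min_eq_left (by linarith), mul_one]
    set q : ℝ := √(1 / 7) with hq
    have hq0 : 0 ≤ q := Real.sqrt_nonneg _
    have hqq : q ^ 2 = 1 / 7 := Real.sq_sqrt (by norm_num)
    have hq1 : q ≤ 1 := by nlinarith
    have hqpos : 0 < q := Real.sqrt_pos.2 (by norm_num)
    rcases le_or_gt y (4 / 7) with h' | h'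
    · rw [max_eq_right (by linarith : y - 4 / 7 ≤ 0)]
      -- chord over `[1/2, 4/7]`
      have g1 : 2 * y - 1 ≤ q * √(2 * y - 1) := by
        have := sqrt_chord (p := 0) (q := q) (r := 2 * y - 1) le_rfl hq0 (by linarith)
          (by rw [hqq]; linarith)
        linarith
      have g2 : 7 * (2 * y - 1) * q ≤ √(2 * y - 1) := by
        have : q * (7 * (2 * y - 1) * q) ≤ q * √(2 * y - 1) := by
          have e : q * (7 * (2 * y - 1) * q) = 7 * q ^ 2 * (2 * y - 1) := by ring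
          rw [e, hqq]
          linarith
        exact le_of_mul_le_mul_left this hqpos
      have f1 := mul_le_mul_of_nonneg_left h1 (by linarith : 0 ≤ 1 - 7 * (2 * y - 1))
      have f2 := mul_le_mul_of_nonneg_left h2 (by linarith : 0 ≤ 7 * (2 * y - 1))
      have f3 := mul_le_mul_of_nonneg_left g2 hci
      nlinarith
    · rw [max_eq_left (by linarith : 0 ≤ y - 4 / 7)]
      -- chord over `[4/7, 1]`
      have g1 : (2 * y - 1) + q * 1 ≤ (q + 1) * √(2 * y - 1) :=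
        sqrt_chord (p := q) (q := 1) (r := 2 * y - 1) hq0 hq1 (by rw [hqq]; linarith)
          (by linarith)
      -- `√ρ ≥ q + (ρ - 1/7) * (7/6) * (1 - q)`
      have g2 : q + (2 * y - 1 - 1 / 7) * (7 / 6) * (1 - q) ≤ √(2 * y - 1) := by
        have hpos : 0 < q + 1 := by linarith
        have : (q + 1) * (q + (2 * y - 1 - 1 / 7) * (7 / 6) * (1 - q))
            ≤ (q + 1) * √(2 * y - 1) := by
          refine le_trans (le_of_eq ?_) g1
          have e : (q + 1) * (q + (2 * y - 1 - 1 / 7) * (7 / 6) * (1 - q))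
              = q ^ 2 + q + (2 * y - 1 - 1 / 7) * (7 / 6) * (1 - q ^ 2) := by ring
          rw [e, hqq]
          ring
        exact le_of_mul_le_mul_left this hpos
      have f1 := mul_le_mul_of_nonneg_left h2 (by linarith : 0 ≤ 7 / 3 * (1 - y))
      have f2 := mul_le_mul_of_nonneg_left h3 (by linarith : 0 ≤ 7 / 3 * (y - 4 / 7))
      have f3 := mul_le_mul_of_nonneg_left g2 hci
      have f4 : c * (1 - s) * √2 = c * (1 - s) * (1 / √2) * 2 := by
        rw [mul_assoc, mul_assoc, mul_assoc, hinv]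
      have f5 : 1 - c * (s * (1 + 9 / 28) + (1 - s) * √2)
          = 1 - c * s * (37 / 28) - c * (1 - s) * √2 := by ring
      rw [f5, f4] at f2
      nlinarith

/-- **Combination** for `(L49)`. -/
theorem kernel_bound49 {k : ℕ} {J : Type} [Fintype J] {c : ℝ} (S : Scheme k J c) (hc0 : 0 ≤ c)
    {s β : ℝ} (hs0 : 0 ≤ s) (hs1 : s ≤ 1) (hβ : 0 ≤ β) (h1 : (1 - c * s) / 2 ≤ β)
    (h2 : 4 / 7 - c * (s * (4 / 7) + (1 - s) * ((1 / √2) * (1 / 7 + √(1 / 7)))) ≤ β)
    (h3 : 1 - c * (s * (1 + 9 / 28) + (1 - s) * √2) ≤ β)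
    (LH49 : ∀ (ι : Type) [Fintype ι] [DecidableEq ι] (Y : ι → ι → ℝ), MK Y →
      ∀ m : ι → ℝ, (∀ a, 0 ≤ m a) → 3 / 4 * qf (tq Y) m ≤ - qf Y m)
    {Y : Finset (Fin k) → Finset (Fin k) → ℝ} (hY : TMK Y)
    (m : Finset (Fin k) → ℝ) (hm : ∀ A, 0 ≤ m A) :
    qf Y m ≤ β / 2 * (∑ A, m A) ^ 2 := by
  refine kernel_bound_fun S (H49 s) (fun y hy => H49_zero s hy)
    (fun y _ _ => H49_nonneg hs0 hs1 y) hβ (pt49 hc0 hs1 h1 h2 h3) ?_ hY m hm
  intro ι _ _ Y hY m hm
  have hsq0 : 0 < √2 := Real.sqrt_pos.2 (by norm_num)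
  have g1 := LH49 ι Y hY m hm
  have g2 := hY.ker.linplus (m := m) hm
  have e1 : qf Y m = qf (pos Y) m - qf (neg Y) m := by
    have h2 := qf_lin (pos Y) (neg Y) 1 (-1) m
    rw [one_mul, neg_one_mul, ← sub_eq_add_neg] at h2
    rw [← h2]
    congr 1
    funext a b
    rw [y_eq Y a b]
    ring
  have e2 : qf (fun a b => H49 s (Y a b)) m
      = s * (1 * qf (pos Y) m + 3 / 4 * qf (tq Y) m)
        + ((1 - s) * (1 / √2)) * qf (fun a b => rho Y a b + srho Y a b) m := by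
    rw [← qf_lin (pos Y) (tq Y) 1 (3 / 4) m, ← qf_lin]
    congr 1
    funext a b
    show H49 s (Y a b) = s * (1 * pos Y a b + 3 / 4 * tq Y a b)
      + ((1 - s) * (1 / √2)) * (rho Y a b + srho Y a b)
    unfold H49 pos tq srho rho
    ring
  rw [e2]
  have g3 : (1 / √2) * qf (fun a b => rho Y a b + srho Y a b) m ≤ qf (neg Y) m := by
    have := mul_le_mul_of_nonneg_left g2 (by positivity : (0 : ℝ) ≤ 1 / √2)
    rw [← mul_assoc, one_div_mul_cancel hsq0.ne', one_mul] at this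
    exact this
  have g4 := mul_le_mul_of_nonneg_left g3 (sub_nonneg.2 hs1)
  have g5 : s * (1 * qf (pos Y) m + 3 / 4 * qf (tq Y) m) ≤ s * qf (neg Y) m :=
    mul_le_mul_of_nonneg_left (by linarith) hs0
  rw [← mul_assoc] at g4
  linarith

end Pool.Agent.H99.CP
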