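import Mathlib

/-!
# The real-number endgame of the local inequality (4/7, 3/4)
-/

namespace Pool.Agent.H99.CP

/-- the constraints on a vertex with excess -/
structure VC (z b τ l : ℝ) : Prop where
  τ0 : 0 ≤ τ
  l0 : 0 ≤ l
  τ1 : τ ≤ 3 / 7
  ex : ∃ Q : ℝ, 2 * τ + 1 / 7 ≤ Q ∧ τ + 5 / 21 ≤ Q ∧ Q ≤ 1 ∧ (4 * l ≤ 1 → 4 * Q * l ^ 2 < z) ∧
    (1 ≤ 4 * l → Q * l < z) ∧ (1 ≤ 2 * l → (2 * l - 1 / 2) * Q < z + (4 * l - 2) * b / 3)

theorem VC.v0 {z b τ l : ℝ} (h : VC z b τ l) (hz : 0 < z) :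
    τ * l ≤ τ / (2 * τ + 1 / 7) * z + τ / 16 ∧ τ * l ≤ 21 / 5 * τ * z + τ / 16 := by
  obtain ⟨Q, hQ1, hQ2, hQ3, h1, h2, h3⟩ := h.ex
  have t0 := h.τ0
  have l0 := h.l0
  have hQ0 : 0 < Q := by linarith
  have hy : Q * l ≤ z + Q / 16 := by
    rcases le_total (4 * l) 1 with h4 | h4
    · have := h1 h4
      nlinarith [mul_nonneg hQ0.le (sq_nonneg (2 * l - 1 / 4))]
    · have := h2 h4
      linarith
  have hl : l ≤ z / Q + 1 / 16 := by
    have e : z / Q + 1 / 16 = (z + Q / 16) / Q := by field_simp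
    rw [e, le_div_iff₀ hQ0]
    linarith
  constructor
  · have hq : z / Q ≤ z / (2 * τ + 1 / 7) :=
      div_le_div_of_nonneg_left hz.le (by linarith) hQ1
    have h5 := mul_le_mul_of_nonneg_left (hl.trans (add_le_add_left hq (1/16))) t0
    have e : τ * (z / (2 * τ + 1 / 7) + 1 / 16) = τ / (2 * τ + 1 / 7) * z + τ / 16 := by ring
    linarith
  · have hq : z / Q ≤ z / (5 / 21) :=
      div_le_div_of_nonneg_left hz.le (by norm_num) (by linarith)
    have h5 := mul_le_mul_of_nonneg_left (hl.trans (add_le_add_left hq (1/16))) t0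
    have e : τ * (z / (5 / 21) + 1 / 16) = 21 / 5 * τ * z + τ / 16 := by ring
    linarith

theorem VC.v1 {z b τ l : ℝ} (h : VC z b τ l) (hz : 1 / 4 ≤ z) :
    τ * l ≤ τ / (2 * τ + 1 / 7) * z ∧ τ * l ≤ 21 / 5 * τ * z := by
  obtain ⟨Q, hQ1, hQ2, hQ3, h1, h2, h3⟩ := h.ex
  have t0 := h.τ0
  have l0 := h.l0
  have hQ0 : 0 < Q := by linarith
  have hz0 : 0 < z := by linarith
  have hy : Q * l ≤ z := by
    rcases le_total (4 * l) 1 with h4 | h4
    · nlinarith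
    · exact (h2 h4).le
  have hl : l ≤ z / Q := by
    rw [le_div_iff₀ hQ0]
    linarith
  constructor
  · have hq : z / Q ≤ z / (2 * τ + 1 / 7) :=
      div_le_div_of_nonneg_left hz0.le (by linarith) hQ1
    have h5 := mul_le_mul_of_nonneg_left (hl.trans hq) t0
    have e : τ * (z / (2 * τ + 1 / 7)) = τ / (2 * τ + 1 / 7) * z := by ring
    linarith
  · have hq : z / Q ≤ z / (5 / 21) :=
      div_le_div_of_nonneg_left hz0.le (by norm_num) (by linarith)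
    have h5 := mul_le_mul_of_nonneg_left (hl.trans hq) t0
    have e : τ * (z / (5 / 21)) = 21 / 5 * τ * z := by ring
    linarith

/-- the polynomial inequality of case (II) -/
theorem caseII {z tb τ : ℝ} (hτ1 : 1 / 7 ≤ τ) (hτ2 : τ ≤ 3 / 7) (htb : tb ≤ 3 / 7)
    (h : (1 / 5 ≤ tb ∧ 7 / 10 ≤ z) ∨ (1 / 7 ≤ tb ∧ tb ≤ 1 / 5 ∧ 9 / 10 ≤ z)) :
    3 * τ * (z + τ - 3 / 14 + 2 / 3 * tb)
      ≤ 2 * (2 * τ - 1 / 7 + 2 / 3 * tb) * (z + 49 / 100 * tb) := by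
  have hτ : 0 ≤ (τ - 1 / 7) * (3 / 7 - τ) := mul_nonneg (by linarith) (by linarith)
  rcases h with ⟨h1, h2⟩ | ⟨h1, h1', h2⟩
  · have hz : 0 ≤ (z - 7 / 10) * (τ - 2 / 7 + 4 / 3 * tb) :=
      mul_nonneg (by linarith) (by linarith)
    nlinarith [mul_nonneg (sub_nonneg.2 h1) (sub_nonneg.2 hτ1),
      mul_nonneg (sub_nonneg.2 h1) (sub_nonneg.2 h1), mul_nonneg (sub_nonneg.2 h1) (sub_nonneg.2 hτ2)]
  · have hz : 0 ≤ (z - 9 / 10) * (τ - 2 / 7 + 4 / 3 * tb) :=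
      mul_nonneg (by linarith) (by linarith)
    nlinarith [mul_nonneg (sub_nonneg.2 h1) (sub_nonneg.2 hτ1),
      mul_nonneg (sub_nonneg.2 h1) (sub_nonneg.2 h1), mul_nonneg (sub_nonneg.2 h1) (sub_nonneg.2 hτ2)]

theorem VC.v2 {z tb τ l : ℝ} (h : VC z (3 / 7 - tb) τ l) (htb : tb ≤ 3 / 7)
    (hc : (1 / 5 ≤ tb ∧ 7 / 10 ≤ z) ∨ (1 / 7 ≤ tb ∧ tb ≤ 1 / 5 ∧ 9 / 10 ≤ z)) :
    3 * (τ * l) ≤ z + 49 / 100 * tb := by
  have t0 := h.τ0
  have t1 := h.τ1
  have l0 := h.l0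
  have hz : 7 / 10 ≤ z := by rcases hc with ⟨-, h⟩ | ⟨-, -, h⟩ <;> linarith
  have htb0 : 1 / 7 ≤ tb := by rcases hc with ⟨h, -⟩ | ⟨h, -, -⟩ <;> linarith
  rcases le_total τ (1 / 7) with ht | ht
  · have h1 := (h.v1 (by linarith)).1
    have h2 : τ / (2 * τ + 1 / 7) ≤ 1 / 3 := by
      rw [div_le_iff₀ (by linarith)]
      linarith
    have h3 := mul_le_mul_of_nonneg_right h2 (by linarith : (0:ℝ) ≤ z)
    linarith
  · rcases le_total l (1 / 2) with hl | hl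
    · have : τ * l ≤ 3 / 7 * (1 / 2) := mul_le_mul t1 hl l0 (by norm_num)
      linarith
    · obtain ⟨Q, hQ1, hQ2, hQ3, h1, h2, h3⟩ := h.ex
      have h4 := h3 (by linarith)
      have h5 : (2 * l - 1 / 2) * (2 * τ + 1 / 7) ≤ (2 * l - 1 / 2) * Q :=
        mul_le_mul_of_nonneg_left hQ1 (by linarith)
      have h6 := caseII ht t1 htb hc
      have hD : 0 < 2 * (2 * τ - 1 / 7 + 2 / 3 * tb) := by linarith
      have h7 : 2 * (2 * τ - 1 / 7 + 2 / 3 * tb) * l ≤ z + τ - 3 / 14 + 2 / 3 * tb := by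
        nlinarith
      have h8 := mul_le_mul_of_nonneg_left h7 (by linarith : (0:ℝ) ≤ 3 * τ)
      have h9 : 2 * (2 * τ - 1 / 7 + 2 / 3 * tb) * (3 * (τ * l))
          ≤ 2 * (2 * τ - 1 / 7 + 2 / 3 * tb) * (z + 49 / 100 * tb) := by
        nlinarith
      exact le_of_mul_le_mul_left h9 hD

theorem g_mono {τ t : ℝ} (h0 : 0 ≤ τ) (h : τ ≤ t) : τ / (2 * τ + 1 / 7) ≤ t / (2 * t + 1 / 7) := by
  rw [div_le_div_iff₀ (by linarith) (by linarith)]
  nlinarith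

/-- the tangent of `t / (2 t + 1/7)` at `tb` -/
theorem g_tangent {t tb : ℝ} (ht : 0 ≤ t) (htb : 0 ≤ tb) :
    t / (2 * t + 1 / 7) ≤ (2 * tb ^ 2 + t / 7) / (2 * tb + 1 / 7) ^ 2 := by
  rw [div_le_div_iff₀ (by linarith) (by positivity)]
  nlinarith [sq_nonneg (t - tb)]

/-- **endgame** -/
theorem endgame {z tb : ℝ} (hz : 0 < z) (htb0 : 0 < tb) (htb : tb ≤ 3 / 7) :
    ∃ α β : ℝ, 3 * (α + β * tb) < z + tb / 2 ∧
      (∀ t, 0 < t → 0 ≤ α + β * t) ∧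
      (∀ t, 0 < t → t ≤ 3 / 7 → ∀ τ l, VC z (3 / 7 - tb) τ l → τ ≤ t → τ * l ≤ α + β * t) ∧
      (∀ t, 8 / 21 ≤ t → t ≤ 3 / 7 → ∀ τ l τ' l', VC z (3 / 7 - tb) τ l →
        VC z (3 / 7 - tb) τ' l' → τ + τ' ≤ t - 8 / 21 → τ * l + τ' * l' ≤ α + β * t) := by
  have hg8 : ∀ t : ℝ, 8 / 21 ≤ t → 1 / 5 ≤ t / (2 * t + 1 / 7) := by
    intro t ht
    rw [le_div_iff₀ (by linarith)]
    linarith
  have two0 : ∀ t, 8 / 21 ≤ t → t ≤ 3 / 7 → ∀ τ l τ' l', VC z (3 / 7 - tb) τ l →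
        VC z (3 / 7 - tb) τ' l' → τ + τ' ≤ t - 8 / 21 →
        τ * l + τ' * l' ≤ z / 5 + t / 16 := by
    intro t ht1 ht2 τ l τ' l' h h' hs
    have h1 := (h.v0 hz).2
    have h2 := (h'.v0 hz).2
    have h3 : 21 / 5 * (τ + τ') * z ≤ 21 / 5 * (1 / 21) * z :=
      mul_le_mul_of_nonneg_right (by linarith) hz.le
    have h4 := h.τ0
    have h5 := h'.τ0
    nlinarith
  rcases le_total tb (1 / 7) with hA | hA
  · -- case (I)
    refine ⟨2 * z / 9, 7 * z / 9 + 1 / 16, ?_, ?_, ?_, ?_⟩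
    · nlinarith
    · intro t ht
      positivity
    · intro t ht0 ht τ l h hτ
      have h1 := (h.v0 hz).1
      have h2 := g_mono h.τ0 hτ
      have h3 : t / (2 * t + 1 / 7) ≤ 2 / 9 + 7 / 9 * t := by
        rw [div_le_iff₀ (by linarith)]
        nlinarith [sq_nonneg (7 * t - 1)]
      have h4 := mul_le_mul_of_nonneg_right (h2.trans h3) hz.le
      nlinarith [h.τ0]
    · intro t ht1 ht2 τ l τ' l' h h' hs
      have h1 := two0 t ht1 ht2 τ l τ' l' h h' hs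
      nlinarith
  set u : ℝ := 2 * tb + 1 / 7 with hu
  have hu0 : 0 < u := by rw [hu]; linarith
  have hval : (2 * tb ^ 2 + tb / 7) / u ^ 2 = tb / u := by
    rw [div_eq_div_iff (by positivity) hu0.ne', hu]
    ring
  by_cases hB : z ≤ 1 / 4
  · -- case (Ia)
    refine ⟨2 * tb ^ 2 * z / u ^ 2, z / (7 * u ^ 2) + 1 / 16, ?_, ?_, ?_, ?_⟩
    · have e : 3 * (2 * tb ^ 2 * z / u ^ 2 + (z / (7 * u ^ 2) + 1 / 16) * tb)
          = 3 * ((2 * tb ^ 2 + tb / 7) / u ^ 2 * z) + 3 * tb / 16 := by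
        field_simp
        ring
      rw [e, hval]
      have h1 : 3 * (tb / u * z) < z + 5 / 16 * tb := by
        have : 3 * (tb / u * z) = 3 * tb * z / u := by ring
        rw [this, div_lt_iff₀ hu0, hu]
        nlinarith [sq_nonneg (tb - 23 / 140), mul_nonneg (sub_nonneg.2 hA) (sub_nonneg.2 hB)]
      linarith
    · intro t ht
      positivity
    · intro t ht0 ht τ l h hτ
      have h1 := (h.v0 hz).1
      have h2 := g_mono h.τ0 hτ
      have h3 := g_tangent ht0.le htb0.le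
      have h4 := mul_le_mul_of_nonneg_right (h2.trans h3) hz.le
      have e : (2 * tb ^ 2 + t / 7) / (2 * tb + 1 / 7) ^ 2 * z
          = 2 * tb ^ 2 * z / u ^ 2 + z / (7 * u ^ 2) * t := by
        rw [← hu]; field_simp
      rw [e] at h4
      have := h.τ0
      nlinarith
    · intro t ht1 ht2 τ l τ' l' h h' hs
      have h1 := two0 t ht1 ht2 τ l τ' l' h h' hs
      have h3 := g_tangent (by linarith : (0:ℝ) ≤ t) htb0.le
      have h4 := mul_le_mul_of_nonneg_right ((hg8 t ht1).trans h3) hz.le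
      have e : (2 * tb ^ 2 + t / 7) / (2 * tb + 1 / 7) ^ 2 * z
          = 2 * tb ^ 2 * z / u ^ 2 + z / (7 * u ^ 2) * t := by
        rw [← hu]; field_simp
      rw [e] at h4
      nlinarith
  push Not at hB
  have two1 : ∀ t, 8 / 21 ≤ t → t ≤ 3 / 7 → ∀ τ l τ' l', VC z (3 / 7 - tb) τ l →
        VC z (3 / 7 - tb) τ' l' → τ + τ' ≤ t - 8 / 21 →
        τ * l + τ' * l' ≤ z / 5 := by
    intro t ht1 ht2 τ l τ' l' h h' hs
    have h1 := (h.v1 hB.le).2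
    have h2 := (h'.v1 hB.le).2
    have h3 : 21 / 5 * (τ + τ') * z ≤ 21 / 5 * (1 / 21) * z :=
      mul_le_mul_of_nonneg_right (by linarith) hz.le
    nlinarith
  by_cases hC : z ≤ 7 / 10 ∨ (z ≤ 9 / 10 ∧ tb ≤ 1 / 5)
  · -- case (Ib)
    refine ⟨2 * tb ^ 2 * z / u ^ 2, z / (7 * u ^ 2), ?_, ?_, ?_, ?_⟩
    · have e : 3 * (2 * tb ^ 2 * z / u ^ 2 + z / (7 * u ^ 2) * tb)
          = 3 * ((2 * tb ^ 2 + tb / 7) / u ^ 2 * z) := by
        field_simp
      rw [e, hval]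
      have : 3 * (tb / u * z) = 3 * tb * z / u := by ring
      rw [this, div_lt_iff₀ hu0, hu]
      have key : z * (tb - 1 / 7) < tb * (tb + 1 / 14) := by
        rcases hC with h | ⟨h, h'⟩
        · have h1 : z * (tb - 1 / 7) ≤ 7 / 10 * (tb - 1 / 7) :=
            mul_le_mul_of_nonneg_right h (by linarith)
          nlinarith [sq_nonneg (tb - 11 / 35)]
        · have h1 : z * (tb - 1 / 7) ≤ 9 / 10 * (tb - 1 / 7) :=
            mul_le_mul_of_nonneg_right h (by linarith)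
          nlinarith [mul_nonneg (sub_nonneg.2 h') (by linarith : (0:ℝ) ≤ 58 / 70 - 1 / 5 - tb)]
      nlinarith
    · intro t ht
      positivity
    · intro t ht0 ht τ l h hτ
      have h1 := (h.v1 hB.le).1
      have h2 := g_mono h.τ0 hτ
      have h3 := g_tangent ht0.le htb0.le
      have h4 := mul_le_mul_of_nonneg_right (h2.trans h3) hz.le
      have e : (2 * tb ^ 2 + t / 7) / (2 * tb + 1 / 7) ^ 2 * z
          = 2 * tb ^ 2 * z / u ^ 2 + z / (7 * u ^ 2) * t := by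
        rw [← hu]; field_simp
      rw [e] at h4
      linarith
    · intro t ht1 ht2 τ l τ' l' h h' hs
      have h1 := two1 t ht1 ht2 τ l τ' l' h h' hs
      have h3 := g_tangent (by linarith : (0:ℝ) ≤ t) htb0.le
      have h4 := mul_le_mul_of_nonneg_right ((hg8 t ht1).trans h3) hz.le
      have e : (2 * tb ^ 2 + t / 7) / (2 * tb + 1 / 7) ^ 2 * z
          = 2 * tb ^ 2 * z / u ^ 2 + z / (7 * u ^ 2) * t := by
        rw [← hu]; field_simp
      rw [e] at h4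
      linarith
  · -- case (II)
    push Not at hC
    have hc : (1 / 5 ≤ tb ∧ 7 / 10 ≤ z) ∨ (1 / 7 ≤ tb ∧ tb ≤ 1 / 5 ∧ 9 / 10 ≤ z) := by
      rcases le_total (1 / 5) tb with h | h
      · exact Or.inl ⟨h, hC.1.le⟩
      · right
        refine ⟨hA, h, ?_⟩
        by_contra hcon
        push Not at hcon
        have := hC.2 hcon.le
        linarith
    refine ⟨(z + 49 / 100 * tb) / 3, 0, ?_, ?_, ?_, ?_⟩
    · linarith
    · intro t ht
      positivity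
    · intro t ht0 ht τ l h hτ
      have := h.v2 htb hc
      linarith
    · intro t ht1 ht2 τ l τ' l' h h' hs
      have := two1 t ht1 ht2 τ l τ' l' h h' hs
      linarith

end Pool.Agent.H99.CP
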