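import Mathlib

/-!
# Part (B) of the local inequality (MP_10f644_co, upper bound `c* ≤ 1/45`)

`motzkin3`: the Motzkin-Straus inequality for triangle-free loopless graphs.
`part_B`: for a fractional matching `f` with potentials `p` for the weights `t + e` on the
triangle-free graph `{t > 0}`: `T(s, s) ≤ F I / 2 + F ^ 2 e / 8`, `s` the row sums of `f`.
-/

open Finset

namespace Pool.Agent.H99.CP

open Classical in
/-- Motzkin-Straus for triangle-free graphs. -/
theorem motzkin3 {ι : Type} [Fintype ι] (t : ι → ι → ℝ)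
    (ht : ∀ a b, t a b = t b a)
    (htri : ∀ a b c, 0 < t a b → 0 < t b c → 0 < t a c → False)
    (W : ι → ℝ) (hW : ∀ a, 0 ≤ W a) :
    ∑ a, ∑ b, (if 0 < t a b then (1 : ℝ) else 0) * (W a * W b) ≤ (∑ a, W a) ^ 2 / 2 := by
  let G : ι → ι → ℝ := fun a b => if 0 < t a b then (1 : ℝ) else 0
  have hG : ∀ a b, G a b = G b a := fun a b => by simp only [G, ht a b]
  have hG0 : ∀ a b, 0 ≤ G a b := fun a b => by simp only [G]; positivity
  set w := ∑ a, W a with hw
  have hw0 : 0 ≤ w := Finset.sum_nonneg fun a _ => hW a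
  let N : ι → ℝ := fun a => ∑ c, G a c * W c
  have hN0 : ∀ a, 0 ≤ N a := fun a => Finset.sum_nonneg fun c _ => mul_nonneg (hG0 a c) (hW c)
  set S := ∑ a, W a * N a with hS
  have hSeq : ∑ a, ∑ b, (if 0 < t a b then (1 : ℝ) else 0) * (W a * W b) = S := by
    rw [hS]
    refine Finset.sum_congr rfl fun a _ => ?_
    simp only [N, Finset.mul_sum]
    refine Finset.sum_congr rfl fun b _ => ?_
    simp only [G]
    ring
  rw [hSeq]
  have h1 : ∀ a b, G a b * (N a + N b) ≤ G a b * w := by
    intro a b
    by_cases hab : 0 < t a b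
    · refine mul_le_mul_of_nonneg_left ?_ (hG0 a b)
      simp only [N, ← Finset.sum_add_distrib, hw]
      refine Finset.sum_le_sum fun c _ => ?_
      have : G a c + G b c ≤ 1 := by
        by_cases h1 : 0 < t a c
        · by_cases h2 : 0 < t b c
          · exact (htri a b c hab h2 h1).elim
          · simp only [G, if_pos h1, if_neg h2]; norm_num
        · by_cases h2 : 0 < t b c
          · simp only [G, if_neg h1, if_pos h2]; norm_num
          · simp only [G, if_neg h1, if_neg h2]; norm_num
      have := mul_le_mul_of_nonneg_right this (hW c)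
      linarith
    · have : G a b = 0 := if_neg hab
      rw [this]; simp
  have h2 : 2 * ∑ a, W a * N a ^ 2 ≤ w * S := by
    have e1 : ∑ a, ∑ b, W a * W b * (G a b * (N a + N b)) ≤ ∑ a, ∑ b, W a * W b * (G a b * w) :=
      Finset.sum_le_sum fun a _ => Finset.sum_le_sum fun b _ =>
        mul_le_mul_of_nonneg_left (h1 a b) (mul_nonneg (hW a) (hW b))
    have e2 : ∑ a, ∑ b, W a * W b * (G a b * w) = w * S := by
      rw [hS, Finset.mul_sum]
      refine Finset.sum_congr rfl fun a _ => ?_
      simp only [N, Finset.mul_sum]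
      exact Finset.sum_congr rfl fun b _ => by ring
    have e3 : ∑ a, ∑ b, W a * W b * (G a b * N a) = ∑ a, W a * N a ^ 2 := by
      refine Finset.sum_congr rfl fun a _ => ?_
      have : W a * N a ^ 2 = (W a * N a) * N a := by ring
      rw [this]
      conv_rhs => rw [show N a = ∑ c, G a c * W c from rfl]
      rw [Finset.mul_sum]
      refine Finset.sum_congr rfl fun b _ => ?_
      show W a * W b * (G a b * N a) = W a * (∑ c, G a c * W c) * (G a b * W b)
      show W a * W b * (G a b * N a) = W a * N a * (G a b * W b)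
      ring
    have e4 : ∑ a, ∑ b, W a * W b * (G a b * N b) = ∑ a, W a * N a ^ 2 := by
      rw [Finset.sum_comm, ← e3]
      refine Finset.sum_congr rfl fun a _ => Finset.sum_congr rfl fun b _ => ?_
      rw [hG b a]; ring
    have e5 : ∑ a, ∑ b, W a * W b * (G a b * (N a + N b)) =
        ∑ a, ∑ b, W a * W b * (G a b * N a) + ∑ a, ∑ b, W a * W b * (G a b * N b) := by
      simp only [← Finset.sum_add_distrib]
      exact Finset.sum_congr rfl fun a _ => Finset.sum_congr rfl fun b _ => by ring
    rw [e5, e3, e4, e2] at e1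
    linarith
  have h3 : 0 ≤ ∑ a, W a * (N a - w / 2) ^ 2 :=
    Finset.sum_nonneg fun a _ => mul_nonneg (hW a) (sq_nonneg _)
  have h4 : ∑ a, W a * (N a - w / 2) ^ 2 = ∑ a, W a * N a ^ 2 - w * S + w ^ 3 / 4 := by
    have : ∀ a, W a * (N a - w / 2) ^ 2 = W a * N a ^ 2 - w * (W a * N a) + W a * (w ^ 2 / 4) :=
      fun a => by ring
    rw [Finset.sum_congr rfl fun a _ => this a, Finset.sum_add_distrib, Finset.sum_sub_distrib,
      ← Finset.mul_sum, ← Finset.sum_mul, ← hS, ← hw]
    ring
  rw [h4] at h3
  have h5 : w * S ≤ w * (w ^ 2 / 2) := by nlinarith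
  rcases eq_or_lt_of_le hw0 with h | h
  · have hz : ∀ a, W a = 0 := by
      intro a
      have := (Finset.sum_eq_zero_iff_of_nonneg (fun a _ => hW a)).1 (hw ▸ h.symm : ∑ a, W a = 0)
        a (Finset.mem_univ a)
      exact this
    have : S = 0 := by
      rw [hS]
      exact Finset.sum_eq_zero fun a _ => by rw [hz a, zero_mul]
    rw [this, ← h]; norm_num
  · exact le_of_mul_le_mul_left h5 h

open Classical in
/-- **Part (B).** -/
theorem part_B {ι : Type} [Fintype ι] (t : ι → ι → ℝ)
    (ht : ∀ a b, t a b = t b a) (ht0 : ∀ a b, 0 ≤ t a b)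
    (htri : ∀ a b c, 0 < t a b → 0 < t b c → 0 < t a c → False) (f : ι → ι → ℝ)
    (hfs : ∀ a b, f a b = f b a) (hf0 : ∀ a b, 0 ≤ f a b) (hft : ∀ a b, f a b ≠ 0 → 0 < t a b)
    (p : ι → ℝ) (e F I : ℝ) (he : 0 < e) (hF : F = ∑ a, ∑ b, f a b)
    (hI : I = ∑ a, ∑ b, f a b * t a b) (hp0 : ∀ a, 0 ≤ p a)
    (hp1 : ∀ a b, 0 < t a b → t a b + e ≤ p a + p b)
    (hp2 : ∀ a b, f a b ≠ 0 → p a + p b = t a b + e) :
    ∑ a, ∑ b, t a b * ((∑ x, f a x) * ∑ y, f b y) ≤ F * I / 2 + F ^ 2 * e / 8 := by
  let G : ι → ι → ℝ := fun a b => if 0 < t a b then (1 : ℝ) else 0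
  let u : ι → ℝ := fun a => max (e - p a) 0
  have hu0 : ∀ a, 0 ≤ u a := fun a => le_max_right _ _
  have hu1 : ∀ a, e - p a ≤ u a := fun a => le_max_left _ _
  have hG0 : ∀ a b, 0 ≤ G a b := fun a b => by simp only [G]; positivity
  -- one cross pair
  have huu : ∀ a b, e - p a - p b ≤ u a * u b / e := by
    intro a b
    rw [le_div_iff₀ he]
    by_cases h1 : p a ≤ e
    · by_cases h2 : p b ≤ e
      · have e1 : u a = e - p a := max_eq_left (by linarith)
        have e2 : u b = e - p b := max_eq_left (by linarith)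
        rw [e1, e2]
        nlinarith [mul_nonneg (hp0 a) (hp0 b)]
      · push Not at h2
        have := mul_nonneg (hu0 a) (hu0 b)
        have h3 : e - p a - p b ≤ 0 := by linarith [hp0 a]
        nlinarith
    · push Not at h1
      have := mul_nonneg (hu0 a) (hu0 b)
      have h3 : e - p a - p b ≤ 0 := by linarith [hp0 b]
      nlinarith
  have hGt : ∀ a b, ¬ 0 < t a b → t a b = 0 ∧ G a b = 0 := fun a b h =>
    ⟨le_antisymm (not_lt.1 h) (ht0 a b), if_neg h⟩
  have hGt1 : ∀ a b, 0 < t a b → G a b = 1 := fun a b h => if_pos h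
  -- a single cross pair `x y` with partners `x' y'`
  have hsing : ∀ x x' y y', f x x' ≠ 0 → f y y' ≠ 0 → 0 < t x y →
      t x y ≤ t x x' + t y y' + (1 / e) * (G x y * (u x' * u y')) := by
    intro x x' y y' h1 h2 h3
    have e1 := hp1 x y h3
    have e2 := hp2 x x' h1
    have e3 := hp2 y y' h2
    have e4 := huu x' y'
    rw [hGt1 x y h3, one_mul, one_div, inv_mul_eq_div]
    linarith
  have hGu : ∀ x y x' y', 0 ≤ (1 / e) * (G x y * (u x' * u y')) := fun x y x' y' => by
    have := hG0 x y
    have := hu0 x'
    have := hu0 y'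
    positivity
  -- pointwise inequality
  have hpt : ∀ a b c d, f a b * f c d * (t a c + t a d + t b c + t b d) ≤
      f a b * f c d * (t a b + t c d + (1 / e) * (G a c * (u b * u d)) +
        (1 / e) * (G a d * (u b * u c)) + (1 / e) * (G b c * (u a * u d)) +
        (1 / e) * (G b d * (u a * u c))) := by
    intro a b c d
    by_cases hab : f a b = 0
    · rw [hab]; simp
    by_cases hcd : f c d = 0
    · rw [hcd]; simp
    refine mul_le_mul_of_nonneg_left ?_ (mul_nonneg (hf0 a b) (hf0 c d))
    have gab := hft a b hab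
    have gcd := hft c d hcd
    have hba : f b a ≠ 0 := by rw [hfs b a]; exact hab
    have hdc : f d c ≠ 0 := by rw [hfs d c]; exact hcd
    have s1 := ht b a
    have s2 := ht d c
    have k1 := hGu a c b d
    have k2 := hGu a d b c
    have k3 := hGu b c a d
    have k4 := hGu b d a c
    have t1 := ht0 a b
    have t2 := ht0 c d
    by_cases h1 : 0 < t a c
    · have h2 : ¬ 0 < t a d := fun h => htri a c d h1 gcd h
      have h3 : ¬ 0 < t b c := fun h => htri a b c gab h h1
      by_cases h4 : 0 < t b d
      · have e1 := hp1 a c h1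
        have e2 := hp1 b d h4
        have e3 := hp2 a b hab
        have e4 := hp2 c d hcd
        rw [(hGt a d h2).1, (hGt b c h3).1]
        linarith
      · have e1 := hsing a b c d hab hcd h1
        rw [(hGt a d h2).1, (hGt b c h3).1, (hGt b d h4).1]
        linarith
    · by_cases h2 : 0 < t a d
      · have h4 : ¬ 0 < t b d := fun h => htri a b d gab h h2
        by_cases h3 : 0 < t b c
        · have e1 := hp1 a d h2
          have e2 := hp1 b c h3
          have e3 := hp2 a b hab
          have e4 := hp2 c d hcd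
          rw [(hGt a c h1).1, (hGt b d h4).1]
          linarith
        · have e1 := hsing a b d c hab hdc h2
          rw [(hGt a c h1).1, (hGt b c h3).1, (hGt b d h4).1]
          linarith
      · by_cases h3 : 0 < t b c
        · have h4 : ¬ 0 < t b d := fun h => htri b c d h3 gcd h
          have e1 := hsing b a c d hba hcd h3
          rw [(hGt a c h1).1, (hGt a d h2).1, (hGt b d h4).1]
          linarith
        · by_cases h4 : 0 < t b d
          · have e1 := hsing b a d c hba hdc h4
            rw [(hGt a c h1).1, (hGt a d h2).1, (hGt b c h3).1]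
            linarith
          · rw [(hGt a c h1).1, (hGt a d h2).1, (hGt b c h3).1, (hGt b d h4).1]
            linarith
  -- averages
  let A : (ι → ι → ι → ι → ℝ) → ℝ := fun φ => ∑ a, ∑ b, ∑ c, ∑ d, f a b * f c d * φ a b c d
  have hAsw1 : ∀ φ : ι → ι → ι → ι → ℝ, A (fun a b c d => φ b a c d) = A φ := by
    intro φ
    simp only [A]
    rw [Finset.sum_comm]
    refine Finset.sum_congr rfl fun a _ => Finset.sum_congr rfl fun b _ => ?_
    rw [hfs b a]
  have hAsw2 : ∀ φ : ι → ι → ι → ι → ℝ, A (fun a b c d => φ a b d c) = A φ := by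
    intro φ
    simp only [A]
    refine Finset.sum_congr rfl fun a _ => Finset.sum_congr rfl fun b _ => ?_
    rw [Finset.sum_comm]
    refine Finset.sum_congr rfl fun c _ => Finset.sum_congr rfl fun d _ => ?_
    rw [hfs d c]
  have hAadd : ∀ φ ψ : ι → ι → ι → ι → ℝ, A (fun a b c d => φ a b c d + ψ a b c d) =
      A φ + A ψ := by
    intro φ ψ
    simp only [A, ← Finset.sum_add_distrib]
    refine Finset.sum_congr rfl fun a _ => Finset.sum_congr rfl fun b _ =>
      Finset.sum_congr rfl fun c _ => Finset.sum_congr rfl fun d _ => ?_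
    ring
  have hAmul : ∀ (k : ℝ) (φ : ι → ι → ι → ι → ℝ), A (fun a b c d => k * φ a b c d) =
      k * A φ := by
    intro k φ
    simp only [A, Finset.mul_sum]
    refine Finset.sum_congr rfl fun a _ => Finset.sum_congr rfl fun b _ =>
      Finset.sum_congr rfl fun c _ => Finset.sum_congr rfl fun d _ => ?_
    ring
  have hAle : A (fun a b c d => t a c + t a d + t b c + t b d) ≤
      A (fun a b c d => t a b + t c d + (1 / e) * (G a c * (u b * u d)) +
        (1 / e) * (G a d * (u b * u c)) + (1 / e) * (G b c * (u a * u d)) +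
        (1 / e) * (G b d * (u a * u c))) :=
    Finset.sum_le_sum fun a _ => Finset.sum_le_sum fun b _ => Finset.sum_le_sum fun c _ =>
      Finset.sum_le_sum fun d _ => hpt a b c d
  set T := ∑ a, ∑ b, t a b * ((∑ x, f a x) * ∑ y, f b y) with hT
  -- the left side
  have hA0 : A (fun a _ c _ => t a c) = T := by
    simp only [A]
    rw [hT]
    refine Finset.sum_congr rfl fun a _ => ?_
    rw [Finset.sum_comm]
    refine Finset.sum_congr rfl fun c _ => ?_
    rw [Finset.sum_mul_sum, Finset.mul_sum]
    refine Finset.sum_congr rfl fun b _ => ?_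
    rw [Finset.mul_sum]
    refine Finset.sum_congr rfl fun d _ => ?_
    ring
  have hL : A (fun a b c d => t a c + t a d + t b c + t b d) = 4 * T := by
    rw [hAadd (fun a b c d => t a c + t a d + t b c) (fun a b c d => t b d),
      hAadd (fun a b c d => t a c + t a d) (fun a b c d => t b c),
      hAadd (fun a b c d => t a c) (fun a b c d => t a d)]
    have e1 : A (fun a b c d => t a d) = T := by
      rw [← hA0]; exact hAsw2 (fun a b c d => t a c)
    have e2 : A (fun a b c d => t b c) = T := by
      rw [← hA0]; exact hAsw1 (fun a b c d => t a c)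
    have e3 : A (fun a b c d => t b d) = T := by
      rw [← e1]; exact hAsw1 (fun a b c d => t a d)
    rw [hA0, e1, e2, e3]; ring
  -- the right side
  let W : ι → ℝ := fun a => ∑ b, f a b * u b
  have hW0 : ∀ a, 0 ≤ W a := fun a => Finset.sum_nonneg fun b _ => mul_nonneg (hf0 a b) (hu0 b)
  set Gs := ∑ a, ∑ b, G a b * (W a * W b) with hGs
  have hB0 : A (fun a b c d => G a c * (u b * u d)) = Gs := by
    simp only [A]
    rw [hGs]
    refine Finset.sum_congr rfl fun a _ => ?_
    rw [Finset.sum_comm]
    refine Finset.sum_congr rfl fun c _ => ?_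
    simp only [W]
    rw [Finset.sum_mul_sum, Finset.mul_sum]
    refine Finset.sum_congr rfl fun b _ => ?_
    rw [Finset.mul_sum]
    refine Finset.sum_congr rfl fun d _ => ?_
    ring
  have hR1 : A (fun a b c d => t a b) = I * F := by
    simp only [A]
    rw [hI, hF, Finset.sum_mul]
    refine Finset.sum_congr rfl fun a _ => ?_
    rw [Finset.sum_mul]
    refine Finset.sum_congr rfl fun b _ => ?_
    rw [Finset.mul_sum]
    refine Finset.sum_congr rfl fun c _ => ?_
    rw [Finset.mul_sum]
    refine Finset.sum_congr rfl fun d _ => ?_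
    ring
  have hR2 : A (fun a b c d => t c d) = I * F := by
    simp only [A]
    rw [mul_comm I F]
    conv_rhs => rw [hI, hF]
    rw [Finset.sum_mul]
    refine Finset.sum_congr rfl fun a _ => ?_
    rw [Finset.sum_mul]
    refine Finset.sum_congr rfl fun b _ => ?_
    rw [Finset.mul_sum]
    refine Finset.sum_congr rfl fun c _ => ?_
    rw [Finset.mul_sum]
    refine Finset.sum_congr rfl fun d _ => ?_
    ring
  have hRR : A (fun a b c d => t a b + t c d + (1 / e) * (G a c * (u b * u d)) +
        (1 / e) * (G a d * (u b * u c)) + (1 / e) * (G b c * (u a * u d)) +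
        (1 / e) * (G b d * (u a * u c))) = 2 * (I * F) + 4 * ((1 / e) * Gs) := by
    rw [hAadd (fun a b c d => t a b + t c d + (1 / e) * (G a c * (u b * u d)) +
        (1 / e) * (G a d * (u b * u c)) + (1 / e) * (G b c * (u a * u d)))
        (fun a b c d => (1 / e) * (G b d * (u a * u c))),
      hAadd (fun a b c d => t a b + t c d + (1 / e) * (G a c * (u b * u d)) +
        (1 / e) * (G a d * (u b * u c))) (fun a b c d => (1 / e) * (G b c * (u a * u d))),
      hAadd (fun a b c d => t a b + t c d + (1 / e) * (G a c * (u b * u d)))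
        (fun a b c d => (1 / e) * (G a d * (u b * u c))),
      hAadd (fun a b c d => t a b + t c d) (fun a b c d => (1 / e) * (G a c * (u b * u d))),
      hAadd (fun a b c d => t a b) (fun a b c d => t c d),
      hAmul (1 / e) (fun a b c d => G b d * (u a * u c)),
      hAmul (1 / e) (fun a b c d => G b c * (u a * u d)),
      hAmul (1 / e) (fun a b c d => G a d * (u b * u c)),
      hAmul (1 / e) (fun a b c d => G a c * (u b * u d))]
    have e1 : A (fun a b c d => G a d * (u b * u c)) = Gs := by
      rw [← hB0]; exact hAsw2 (fun a b c d => G a c * (u b * u d))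
    have e2 : A (fun a b c d => G b c * (u a * u d)) = Gs := by
      rw [← hB0]; exact hAsw1 (fun a b c d => G a c * (u b * u d))
    have e3 : A (fun a b c d => G b d * (u a * u c)) = Gs := by
      rw [← e1]; exact hAsw1 (fun a b c d => G a d * (u b * u c))
    rw [hR1, hR2, hB0, e1, e2, e3]; ring
  rw [hL, hRR] at hAle
  -- Motzkin-Straus
  have hMS : Gs ≤ (∑ a, W a) ^ 2 / 2 := motzkin3 t ht htri W hW0
  have hWF : ∑ a, W a ≤ F * e / 2 := by
    have h1 : ∑ a, W a = ∑ a, ∑ b, f a b * u a := by
      simp only [W]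
      rw [Finset.sum_comm]
      refine Finset.sum_congr rfl fun a _ => Finset.sum_congr rfl fun b _ => ?_
      rw [hfs b a]
    have h2 : 2 * ∑ a, W a = ∑ a, ∑ b, f a b * (u a + u b) := by
      rw [two_mul]
      nth_rw 1 [h1]
      simp only [W, ← Finset.sum_add_distrib]
      exact Finset.sum_congr rfl fun a _ => Finset.sum_congr rfl fun b _ => by ring
    have h3 : ∑ a, ∑ b, f a b * (u a + u b) ≤ ∑ a, ∑ b, f a b * e := by
      refine Finset.sum_le_sum fun a _ => Finset.sum_le_sum fun b _ => ?_
      by_cases hab : f a b = 0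
      · rw [hab]; simp
      · refine mul_le_mul_of_nonneg_left ?_ (hf0 a b)
        have e1 := hp2 a b hab
        have e2 := hft a b hab
        by_cases h1 : p a ≤ e
        · by_cases h2 : p b ≤ e
          · have e3 : u a = e - p a := max_eq_left (by linarith)
            have e4 : u b = e - p b := max_eq_left (by linarith)
            rw [e3, e4]; linarith
          · push Not at h2
            have e4 : u b = 0 := max_eq_right (by linarith)
            have e3 : u a ≤ e := max_le (by linarith [hp0 a]) he.le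
            rw [e4]; linarith
        · push Not at h1
          have e4 : u a = 0 := max_eq_right (by linarith)
          have e3 : u b ≤ e := max_le (by linarith [hp0 b]) he.le
          rw [e4]; linarith
    have h4 : ∑ a, ∑ b, f a b * e = F * e := by
      rw [hF, Finset.sum_mul]
      exact Finset.sum_congr rfl fun a _ => by rw [Finset.sum_mul]
    linarith
  have hWs0 : 0 ≤ ∑ a, W a := Finset.sum_nonneg fun a _ => hW0 a
  have hsq : (∑ a, W a) ^ 2 ≤ (F * e / 2) ^ 2 := pow_le_pow_left₀ hWs0 hWF 2
  have hfin : (1 / e) * Gs ≤ F ^ 2 * e / 8 := by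
    rw [one_div, inv_mul_le_iff₀ he]
    nlinarith
  nlinarith

end Pool.Agent.H99.CP
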