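import Mathlib
import Pool.Agent.H99.CP.PartB

/-! # Lemma (B) in the form used by the local inequality (MP_10f644_co) -/

open Finset

namespace Pool.Agent.H99.CP

/-- **Lemma (B).** -/
theorem lemB {ι : Type} [Fintype ι] [DecidableEq ι] (t f : ι → ι → ℝ) (p s : ι → ℝ)
    (F I e : ℝ) (ht : ∀ a b, t a b = t b a) (ht0 : ∀ a b, 0 ≤ t a b)
    (htf : ∀ a b c, 0 < t a b → 0 < t a c → ¬ 0 < t b c) (hf : ∀ a b, f a b = f b a)
    (hf0 : ∀ a b, 0 ≤ f a b) (hft : ∀ a b, f a b ≠ 0 → 0 < t a b)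
    (hs : ∀ a, s a = ∑ b, f a b) (hF : F = ∑ a, s a) (hI : I = ∑ a, ∑ b, f a b * t a b)
    (he : 0 < e) (hp : ∀ a, 0 ≤ p a) (h1 : ∀ a b, 0 < t a b → t a b + e ≤ p a + p b)
    (h2 : ∀ a b, f a b ≠ 0 → p a + p b = t a b + e) :
    ∑ a, ∑ b, t a b * (s a * s b) ≤ F * I / 2 + F ^ 2 * e / 8 := by
  have key := part_B t ht ht0
    (fun a b c hab hbc hac => htf b a c (by rw [ht b a]; exact hab) hbc hac) f hf hf0 hft p e F I he
    (by rw [hF]; exact Finset.sum_congr rfl fun a _ => hs a) hI hp h1 h2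
  have : ∀ a b, t a b * (s a * s b) = t a b * ((∑ x, f a x) * ∑ y, f b y) := fun a b => by
    rw [hs a, hs b]
  rw [Finset.sum_congr rfl fun a _ => Finset.sum_congr rfl fun b _ => this a b]
  exact key

end Pool.Agent.H99.CP
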