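import Mathlib
import Pool.Agent.H99.CP.Defs

/-!
# Sampling inequalities for multiset kernels
-/

open Finset

namespace Pool.Agent.H99.CP

open Pool.Agent.H69.CPR

section bil

variable {ι : Type} [Fintype ι]

/-- the row of a vector -/
noncomputable def row (Y : ι → ι → ℝ) (v : ι → ℝ) (a : ι) : ℝ := ∑ b, Y a b * v b

theorem bf_eq_row (Y : ι → ι → ℝ) (u v : ι → ℝ) : bf Y u v = ∑ a, u a * row Y v a := by
  unfold bf row
  refine Finset.sum_congr rfl fun a _ => ?_
  rw [Finset.mul_sum]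
  exact Finset.sum_congr rfl fun b _ => by ring

theorem row_add (Y : ι → ι → ℝ) (u v : ι → ℝ) (a : ι) :
    row Y (fun x => u x + v x) a = row Y u a + row Y v a := by
  unfold row
  rw [← Finset.sum_add_distrib]
  exact Finset.sum_congr rfl fun b _ => by ring

theorem row_smul (Y : ι → ι → ℝ) (c : ℝ) (v : ι → ℝ) (a : ι) :
    row Y (fun x => c * v x) a = c * row Y v a := by
  unfold row
  rw [Finset.mul_sum]
  exact Finset.sum_congr rfl fun b _ => by ring

theorem row_single [DecidableEq ι] (Y : ι → ι → ℝ) (x a : ι) :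
    row Y (fun b => if b = x then 1 else 0) a = Y a x := by
  unfold row
  simp

theorem bf_add_left (Y : ι → ι → ℝ) (u v w : ι → ℝ) :
    bf Y (fun x => u x + v x) w = bf Y u w + bf Y v w := by
  rw [bf_eq_row, bf_eq_row, bf_eq_row, ← Finset.sum_add_distrib]
  exact Finset.sum_congr rfl fun b _ => by ring

theorem bf_add_right (Y : ι → ι → ℝ) (u v w : ι → ℝ) :
    bf Y w (fun x => u x + v x) = bf Y w u + bf Y w v := by
  rw [bf_eq_row, bf_eq_row, bf_eq_row, ← Finset.sum_add_distrib]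
  refine Finset.sum_congr rfl fun b _ => ?_
  rw [row_add]
  ring

theorem bf_smul_left (Y : ι → ι → ℝ) (c : ℝ) (u w : ι → ℝ) :
    bf Y (fun x => c * u x) w = c * bf Y u w := by
  rw [bf_eq_row, bf_eq_row, Finset.mul_sum]
  exact Finset.sum_congr rfl fun b _ => by ring

theorem bf_smul_right (Y : ι → ι → ℝ) (c : ℝ) (u w : ι → ℝ) :
    bf Y w (fun x => c * u x) = c * bf Y w u := by
  rw [bf_eq_row, bf_eq_row, Finset.mul_sum]
  refine Finset.sum_congr rfl fun b _ => ?_
  rw [row_smul]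
  ring

theorem bf_comm {Y : ι → ι → ℝ} (hY : ∀ a b, Y a b = Y b a) (u v : ι → ℝ) :
    bf Y u v = bf Y v u := by
  unfold bf
  rw [Finset.sum_comm]
  refine Finset.sum_congr rfl fun a _ => Finset.sum_congr rfl fun b _ => ?_
  rw [hY b a]
  ring

theorem qf_eq_bf (Y : ι → ι → ℝ) (u : ι → ℝ) : qf Y u = bf Y u u := rfl

/-- twice the pair sum of a vector of multiplicities -/
noncomputable def q2 (Y : ι → ι → ℝ) (v : ι → ℝ) : ℝ := bf Y v v - ∑ a, Y a a * v a

theorem q2_add [DecidableEq ι] {Y : ι → ι → ℝ} (hY : ∀ a b, Y a b = Y b a) (v : ι → ℝ) (x : ι) :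
    q2 Y (fun a => v a + (if a = x then 1 else 0)) = q2 Y v + 2 * row Y v x := by
  unfold q2
  rw [bf_add_left, bf_add_right, bf_add_right]
  have h1 : bf Y v (fun a => if a = x then 1 else 0) = row Y v x := by
    rw [bf_comm hY, bf_eq_row]
    simp
  have h2 : bf Y (fun a => if a = x then (1:ℝ) else 0) v = row Y v x := by
    rw [bf_eq_row]; simp
  have h3 : bf Y (fun a => if a = x then (1:ℝ) else 0) (fun a => if a = x then 1 else 0)
      = Y x x := by
    rw [bf_eq_row]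
    simp [row_single]
  have h4 : ∑ a, Y a a * (v a + (if a = x then 1 else 0)) = ∑ a, Y a a * v a + Y x x := by
    simp [mul_add, Finset.sum_add_distrib]
  rw [h1, h2, h3, h4]
  ring

/-- vectors of multiplicities -/
def NV (v : ι → ℝ) : Prop := ∃ n : ι → ℕ, v = fun a => (n a : ℝ)

theorem NV.zero : NV (fun _ : ι => (0 : ℝ)) := ⟨fun _ => 0, by simp⟩

theorem NV.add [DecidableEq ι] {v : ι → ℝ} (h : NV v) (x : ι) :
    NV (fun a => v a + (if a = x then 1 else 0)) := by
  obtain ⟨n, rfl⟩ := h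
  refine ⟨fun a => n a + (if a = x then 1 else 0), ?_⟩
  funext a
  by_cases hax : a = x <;> simp [hax]

/-- adding `n` random points of sub-probability law `ρ` -/
theorem samp [DecidableEq ι] {Y : ι → ι → ℝ} (hY : ∀ a b, Y a b = Y b a) (ρ φ : ι → ℝ)
    (hρ : ∀ a, 0 ≤ ρ a) (hρ1 : ∑ a, ρ a ≤ 1) (c : ℝ)
    (h0 : ∀ v, NV v → q2 Y v + 2 * bf Y v φ + c ≤ 2) (n : ℕ) :
    ∀ v, NV v → q2 Y v + 2 * n * bf Y v ρ + n * (n - 1) * bf Y ρ ρ + 2 * bf Y v φ
      + 2 * n * bf Y ρ φ + c ≤ 2 := by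
  induction n with
  | zero =>
    intro v hv
    have := h0 v hv
    simpa using this
  | succ n ih =>
    intro v hv
    have hx : ∀ x, ρ x * (q2 Y v + 2 * row Y v x + 2 * n * (bf Y v ρ + row Y ρ x)
        + n * (n - 1) * bf Y ρ ρ + 2 * (bf Y v φ + row Y φ x) + 2 * n * bf Y ρ φ + c)
        ≤ ρ x * 2 := by
      intro x
      refine mul_le_mul_of_nonneg_left ?_ (hρ x)
      have h := ih _ (hv.add x)
      rw [q2_add hY, bf_add_left, bf_add_left] at h
      have e1 : bf Y (fun a => if a = x then (1:ℝ) else 0) ρ = row Y ρ x := by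
        rw [bf_eq_row]; simp
      have e2 : bf Y (fun a => if a = x then (1:ℝ) else 0) φ = row Y φ x := by
        rw [bf_eq_row]; simp
      rw [e1, e2] at h
      exact h
    have h1 := Finset.sum_le_sum fun x (_ : x ∈ Finset.univ) => hx x
    have h2 : ∑ x, ρ x * (q2 Y v + 2 * row Y v x + 2 * n * (bf Y v ρ + row Y ρ x)
        + n * (n - 1) * bf Y ρ ρ + 2 * (bf Y v φ + row Y φ x) + 2 * n * bf Y ρ φ + c)
        = (∑ x, ρ x) * (q2 Y v + 2 * n * bf Y v ρ + n * (n - 1) * bf Y ρ ρ + 2 * bf Y v φ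
          + 2 * n * bf Y ρ φ + c)
          + 2 * bf Y ρ v + 2 * n * bf Y ρ ρ + 2 * bf Y ρ φ := by
      rw [bf_eq_row Y ρ v, bf_eq_row Y ρ ρ, bf_eq_row Y ρ φ]
      simp only [Finset.sum_mul, Finset.mul_sum, ← Finset.sum_add_distrib]
      refine Finset.sum_congr rfl fun x _ => ?_
      ring
    rw [h2, ← Finset.sum_mul] at h1
    have h3 := ih v hv
    have h4 : (1 - ∑ x, ρ x) * (q2 Y v + 2 * n * bf Y v ρ + n * (n - 1) * bf Y ρ ρ
        + 2 * bf Y v φ + 2 * n * bf Y ρ φ + c) ≤ (1 - ∑ x, ρ x) * 2 :=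
      mul_le_mul_of_nonneg_left h3 (by linarith)
    have h5 := bf_comm hY ρ v
    push_cast
    rw [h5] at h1
    nlinarith

end bil

end Pool.Agent.H99.CP
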