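import Mathlib
import Pool.Agent.H99.CP.Sample

/-!
# The random pattern inequality (Lemma C)
-/

open Finset

namespace Pool.Agent.H99.CP

open Pool.Agent.H69.CPR

section

variable {ι : Type} [Fintype ι] [DecidableEq ι] {Y : ι → ι → ℝ}

theorem MK.q2_le (hY : MK Y) {v : ι → ℝ} (hv : NV v) : q2 Y v ≤ 2 := by
  obtain ⟨n, rfl⟩ := hv
  exact hY.pat n

/-- the finite sampling inequality without Poisson part -/
theorem MK.samp0 (hY : MK Y) (ρ : ι → ℝ) (hρ : ∀ a, 0 ≤ ρ a) (hρ1 : ∑ a, ρ a ≤ 1) (n : ℕ)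
    {v : ι → ℝ} (hv : NV v) :
    q2 Y v + 2 * n * bf Y v ρ + n * (n - 1) * bf Y ρ ρ ≤ 2 := by
  have h := samp hY.sym ρ (fun _ => 0) hρ hρ1 0 (fun v hv => by
    have e : bf Y v (fun _ => (0:ℝ)) = 0 := by unfold bf; simp
    rw [e]
    have := hY.q2_le hv
    linarith) n v hv
  have e : bf Y v (fun _ => (0:ℝ)) = 0 := by unfold bf; simp
  have e' : bf Y ρ (fun _ => (0:ℝ)) = 0 := by unfold bf; simp
  rw [e, e'] at h
  linarith

/-- the Poisson inequality -/
theorem MK.pois (hY : MK Y) (φ : ι → ℝ) (hφ : ∀ a, 0 ≤ φ a) {v : ι → ℝ} (hv : NV v) :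
    q2 Y v + 2 * bf Y v φ + bf Y φ φ ≤ 2 := by
  refine le_of_forall_pos_le_add fun ε hε => ?_
  set B := bf Y φ φ with hB
  obtain ⟨N, hN⟩ := exists_nat_gt (max (max 1 (∑ a, φ a)) (|B| / ε))
  have hN1 : (1:ℝ) < N := lt_of_le_of_lt ((le_max_left _ _).trans (le_max_left _ _)) hN
  have hN2 : ∑ a, φ a < N := lt_of_le_of_lt ((le_max_right _ _).trans (le_max_left _ _)) hN
  have hN3 : |B| / ε < N := lt_of_le_of_lt (le_max_right _ _) hN
  have hN0 : (0:ℝ) < N := by linarith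
  have h := hY.samp0 (fun a => (1 / (N:ℝ)) * φ a) (fun a => mul_nonneg (by positivity) (hφ a)) (by
    rw [← Finset.mul_sum, one_div, inv_mul_le_iff₀ hN0]
    linarith) N hv
  rw [bf_smul_right, bf_smul_left, bf_smul_right, ← hB] at h
  have e1 : 2 * (N:ℝ) * (1 / N * bf Y v φ) = 2 * bf Y v φ := by
    field_simp
  have e2 : (N:ℝ) * (N - 1) * (1 / N * (1 / N * B)) = B - B / N := by
    field_simp
  rw [e1, e2] at h
  have h3 : B / N ≤ ε := by
    rw [div_le_iff₀ hN0]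
    rw [div_lt_iff₀ hε] at hN3
    have := le_abs_self B
    linarith
  linarith

/-- `Y` is nonpositive on nonnegative vectors -/
theorem MK.big (hY : MK Y) (φ : ι → ℝ) (hφ : ∀ a, 0 ≤ φ a) : bf Y φ φ ≤ 0 := by
  by_contra hcon
  push Not at hcon
  set B := bf Y φ φ with hB
  obtain ⟨N, hN⟩ := exists_nat_gt (max 1 (2 / B))
  have hN1 : (1:ℝ) < N := lt_of_le_of_lt (le_max_left _ _) hN
  have hN2 : 2 / B < N := lt_of_le_of_lt (le_max_right _ _) hN
  have h := hY.pois (fun a => (N:ℝ) * φ a) (fun a => mul_nonneg (by positivity) (hφ a))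
    (v := fun _ => 0) NV.zero
  rw [bf_smul_left, bf_smul_right, bf_smul_right, ← hB] at h
  have e0 : q2 Y (fun _ => (0:ℝ)) = 0 := by unfold q2 bf; simp
  have e1 : bf Y (fun _ => (0:ℝ)) φ = 0 := by unfold bf; simp
  rw [e0, e1] at h
  rw [div_lt_iff₀ hcon] at hN2
  nlinarith

/-- the general sampling inequality -/
theorem MK.samp1 (hY : MK Y) (ρ φ : ι → ℝ) (hρ : ∀ a, 0 ≤ ρ a) (hρ1 : ∑ a, ρ a ≤ 1)
    (hφ : ∀ a, 0 ≤ φ a) (n : ℕ) {v : ι → ℝ} (hv : NV v) :
    q2 Y v + 2 * n * bf Y v ρ + n * (n - 1) * bf Y ρ ρ + 2 * bf Y v φ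
      + 2 * n * bf Y ρ φ + bf Y φ φ ≤ 2 :=
  samp hY.sym ρ φ hρ hρ1 (bf Y φ φ) (fun _ hv => hY.pois φ hφ hv) n v hv

/-- indicator of a point -/
def dl (x : ι) : ι → ℝ := fun a => if a = x then 1 else 0

theorem bf_dl (Y : ι → ι → ℝ) (x : ι) (w : ι → ℝ) : bf Y (dl x) w = row Y w x := by
  rw [bf_eq_row]; simp [dl]

theorem dl_eq (x : ι) : dl x = fun a => (0:ℝ) + (if a = x then 1 else 0) := by
  funext a
  simp [dl]

theorem NV_dl (x : ι) : NV (dl x) := by
  rw [dl_eq]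
  exact (NV.zero (ι := ι)).add x

theorem q2_dl (hY : ∀ a b, Y a b = Y b a) (x : ι) : q2 Y (dl x) = 0 := by
  have := q2_add hY (fun _ => 0) x
  have e0 : q2 Y (fun _ => (0:ℝ)) = 0 := by unfold q2 bf; simp
  have e1 : row Y (fun _ => (0:ℝ)) x = 0 := by unfold row; simp
  rw [e0, e1] at this
  rw [dl_eq, this]
  ring

/-- one point and `n` random neighbours -/
theorem MK.star (hY : MK Y) (ρ : ι → ℝ) (hρ : ∀ a, 0 ≤ ρ a) (hρ1 : ∑ a, ρ a ≤ 1) (n : ℕ) (x : ι) :
    2 * n * row Y ρ x + n * (n - 1) * bf Y ρ ρ ≤ 2 := by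
  have h := hY.samp0 ρ hρ hρ1 n (NV_dl x)
  rw [q2_dl hY.sym, bf_dl] at h
  linarith

theorem four_pts (hY : ∀ a b, Y a b = Y b a) (a b c d : ι) :
    q2 Y (fun x => dl a x + dl b x + dl c x + dl d x)
      = 2 * (Y a b + Y c d + Y a c + Y a d + Y b c + Y b d) := by
  have h1 := q2_add hY (dl a) b
  have h2 := q2_add hY (fun x => dl a x + dl b x) c
  have h3 := q2_add hY (fun x => dl a x + dl b x + dl c x) d
  have r : ∀ x y, row Y (dl x) y = Y y x := fun x y => by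
    unfold dl; exact row_single Y x y
  have e2 : row Y (fun x => dl a x + dl b x) c = Y c a + Y c b := by
    rw [row_add, r, r]
  have e3 : row Y (fun x => dl a x + dl b x + dl c x) d = Y d a + Y d b + Y d c := by
    rw [row_add, row_add, r, r, r]
  rw [q2_dl hY, r] at h1
  rw [e2] at h2
  rw [e3] at h3
  have h1' : q2 Y (fun x => dl a x + dl b x) = 0 + 2 * Y b a := h1
  have h2' : q2 Y (fun x => dl a x + dl b x + dl c x)
      = q2 Y (fun x => dl a x + dl b x) + 2 * (Y c a + Y c b) := h2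
  have h3' : q2 Y (fun x => dl a x + dl b x + dl c x + dl d x)
      = q2 Y (fun x => dl a x + dl b x + dl c x) + 2 * (Y d a + Y d b + Y d c) := h3
  rw [h3', h2', h1', hY b a, hY c a, hY c b, hY d a, hY d b, hY d c]
  ring

theorem four_NV (a b c d : ι) : NV (fun x => dl a x + dl b x + dl c x + dl d x) := by
  have h1 := (NV_dl a).add b
  have h2 := h1.add c
  have h3 := h2.add d
  exact h3

/-- two random edges, `n` points of law `ρ` and a Poisson part `φ` -/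
theorem MK.edges (hY : MK Y) (f : ι → ι → ℝ) (hf : ∀ a b, f a b = f b a) (hf0 : ∀ a b, 0 ≤ f a b)
    (s : ι → ℝ) (hs : ∀ a, s a = ∑ b, f a b) (F E : ℝ) (hF : F = ∑ a, s a)
    (hE : E = ∑ a, ∑ b, f a b * Y a b)
    (ρ φ : ι → ℝ) (hρ : ∀ a, 0 ≤ ρ a) (hρ1 : ∑ a, ρ a ≤ 1) (hφ : ∀ a, 0 ≤ φ a) (n : ℕ) :
    4 * F * E + 8 * bf Y s s + 8 * n * F * bf Y s ρ + n * (n - 1) * F ^ 2 * bf Y ρ ρ
      + 8 * F * bf Y s φ + 2 * n * F ^ 2 * bf Y ρ φ + F ^ 2 * bf Y φ φ ≤ 2 * F ^ 2 := by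
  have key : ∀ a b c d, f a b * f c d * (2 * (Y a b + Y c d + Y a c + Y a d + Y b c + Y b d)
      + 2 * n * (row Y ρ a + row Y ρ b + row Y ρ c + row Y ρ d) + n * (n - 1) * bf Y ρ ρ
      + 2 * (row Y φ a + row Y φ b + row Y φ c + row Y φ d) + 2 * n * bf Y ρ φ + bf Y φ φ)
      ≤ f a b * f c d * 2 := by
    intro a b c d
    refine mul_le_mul_of_nonneg_left ?_ (mul_nonneg (hf0 a b) (hf0 c d))
    have h := hY.samp1 ρ φ hρ hρ1 hφ n (four_NV a b c d)
    rw [four_pts hY.sym] at h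
    have e : ∀ w : ι → ℝ, bf Y (fun x => dl a x + dl b x + dl c x + dl d x) w
        = row Y w a + row Y w b + row Y w c + row Y w d := by
      intro w
      rw [bf_add_left, bf_add_left, bf_add_left, bf_dl, bf_dl, bf_dl, bf_dl]
    rw [e, e] at h
    exact h
  have hsum := Finset.sum_le_sum fun a (_ : a ∈ univ) => Finset.sum_le_sum fun b (_ : b ∈ univ) =>
    Finset.sum_le_sum fun c (_ : c ∈ univ) => Finset.sum_le_sum fun d (_ : d ∈ univ) => key a b c d
  -- evaluation of the sums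
  have hff : ∑ a, ∑ b, f a b = F := by
    rw [hF]; exact Finset.sum_congr rfl fun a _ => (hs a).symm
  -- four basic sums
  have S0 : ∑ a, ∑ b, ∑ c, ∑ d, f a b * f c d = F * F := by
    rw [← hff, Finset.sum_mul]
    refine Finset.sum_congr rfl fun a _ => ?_
    rw [Finset.sum_mul]
    refine Finset.sum_congr rfl fun b _ => ?_
    rw [Finset.mul_sum]
    refine Finset.sum_congr rfl fun c _ => ?_
    rw [Finset.mul_sum]
  have S1 : ∑ a, ∑ b, ∑ c, ∑ d, f a b * f c d * Y a b = E * F := by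
    rw [hE, Finset.sum_mul]
    refine Finset.sum_congr rfl fun a _ => ?_
    rw [Finset.sum_mul]
    refine Finset.sum_congr rfl fun b _ => ?_
    rw [← hff, Finset.mul_sum]
    refine Finset.sum_congr rfl fun c _ => ?_
    rw [Finset.mul_sum]
    refine Finset.sum_congr rfl fun d _ => ?_
    ring
  have S1' : ∑ a, ∑ b, ∑ c, ∑ d, f a b * f c d * Y c d = F * E := by
    rw [← hff, Finset.sum_mul]
    refine Finset.sum_congr rfl fun a _ => ?_
    rw [Finset.sum_mul]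
    refine Finset.sum_congr rfl fun b _ => ?_
    rw [hE, Finset.mul_sum]
    refine Finset.sum_congr rfl fun c _ => ?_
    rw [Finset.mul_sum]
    refine Finset.sum_congr rfl fun d _ => ?_
    ring
  have S2 : ∀ g : ι → ι → ℝ, ∑ a, ∑ b, ∑ c, ∑ d, f a b * f c d * g a c
      = ∑ a, ∑ c, g a c * (s a * s c) := by
    intro g
    refine Finset.sum_congr rfl fun a _ => ?_
    rw [Finset.sum_comm]
    refine Finset.sum_congr rfl fun c _ => ?_
    have : ∑ b, ∑ d, f a b * f c d * g a c = (∑ b, f a b) * (∑ d, f c d) * g a c := by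
      rw [Finset.sum_mul, Finset.sum_mul]
      refine Finset.sum_congr rfl fun b _ => ?_
      rw [Finset.mul_sum, Finset.sum_mul]
    rw [this, ← hs, ← hs]
    ring
  -- symmetries: exchange a,b and c,d
  have swab : ∀ g : ι → ι → ι → ι → ℝ, ∑ a, ∑ b, ∑ c, ∑ d, f a b * f c d * g a b c d
      = ∑ a, ∑ b, ∑ c, ∑ d, f a b * f c d * g b a c d := by
    intro g
    rw [Finset.sum_comm]
    refine Finset.sum_congr rfl fun a _ => Finset.sum_congr rfl fun b _ =>
      Finset.sum_congr rfl fun c _ => Finset.sum_congr rfl fun d _ => ?_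
    rw [hf b a]
  have swcd : ∀ g : ι → ι → ι → ι → ℝ, ∑ a, ∑ b, ∑ c, ∑ d, f a b * f c d * g a b c d
      = ∑ a, ∑ b, ∑ c, ∑ d, f a b * f c d * g a b d c := by
    intro g
    refine Finset.sum_congr rfl fun a _ => Finset.sum_congr rfl fun b _ => ?_
    rw [Finset.sum_comm]
    refine Finset.sum_congr rfl fun c _ => Finset.sum_congr rfl fun d _ => ?_
    rw [hf d c]
  have T1 : ∑ a, ∑ b, ∑ c, ∑ d, f a b * f c d * Y a c = bf Y s s := S2 Y
  have T2 : ∑ a, ∑ b, ∑ c, ∑ d, f a b * f c d * Y a d = bf Y s s := by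
    rw [swcd fun a b c d => Y a d]; exact S2 Y
  have T3 : ∑ a, ∑ b, ∑ c, ∑ d, f a b * f c d * Y b c = bf Y s s := by
    rw [swab fun a b c d => Y b c]; exact S2 Y
  have T4 : ∑ a, ∑ b, ∑ c, ∑ d, f a b * f c d * Y b d = bf Y s s := by
    rw [swab fun a b c d => Y b d, swcd fun a b c d => Y a d]; exact S2 Y
  have R1 : ∀ w : ι → ℝ, ∑ a, ∑ b, ∑ c, ∑ d, f a b * f c d * row Y w a = F * bf Y s w := by
    intro w
    rw [S2 fun a _ => row Y w a, bf_eq_row, hF, Finset.sum_mul_sum, Finset.sum_comm]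
    refine Finset.sum_congr rfl fun a _ => Finset.sum_congr rfl fun c _ => ?_
    ring
  have R2 : ∀ w : ι → ℝ, ∑ a, ∑ b, ∑ c, ∑ d, f a b * f c d * row Y w b = F * bf Y s w := by
    intro w
    rw [swab fun a b c d => row Y w b]; exact R1 w
  have R3 : ∀ w : ι → ℝ, ∑ a, ∑ b, ∑ c, ∑ d, f a b * f c d * row Y w c = F * bf Y s w := by
    intro w
    rw [S2 fun _ c => row Y w c, bf_eq_row, hF, Finset.sum_mul_sum]
    refine Finset.sum_congr rfl fun a _ => Finset.sum_congr rfl fun c _ => ?_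
    ring
  have R4 : ∀ w : ι → ℝ, ∑ a, ∑ b, ∑ c, ∑ d, f a b * f c d * row Y w d = F * bf Y s w := by
    intro w
    rw [swcd fun a b c d => row Y w d]; exact R3 w
  have hL : ∑ a, ∑ b, ∑ c, ∑ d, f a b * f c d
      * (2 * (Y a b + Y c d + Y a c + Y a d + Y b c + Y b d)
      + 2 * n * (row Y ρ a + row Y ρ b + row Y ρ c + row Y ρ d) + n * (n - 1) * bf Y ρ ρ
      + 2 * (row Y φ a + row Y φ b + row Y φ c + row Y φ d) + 2 * n * bf Y ρ φ + bf Y φ φ)
      = 2 * (E * F + F * E + bf Y s s + bf Y s s + bf Y s s + bf Y s s)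
        + 2 * n * (F * bf Y s ρ + F * bf Y s ρ + F * bf Y s ρ + F * bf Y s ρ)
        + (n * (n - 1) * bf Y ρ ρ + 2 * n * bf Y ρ φ + bf Y φ φ) * (F * F)
        + 2 * (F * bf Y s φ + F * bf Y s φ + F * bf Y s φ + F * bf Y s φ) := by
    rw [← S1, ← S1', ← S0]
    nth_rewrite 1 [← T1]
    nth_rewrite 1 [← T2]
    nth_rewrite 1 [← T3]
    nth_rewrite 1 [← T4]
    nth_rewrite 1 [← R1 ρ]
    nth_rewrite 1 [← R2 ρ]
    nth_rewrite 1 [← R3 ρ]
    nth_rewrite 1 [← R4 ρ]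
    nth_rewrite 1 [← R1 φ]
    nth_rewrite 1 [← R2 φ]
    nth_rewrite 1 [← R3 φ]
    nth_rewrite 1 [← R4 φ]
    simp only [Finset.mul_sum, ← Finset.sum_add_distrib]
    refine Finset.sum_congr rfl fun a _ => Finset.sum_congr rfl fun b _ =>
      Finset.sum_congr rfl fun c _ => Finset.sum_congr rfl fun d _ => ?_
    ring
  have hR : ∑ a, ∑ b, ∑ c, ∑ d, f a b * f c d * 2 = (F * F) * 2 := by
    rw [← S0]
    simp only [Finset.sum_mul]
  rw [hL, hR] at hsum
  nlinarith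

end

end Pool.Agent.H99.CP
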