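import Mathlib
import Pool.Agent.H99.CP.LemC

/-!
# Lemma C: lower bound for `-Y(m,m)` from a fractional matching and a part of the excess
-/

open Finset

namespace Pool.Agent.H99.CP

open Pool.Agent.H69.CPR

section

variable {ι : Type} [Fintype ι] [DecidableEq ι] {Y : ι → ι → ℝ}

/-- small excess part -/
theorem MK.lemC1 (hY : MK Y) (f : ι → ι → ℝ) (hf : ∀ a b, f a b = f b a) (hf0 : ∀ a b, 0 ≤ f a b)
    (s : ι → ℝ) (hs : ∀ a, s a = ∑ b, f a b) (F E : ℝ) (hF : F = ∑ a, s a) (hF0 : 0 < F)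
    (hE : E = ∑ a, ∑ b, f a b * Y a b) (q r : ι → ℝ) (hq : ∀ a, 0 ≤ q a) (hr : ∀ a, 0 ≤ r a)
    (P : ℝ) (hP : P = ∑ a, q a) (hP0 : 0 < P) (hPF : 4 * P ≤ F) :
    (4 * F * E - 2 * F ^ 2) / 8 + bf Y (fun a => s a + (q a + r a)) (fun a => s a + (q a + r a))
      ≤ bf Y q q := by
  have hP1 : ∑ a, (1 / P) * q a ≤ 1 := by
    rw [← Finset.mul_sum, ← hP, one_div, inv_mul_cancel₀ hP0.ne']
  have h1 := hY.edges f hf hf0 s hs F E hF hE (fun a => (1 / P) * q a) (fun a => (4 / F) * r a)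
    (fun a => mul_nonneg (by positivity) (hq a)) hP1
    (fun a => mul_nonneg (by positivity) (hr a)) 1
  have h0 := hY.edges f hf hf0 s hs F E hF hE (fun a => (1 / P) * q a) (fun a => (4 / F) * r a)
    (fun a => mul_nonneg (by positivity) (hq a)) hP1
    (fun a => mul_nonneg (by positivity) (hr a)) 0
  have h2 := hY.edges f hf hf0 s hs F E hF hE (fun a => (1 / P) * q a) (fun _ => 0)
    (fun a => mul_nonneg (by positivity) (hq a)) hP1 (fun _ => le_rfl) 0
  have z1 : bf Y s (fun _ => (0:ℝ)) = 0 := by unfold bf; simp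
  have z2 : bf Y (fun a => 1 / P * q a) (fun _ => (0:ℝ)) = 0 := by unfold bf; simp
  have z3 : bf Y (fun _ => (0:ℝ)) (fun _ => (0:ℝ)) = 0 := by unfold bf; simp
  rw [z1, z2, z3] at h2
  simp only [bf_smul_left, bf_smul_right] at h1 h0 h2
  have hexp : bf Y (fun a => s a + (q a + r a)) (fun a => s a + (q a + r a))
      = bf Y s s + 2 * bf Y s q + 2 * bf Y s r + bf Y q q + 2 * bf Y q r + bf Y r r := by
    rw [bf_add_left, bf_add_right, bf_add_right, bf_add_left Y q r, bf_add_right, bf_add_right,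
      bf_add_right, bf_add_right, bf_comm hY.sym q s, bf_comm hY.sym r s, bf_comm hY.sym r q]
    ring
  rw [hexp]
  push_cast at h1 h0 h2
  set A := bf Y s s
  set B := bf Y s q
  set C := bf Y s r
  set D := bf Y q q
  set G := bf Y q r
  set H := bf Y r r
  -- weights 2P/F, 1/2-2P/F, 1/2
  have w1 : 0 ≤ 2 * P / F := by positivity
  have w2 : 0 ≤ 1 / 2 - 2 * P / F := by
    have : 2 * P / F ≤ 1 / 2 := by
      rw [div_le_iff₀ hF0]; linarith
    linarith
  have k1 := mul_le_mul_of_nonneg_left h1 w1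
  have k0 := mul_le_mul_of_nonneg_left h0 w2
  have k2 := mul_le_mul_of_nonneg_left h2 (by norm_num : (0:ℝ) ≤ 1 / 2)
  have e1 : 2 * P / F * (4 * F * E + 8 * A + 8 * 1 * F * (1 / P * B)
      + 1 * (1 - 1) * F ^ 2 * (1 / P * (1 / P * D)) + 8 * F * (4 / F * C)
      + 2 * 1 * F ^ 2 * (4 / F * (1 / P * G)) + F ^ 2 * (4 / F * (4 / F * H)))
      = 2 * P / F * (4 * F * E + 8 * A + 32 * C + 16 * H) + 16 * B + 16 * G := by
    field_simp
    ring
  have e0 : (1 / 2 - 2 * P / F) * (4 * F * E + 8 * A + 8 * 0 * F * (1 / P * B)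
      + 0 * (0 - 1) * F ^ 2 * (1 / P * (1 / P * D)) + 8 * F * (4 / F * C)
      + 2 * 0 * F ^ 2 * (4 / F * (1 / P * G)) + F ^ 2 * (4 / F * (4 / F * H)))
      = (1 / 2 - 2 * P / F) * (4 * F * E + 8 * A + 32 * C + 16 * H) := by
    have : 8 * F * (4 / F * C) + F ^ 2 * (4 / F * (4 / F * H)) = 32 * C + 16 * H := by
      field_simp
      ring
    have h' : 4 * F * E + 8 * A + 8 * 0 * F * (1 / P * B)
      + 0 * (0 - 1) * F ^ 2 * (1 / P * (1 / P * D)) + 8 * F * (4 / F * C)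
      + 2 * 0 * F ^ 2 * (4 / F * (1 / P * G)) + F ^ 2 * (4 / F * (4 / F * H))
      = 4 * F * E + 8 * A + 32 * C + 16 * H := by linarith
    rw [h']
  rw [e1] at k1
  rw [e0] at k0
  have e3 : 2 * P / F * (4 * F * E + 8 * A + 32 * C + 16 * H)
      + (1 / 2 - 2 * P / F) * (4 * F * E + 8 * A + 32 * C + 16 * H)
      = 1 / 2 * (4 * F * E + 8 * A + 32 * C + 16 * H) := by ring
  have e4 : 2 * P / F * (2 * F ^ 2) + (1 / 2 - 2 * P / F) * (2 * F ^ 2) = F ^ 2 := by ring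
  nlinarith

/-- large excess part -/
theorem MK.lemC2 (hY : MK Y) (f : ι → ι → ℝ) (hf : ∀ a b, f a b = f b a) (hf0 : ∀ a b, 0 ≤ f a b)
    (s : ι → ℝ) (hs : ∀ a, s a = ∑ b, f a b) (hs0 : ∀ a, 0 ≤ s a) (F E : ℝ) (hF : F = ∑ a, s a)
    (hF0 : 0 < F) (hE : E = ∑ a, ∑ b, f a b * Y a b) (q r : ι → ℝ) (hq : ∀ a, 0 ≤ q a)
    (hr : ∀ a, 0 ≤ r a) (P : ℝ) (hP : P = ∑ a, q a) (hPF : F ≤ 4 * P) :
    (4 * F * E - 2 * F ^ 2) / 8 + bf Y (fun a => s a + (q a + r a)) (fun a => s a + (q a + r a))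
      ≤ F / (4 * P) * bf Y q q := by
  have hP0 : 0 < P := by linarith
  -- the number of points
  set n : ℕ := ⌊4 * P / F⌋₊ with hn
  have hx1 : 1 ≤ 4 * P / F := by rw [le_div_iff₀ hF0]; linarith
  have hn1 : (1:ℝ) ≤ n := by
    have : 1 ≤ n := by
      rw [hn]
      exact Nat.le_floor (by exact_mod_cast hx1)
    exact_mod_cast this
  have hnle : (n:ℝ) ≤ 4 * P / F := Nat.floor_le (by linarith)
  have hnlt : 4 * P / F < n + 1 := Nat.lt_floor_add_one _
  have hnF : (n:ℝ) * F ≤ 4 * P := by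
    rw [le_div_iff₀ hF0] at hnle; exact hnle
  have h2P : 2 * P ≤ n * F := by
    rw [div_lt_iff₀ hF0] at hnlt
    nlinarith
  have hn0 : (0:ℝ) < n := by linarith
  have hP1 : ∑ a, (1 / P) * q a ≤ 1 := by
    rw [← Finset.mul_sum, ← hP, one_div, inv_mul_cancel₀ hP0.ne']
  have h1 := hY.edges f hf hf0 s hs F E hF hE (fun a => (1 / P) * q a) (fun a => (n / P) * r a)
    (fun a => mul_nonneg (by positivity) (hq a)) hP1
    (fun a => mul_nonneg (by positivity) (hr a)) n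
  have h2 := hY.edges f hf hf0 s hs F E hF hE (fun a => (1 / P) * q a) (fun _ => 0)
    (fun a => mul_nonneg (by positivity) (hq a)) hP1 (fun _ => le_rfl) 0
  have z1 : bf Y s (fun _ => (0:ℝ)) = 0 := by unfold bf; simp
  have z2 : bf Y (fun a => 1 / P * q a) (fun _ => (0:ℝ)) = 0 := by unfold bf; simp
  have z3 : bf Y (fun _ => (0:ℝ)) (fun _ => (0:ℝ)) = 0 := by unfold bf; simp
  rw [z1, z2, z3] at h2
  simp only [bf_smul_left, bf_smul_right] at h1 h2
  have hexp : bf Y (fun a => s a + (q a + r a)) (fun a => s a + (q a + r a))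
      = bf Y s s + 2 * bf Y s q + 2 * bf Y s r + (bf Y q q + 2 * bf Y q r + bf Y r r) := by
    rw [bf_add_left, bf_add_right, bf_add_right, bf_add_left Y q r, bf_add_right, bf_add_right,
      bf_add_right, bf_add_right, bf_comm hY.sym q s, bf_comm hY.sym r s, bf_comm hY.sym r q]
    ring
  have hoo : bf Y q q + 2 * bf Y q r + bf Y r r ≤ 0 := by
    have := hY.big (fun a => q a + r a) (fun a => add_nonneg (hq a) (hr a))
    rw [bf_add_left, bf_add_right, bf_add_right, bf_comm hY.sym r q] at this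
    linarith
  rw [hexp]
  push_cast at h2
  set A := bf Y s s
  set B := bf Y s q
  set C := bf Y s r
  set D := bf Y q q
  set G := bf Y q r
  set H := bf Y r r
  have w1 : 0 ≤ 2 * P / (n * F) := by positivity
  have w2 : 0 ≤ 1 - 2 * P / (n * F) := by
    have : 2 * P / (n * F) ≤ 1 := by
      rw [div_le_one (by positivity)]; exact h2P
    linarith
  have k1 := mul_le_mul_of_nonneg_left h1 w1
  have k2 := mul_le_mul_of_nonneg_left h2 w2
  have e1 : 2 * P / (n * F) * (4 * F * E + 8 * A + 8 * n * F * (1 / P * B)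
      + n * (n - 1) * F ^ 2 * (1 / P * (1 / P * D)) + 8 * F * (n / P * C)
      + 2 * n * F ^ 2 * (n / P * (1 / P * G)) + F ^ 2 * (n / P * (n / P * H)))
      = 2 * P / (n * F) * (4 * F * E + 8 * A) + 16 * B + 16 * C
        + 2 * F / P * ((n - 1) * D + 2 * n * G + n * H) := by
    field_simp
    ring
  rw [e1] at k1
  have e2 : (1 - 2 * P / (n * F)) * (4 * F * E + 8 * A + 8 * 0 * F * (1 / P * B)
      + 0 * (0 - 1) * F ^ 2 * (1 / P * (1 / P * D)) + 8 * F * 0
      + 2 * 0 * F ^ 2 * 0 + F ^ 2 * 0) = (1 - 2 * P / (n * F)) * (4 * F * E + 8 * A) := by ring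
  rw [e2] at k2
  have k3 : 4 * F * E + 8 * A + 16 * B + 16 * C
        + 2 * F / P * ((n - 1) * D + 2 * n * G + n * H) ≤ 2 * F ^ 2 := by
    nlinarith
  -- compare
  have e4 : 2 * F / P * ((n - 1) * D + 2 * n * G + n * H)
      = 2 * F * n / P * (D + 2 * G + H) - 8 * (F / (4 * P) * D) := by
    field_simp
    ring
  have k5 : 8 * (D + 2 * G + H) ≤ 2 * F * n / P * (D + 2 * G + H) := by
    have h8 : 2 * F * n / P ≤ 8 := by
      rw [div_le_iff₀ hP0]; linarith
    nlinarith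
  rw [e4] at k3
  linarith

/-- no distinguished excess part -/
theorem MK.lemC0 (hY : MK Y) (f : ι → ι → ℝ) (hf : ∀ a b, f a b = f b a) (hf0 : ∀ a b, 0 ≤ f a b)
    (s : ι → ℝ) (hs : ∀ a, s a = ∑ b, f a b) (F E : ℝ) (hF : F = ∑ a, s a) (hF0 : 0 < F)
    (hE : E = ∑ a, ∑ b, f a b * Y a b) (r : ι → ℝ) (hr : ∀ a, 0 ≤ r a) :
    (4 * F * E - 2 * F ^ 2) / 8 + bf Y (fun a => s a + r a) (fun a => s a + r a) ≤ 0 := by
  have hz : ∑ a : ι, (fun _ => (0:ℝ)) a ≤ 1 := by simp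
  have h0 := hY.edges f hf hf0 s hs F E hF hE (fun _ => 0) (fun a => (4 / F) * r a)
    (fun _ => le_rfl) hz (fun a => mul_nonneg (by positivity) (hr a)) 0
  have h2 := hY.edges f hf hf0 s hs F E hF hE (fun _ => 0) (fun _ => 0)
    (fun _ => le_rfl) hz (fun _ => le_rfl) 0
  have z1 : ∀ w, bf Y w (fun _ => (0:ℝ)) = 0 := fun w => by unfold bf; simp
  have z2 : ∀ w, bf Y (fun _ => (0:ℝ)) w = 0 := fun w => by unfold bf; simp
  simp only [bf_smul_left, bf_smul_right, z1, z2] at h0 h2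
  have hexp : bf Y (fun a => s a + r a) (fun a => s a + r a)
      = bf Y s s + 2 * bf Y s r + bf Y r r := by
    rw [bf_add_left, bf_add_right, bf_add_right, bf_comm hY.sym r s]
    ring
  rw [hexp]
  push_cast at h0 h2
  set A := bf Y s s
  set C := bf Y s r
  set H := bf Y r r
  have this : 8 * F * (4 / F * C) + F ^ 2 * (4 / F * (4 / F * H)) = 32 * C + 16 * H := by
    field_simp
    ring
  nlinarith

end

end Pool.Agent.H99.CP
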