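import Mathlib
import Pool.Agent.H99.CP.LemC2

/-!
# Lemma C3: patterns with one and two edges
-/

open Finset

namespace Pool.Agent.H99.CP

open Pool.Agent.H69.CPR

section

variable {ι : Type} [Fintype ι] [DecidableEq ι] {Y : ι → ι → ℝ}

/-- one random edge, `n` points of law `ρ` and a Poisson part `φ` -/
theorem MK.edge1 (hY : MK Y) (f : ι → ι → ℝ) (hf : ∀ a b, f a b = f b a) (hf0 : ∀ a b, 0 ≤ f a b)
    (s : ι → ℝ) (hs : ∀ a, s a = ∑ b, f a b) (F E : ℝ) (hF : F = ∑ a, s a)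
    (hE : E = ∑ a, ∑ b, f a b * Y a b)
    (ρ φ : ι → ℝ) (hρ : ∀ a, 0 ≤ ρ a) (hρ1 : ∑ a, ρ a ≤ 1) (hφ : ∀ a, 0 ≤ φ a) (n : ℕ) :
    2 * E + 4 * n * bf Y s ρ + n * (n - 1) * F * bf Y ρ ρ + 4 * bf Y s φ
      + 2 * n * F * bf Y ρ φ + F * bf Y φ φ ≤ 2 * F := by
  have key : ∀ a b, f a b * (2 * Y a b
      + 2 * n * (row Y ρ a + row Y ρ b) + n * (n - 1) * bf Y ρ ρ
      + 2 * (row Y φ a + row Y φ b) + 2 * n * bf Y ρ φ + bf Y φ φ)
      ≤ f a b * 2 := by
    intro a b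
    refine mul_le_mul_of_nonneg_left ?_ (hf0 a b)
    have hv : NV (fun x => dl a x + dl b x) := (NV_dl a).add b
    have h := hY.samp1 ρ φ hρ hρ1 hφ n hv
    have h1 := q2_add hY.sym (dl a) b
    have r : row Y (dl a) b = Y b a := by unfold dl; exact row_single Y a b
    rw [q2_dl hY.sym, r] at h1
    have h1' : q2 Y (fun x => dl a x + dl b x) = 0 + 2 * Y b a := h1
    rw [h1', hY.sym b a] at h
    have e : ∀ w : ι → ℝ, bf Y (fun x => dl a x + dl b x) w = row Y w a + row Y w b := by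
      intro w
      rw [bf_add_left, bf_dl, bf_dl]
    rw [e, e] at h
    linarith
  have hsum := Finset.sum_le_sum fun a (_ : a ∈ univ) => Finset.sum_le_sum fun b (_ : b ∈ univ) =>
    key a b
  have hff : ∑ a, ∑ b, f a b = F := by
    rw [hF]; exact Finset.sum_congr rfl fun a _ => (hs a).symm
  have R1 : ∀ w : ι → ℝ, ∑ a, ∑ b, f a b * row Y w a = bf Y s w := by
    intro w
    rw [bf_eq_row]
    refine Finset.sum_congr rfl fun a _ => ?_
    rw [← Finset.sum_mul, ← hs]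
  have R2 : ∀ w : ι → ℝ, ∑ a, ∑ b, f a b * row Y w b = bf Y s w := by
    intro w
    rw [Finset.sum_comm, bf_eq_row]
    refine Finset.sum_congr rfl fun a _ => ?_
    rw [← Finset.sum_mul, hs]
    congr 1
    exact Finset.sum_congr rfl fun b _ => hf b a
  have hL : ∑ a, ∑ b, f a b * (2 * Y a b
      + 2 * n * (row Y ρ a + row Y ρ b) + n * (n - 1) * bf Y ρ ρ
      + 2 * (row Y φ a + row Y φ b) + 2 * n * bf Y ρ φ + bf Y φ φ)
      = 2 * E + 2 * n * (bf Y s ρ + bf Y s ρ) + 2 * (bf Y s φ + bf Y s φ)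
        + (n * (n - 1) * bf Y ρ ρ + 2 * n * bf Y ρ φ + bf Y φ φ) * F := by
    rw [← hff, hE]
    nth_rewrite 1 [← R1 ρ]
    nth_rewrite 1 [← R2 ρ]
    nth_rewrite 1 [← R1 φ]
    nth_rewrite 1 [← R2 φ]
    simp only [Finset.mul_sum, ← Finset.sum_add_distrib]
    refine Finset.sum_congr rfl fun a _ => Finset.sum_congr rfl fun b _ => ?_
    ring
  have hR : ∑ a, ∑ b, f a b * 2 = F * 2 := by
    rw [← hff]
    simp only [Finset.sum_mul]
  rw [hL, hR] at hsum
  nlinarith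

/-- the inequality (C3): `|q| ≥ F/2` -/
theorem MK.lemC3 (hY : MK Y) (f : ι → ι → ℝ) (hf : ∀ a b, f a b = f b a) (hf0 : ∀ a b, 0 ≤ f a b)
    (s : ι → ℝ) (hs : ∀ a, s a = ∑ b, f a b) (F E : ℝ) (hF : F = ∑ a, s a)
    (hF0 : 0 < F) (hE : E = ∑ a, ∑ b, f a b * Y a b) (q r : ι → ℝ) (hq : ∀ a, 0 ≤ q a)
    (hr : ∀ a, 0 ≤ r a) (P : ℝ) (hP : P = ∑ a, q a) (hPF : F ≤ 2 * P) :
    (4 * F * E - 2 * F ^ 2) / 8 - (2 * P - F) / 6 * (F - E)
      + bf Y (fun a => s a + (q a + r a)) (fun a => s a + (q a + r a))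
      ≤ (4 * F * P - F ^ 2) / (8 * P ^ 2) * bf Y q q := by
  have hP0 : 0 < P := by linarith
  have hP1 : ∑ a, (1 / P) * q a ≤ 1 := by
    rw [← Finset.mul_sum, ← hP, one_div, inv_mul_cancel₀ hP0.ne']
  have h1 := hY.edges f hf hf0 s hs F E hF hE (fun a => (1 / P) * q a) (fun a => (1 / P) * r a)
    (fun a => mul_nonneg (by positivity) (hq a)) hP1
    (fun a => mul_nonneg (by positivity) (hr a)) 1
  have h3 := hY.edge1 f hf hf0 s hs F E hF hE (fun a => (1 / P) * q a) (fun a => (3 / P) * r a)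
    (fun a => mul_nonneg (by positivity) (hq a)) hP1
    (fun a => mul_nonneg (by positivity) (hr a)) 3
  simp only [bf_smul_left, bf_smul_right] at h1 h3
  have hexp : bf Y (fun a => s a + (q a + r a)) (fun a => s a + (q a + r a))
      = bf Y s s + 2 * bf Y s q + 2 * bf Y s r + (bf Y q q + 2 * bf Y q r + bf Y r r) := by
    rw [bf_add_left, bf_add_right, bf_add_right, bf_add_left Y q r, bf_add_right, bf_add_right,
      bf_add_right, bf_add_right, bf_comm hY.sym q s, bf_comm hY.sym r s, bf_comm hY.sym r q]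
    ring
  have hoo : bf Y q q + 2 * bf Y q r + bf Y r r ≤ 0 := by
    have := hY.big (fun a => q a + r a) (fun a => add_nonneg (hq a) (hr a))
    rw [bf_add_left, bf_add_right, bf_add_right, bf_comm hY.sym r q] at this
    linarith
  rw [hexp]
  push_cast at h1 h3
  set A := bf Y s s
  set B := bf Y s q
  set C := bf Y s r
  set D := bf Y q q
  set G := bf Y q r
  set H := bf Y r r
  set w : ℝ := (4 * P - 2 * F) / 3 with hw
  have hw0 : 0 ≤ w := by rw [hw]; linarith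
  have k3 := mul_le_mul_of_nonneg_left h3 hw0
  have hPne : P ≠ 0 := hP0.ne'
  have e1 : 4 * F * E + 8 * A + 8 * 1 * F * (1 / P * B) + 1 * (1 - 1) * F ^ 2 * (1 / P * (1 / P * D))
      + 8 * F * (1 / P * C) + 2 * 1 * F ^ 2 * (1 / P * (1 / P * G)) + F ^ 2 * (1 / P * (1 / P * H))
      + w * (2 * E + 4 * 3 * (1 / P * B) + 3 * (3 - 1) * F * (1 / P * (1 / P * D))
        + 4 * (3 / P * C) + 2 * 3 * F * (3 / P * (1 / P * G)) + F * (3 / P * (3 / P * H)))
      = 4 * F * E + 2 * w * E + 8 * A + 16 * B + 16 * C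
        + (12 * F * P - 5 * F ^ 2) / P ^ 2 * (D + 2 * G + H)
        - 8 * ((4 * F * P - F ^ 2) / (8 * P ^ 2) * D) := by
    rw [hw]
    field_simp
    ring
  have e2 : (12 * F * P - 5 * F ^ 2) / P ^ 2 ≤ 8 := by
    rw [div_le_iff₀ (by positivity)]
    nlinarith [sq_nonneg (4 * P - 3 * F), sq_nonneg F]
  have e3 : 8 * (D + 2 * G + H) ≤ (12 * F * P - 5 * F ^ 2) / P ^ 2 * (D + 2 * G + H) := by
    nlinarith
  have e4 : 2 * F ^ 2 + w * (2 * F) - 4 * F * E - 2 * w * E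
      = -(8 * ((4 * F * E - 2 * F ^ 2) / 8 - (2 * P - F) / 6 * (F - E))) := by
    rw [hw]; ring
  linarith

end

end Pool.Agent.H99.CP
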