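import Mathlib
import Pool.Agent.H99.CP.Defs
import Pool.Agent.H69.CPR.Comb

/-!
# From multiset kernels to the dual bound (compactness)

If every multiset kernel `Y` satisfies `Y(m,m) ≤ 2 V |m|²` then `DualBound k (V + ε) C` holds for
some `C`.  Proof by an ultrafilter limit of counterexamples.
-/

open Finset Filter Topology

namespace Pool.Agent.H99.CP

open Pool.Agent.H69.CPR Pool.Agent.H29.CPR

private theorem lim1 (U : Ultrafilter ℕ) (f : ℕ → ℝ) (a b : ℝ)
    (h : ∀ᶠ n in (U : Filter ℕ), f n ∈ Set.Icc a b) :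
    ∃ x ∈ Set.Icc a b, Tendsto f (U : Filter ℕ) (𝓝 x) := by
  have h1 : ((U.map f : Ultrafilter ℝ) : Filter ℝ) ≤ 𝓟 (Set.Icc a b) := by
    rw [Ultrafilter.coe_map, Filter.le_principal_iff, Filter.mem_map]
    exact h
  obtain ⟨x, hx, hle⟩ := isCompact_Icc.ultrafilter_le_nhds _ h1
  exact ⟨x, hx, hle⟩

/-- the pattern inequality of a `TK` for multisets which fit into the vertex set -/
private theorem tk_pat {D k : ℕ} {T : Fin D → Finset (Fin k)}
    {Y : Finset (Fin k) → Finset (Fin k) → ℝ} (hY : TK T Y) (n : Finset (Fin k) → ℕ)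
    (hn : ∀ A B, n A ≠ 0 → n B ≠ 0 → (A ∩ B).Nonempty) (hcnt : ∀ A, n A ≤ cnt T A) :
    ∑ A, ∑ B, Y A B * ((n A : ℝ) * (n B : ℝ)) - ∑ A, Y A A * (n A : ℝ) ≤ 2 := by
  classical
  have hch : ∀ A, ∃ K : Finset (Fin D), K ⊆ univ.filter (fun u => T u = A) ∧ K.card = n A :=
    fun A => Finset.exists_subset_card_eq (hcnt A)
  choose K hKs hKc using hch
  have hKT : ∀ A, ∀ u ∈ K A, T u = A := fun A u hu => (Finset.mem_filter.1 (hKs A hu)).2
  set L : Finset (Fin D) := (univ : Finset (Finset (Fin k))).biUnion K with hL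
  have hdisj : ((univ : Finset (Finset (Fin k))) : Set (Finset (Fin k))).PairwiseDisjoint K := by
    intro A _ B _ hAB
    rw [Function.onFun, Finset.disjoint_left]
    intro u hu hu'
    exact hAB ((hKT A u hu).symm.trans (hKT B u hu'))
  have hsum : ∀ f : Finset (Fin k) → ℝ, ∑ u ∈ L, f (T u) = ∑ A, (n A : ℝ) * f A := by
    intro f
    rw [hL, Finset.sum_biUnion hdisj]
    refine Finset.sum_congr rfl fun A _ => ?_
    rw [Finset.sum_congr rfl (fun u hu => by rw [hKT A u hu])]
    rw [Finset.sum_const, hKc, nsmul_eq_mul]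
  have hcl : IsCl (tg T) L := by
    intro u hu v hv huv
    rw [hL, Finset.mem_biUnion] at hu hv
    obtain ⟨A, _, hu⟩ := hu
    obtain ⟨B, _, hv⟩ := hv
    refine ⟨huv, ?_⟩
    rw [hKT A u hu, hKT B v hv]
    apply hn
    · rw [← hKc A]; exact (Finset.card_pos.2 ⟨u, hu⟩).ne'
    · rw [← hKc B]; exact (Finset.card_pos.2 ⟨v, hv⟩).ne'
  have h1 := hY.cl L hcl
  have h2 : pw (fun u v => Y (T u) (T v)) L =
      ∑ u ∈ L, ∑ v ∈ L, Y (T u) (T v) - ∑ u ∈ L, Y (T u) (T u) := by
    unfold pw
    rw [← Finset.sum_sub_distrib]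
    refine Finset.sum_congr rfl fun u hu => ?_
    have h3 : ∀ v ∈ L, (if u = v then 0 else Y (T u) (T v)) =
        Y (T u) (T v) - (if u = v then Y (T u) (T v) else 0) := by
      intro v _
      split_ifs <;> simp
    rw [Finset.sum_congr rfl h3, Finset.sum_sub_distrib, Finset.sum_ite_eq, if_pos hu]
  rw [h2] at h1
  have h3 : ∑ u ∈ L, ∑ v ∈ L, Y (T u) (T v) = ∑ A, ∑ B, Y A B * ((n A : ℝ) * (n B : ℝ)) := by
    have h4 : ∀ u ∈ L, ∑ v ∈ L, Y (T u) (T v) = ∑ B, (n B : ℝ) * Y (T u) B :=
      fun u _ => hsum (fun B => Y (T u) B)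
    rw [Finset.sum_congr rfl h4, hsum (fun A => ∑ B, (n B : ℝ) * Y A B)]
    refine Finset.sum_congr rfl fun A _ => ?_
    rw [Finset.mul_sum]
    exact Finset.sum_congr rfl fun B _ => by ring
  have h4 : ∑ u ∈ L, Y (T u) (T u) = ∑ A, Y A A * (n A : ℝ) := by
    rw [hsum (fun A => Y A A)]
    exact Finset.sum_congr rfl fun A _ => by ring
  rw [h3, h4] at h1
  exact h1

private theorem sum_mass_le {D k : ℕ} (T : Fin D → Finset (Fin k)) : ∑ A, mass T A ≤ D := by
  rw [← sum_cnt T]
  refine Finset.sum_le_sum fun A _ => ?_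
  unfold mass
  exact_mod_cast Nat.sub_le _ _

private theorem mass_term {D k : ℕ} {T : Fin D → Finset (Fin k)}
    {Y : Finset (Fin k) → Finset (Fin k) → ℝ} (hY : TK T Y) (A B : Finset (Fin k)) :
    Y A B * (mass T A * mass T B) ≤ mass T A * mass T B := by
  by_cases hA : mass T A = 0
  · rw [hA]; simp
  by_cases hB : mass T B = 0
  · rw [hB]; simp
  have h1 := Scheme.Y_le_one hY hA hB
  have h2 : 0 ≤ mass T A * mass T B := mul_nonneg (mass_nonneg T A) (mass_nonneg T B)
  nlinarith

theorem dualBound_of_kernel {k : ℕ} (V : ℝ)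
    (h : ∀ Y : Finset (Fin k) → Finset (Fin k) → ℝ, TMK Y → ∀ m : Finset (Fin k) → ℝ,
      (∀ A, 0 ≤ m A) → qf Y m ≤ 2 * V * (∑ A, m A) ^ 2) (ε : ℝ) (hε : 0 < ε) :
    ∃ C, DualBound k (V + ε) C := by
  classical
  -- `V` is nonnegative
  have hV : 0 ≤ V := by
    have h0 : TMK (fun _ _ : Finset (Fin k) => (0 : ℝ)) :=
      ⟨fun _ _ => rfl, fun _ _ _ => rfl, fun n _ => by simp⟩
    have h1 := h _ h0 (fun A => if A = ∅ then 1 else 0) (fun A => by split_ifs <;> norm_num)
    have h2 : qf (fun _ _ : Finset (Fin k) => (0 : ℝ)) (fun A => if A = ∅ then 1 else 0) = 0 := by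
      unfold qf
      simp
    rw [h2] at h1
    simp at h1
    exact h1
  by_contra hcon
  push Not at hcon
  have hseq : ∀ N : ℕ, ∃ (D : ℕ) (T : Fin D → Finset (Fin k))
      (Y : Finset (Fin k) → Finset (Fin k) → ℝ), TK T Y ∧
      2 * ((V + ε) * (D : ℝ) ^ 2 + N * D) < qf Y (mass T) := by
    intro N
    have h1 := hcon (N + 2 ^ k)
    unfold DualBound at h1
    push Not at h1
    obtain ⟨D, T, y, hy, hlt⟩ := h1
    obtain ⟨Y, hYT, hle⟩ := exists_TK T y hy
    refine ⟨D, T, Y, hYT, ?_⟩
    nlinarith [hlt, hle]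
  choose D T Y hTK hlt using hseq
  -- the number of vertices tends to infinity
  have hqf : ∀ N, qf (Y N) (mass (T N)) ≤ (D N : ℝ) ^ 2 := by
    intro N
    have h1 : qf (Y N) (mass (T N)) ≤ (∑ A, mass (T N) A) ^ 2 := by
      unfold qf
      rw [sq, Finset.sum_mul_sum]
      exact Finset.sum_le_sum fun A _ => Finset.sum_le_sum fun B _ => mass_term (hTK N) A B
    refine h1.trans ?_
    exact pow_le_pow_left₀ (Finset.sum_nonneg fun A _ => mass_nonneg _ A) (sum_mass_le _) 2
  have hDpos : ∀ N, (0 : ℝ) < D N := by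
    intro N
    rcases Nat.eq_zero_or_pos (D N) with h0 | h0
    · exfalso
      have h1 := hlt N
      have h2 := hqf N
      have h3 : (D N : ℝ) = 0 := by exact_mod_cast h0
      rw [h3] at h1 h2
      linarith
    · exact_mod_cast h0
  have hDN : ∀ N : ℕ, (N : ℝ) ≤ D N := by
    intro N
    have h1 := hlt N
    have h2 := hqf N
    have h3 := hDpos N
    have h4 : 2 * ((N : ℝ) * D N) < (D N : ℝ) ^ 2 := by
      have : 0 ≤ (V + ε) * (D N : ℝ) ^ 2 := by positivity
      linarith
    have h5 : 2 * (N : ℝ) < D N := by nlinarith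
    have h6 : (0 : ℝ) ≤ N := Nat.cast_nonneg N
    linarith
  set μ : ℕ → Finset (Fin k) → ℝ := fun N A => mass (T N) A / D N with hμ
  have hμ0 : ∀ N A, 0 ≤ μ N A := fun N A => div_nonneg (mass_nonneg _ _) (hDpos N).le
  have hμs : ∀ N, ∑ A, μ N A ≤ 1 := by
    intro N
    simp only [hμ]
    rw [← Finset.sum_div, div_le_one (hDpos N)]
    exact sum_mass_le _
  have hμ1 : ∀ N A, μ N A ≤ 1 := fun N A =>
    (Finset.single_le_sum (fun B _ => hμ0 N B) (mem_univ A)).trans (hμs N)
  have hterm : ∀ N A B, Y N A B * (μ N A * μ N B) ≤ μ N A * μ N B := by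
    intro N A B
    have h1 := mass_term (hTK N) A B
    have h3 := hDpos N
    have e1 : Y N A B * (μ N A * μ N B) = Y N A B * (mass (T N) A * mass (T N) B) / (D N * D N) := by
      simp only [hμ]; field_simp
    have e2 : μ N A * μ N B = mass (T N) A * mass (T N) B / (D N * D N) := by
      simp only [hμ]; field_simp
    rw [e1, e2]
    exact div_le_div_of_nonneg_right h1 (by positivity)
  have hbig : ∀ N, 2 * (V + ε) < qf (Y N) (μ N) := by
    intro N
    have h3 := hDpos N
    have e1 : qf (Y N) (μ N) = qf (Y N) (mass (T N)) / (D N : ℝ) ^ 2 := by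
      have e2 : μ N = fun A => (D N : ℝ)⁻¹ * mass (T N) A := by
        funext A
        simp only [hμ]
        rw [div_eq_inv_mul]
      rw [e2, qf_smul]
      field_simp
    rw [e1, lt_div_iff₀ (by positivity)]
    have h1 := hlt N
    have h4 : 0 ≤ (N : ℝ) * D N := by positivity
    nlinarith
  -- the ultrafilter
  set U : Ultrafilter ℕ := Filter.hyperfilter ℕ with hU
  have hUtop : (U : Filter ℕ) ≤ atTop := by
    rw [← Nat.cofinite_eq_atTop]
    exact Filter.hyperfilter_le_cofinite
  have hlimμ : ∀ A, ∃ x ∈ Set.Icc (0 : ℝ) 1, Tendsto (fun N => μ N A) (U : Filter ℕ) (𝓝 x) :=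
    fun A => lim1 U _ 0 1 (Filter.Eventually.of_forall fun N => ⟨hμ0 N A, hμ1 N A⟩)
  choose ν hν hνt using hlimμ
  have hν0 : ∀ A, 0 ≤ ν A := fun A => (hν A).1
  have hνs : ∑ A, ν A ≤ 1 := by
    have h1 : Tendsto (fun N => ∑ A, μ N A) (U : Filter ℕ) (𝓝 (∑ A, ν A)) :=
      tendsto_finsetSum _ fun A _ => hνt A
    exact le_of_tendsto h1 (Filter.Eventually.of_forall hμs)
  -- limits of the kernel entries
  have hlimY : ∀ A B, ∃ x : ℝ, 0 < ν A → 0 < ν B →
      Tendsto (fun N => Y N A B) (U : Filter ℕ) (𝓝 x) := by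
    intro A B
    by_cases hA : 0 < ν A
    · by_cases hB : 0 < ν B
      · have e1 : ∀ᶠ N in (U : Filter ℕ), ν A / 2 < μ N A :=
          (hνt A).eventually_const_lt (by linarith)
        have e2 : ∀ᶠ N in (U : Filter ℕ), ν B / 2 < μ N B :=
          (hνt B).eventually_const_lt (by linarith)
        have e3 : ∀ᶠ N in (U : Filter ℕ), Y N A B ∈ Set.Icc (-(4 / (ν A * ν B))) 1 := by
          filter_upwards [e1, e2] with N h1 h2
          have hmA : mass (T N) A ≠ 0 := by
            intro h0
            simp only [hμ] at h1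
            rw [h0, zero_div] at h1
            linarith
          have hmB : mass (T N) B ≠ 0 := by
            intro h0
            simp only [hμ] at h2
            rw [h0, zero_div] at h2
            linarith
          refine ⟨?_, Scheme.Y_le_one (hTK N) hmA hmB⟩
          -- lower bound from the size of the quadratic form
          have h3 : qf (Y N) (μ N) ≤ Y N A B * (μ N A * μ N B) + 1 := by
            have h4 : qf (Y N) (μ N) - Y N A B * (μ N A * μ N B) ≤ 1 := by
              have h5 : qf (Y N) (μ N) = ∑ p : Finset (Fin k) × Finset (Fin k),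
                  Y N p.1 p.2 * (μ N p.1 * μ N p.2) := by
                unfold qf
                rw [Fintype.sum_prod_type]
              have h6 : (∑ p : Finset (Fin k) × Finset (Fin k), μ N p.1 * μ N p.2) =
                  (∑ A, μ N A) ^ 2 := by
                rw [Fintype.sum_prod_type, sq, Finset.sum_mul_sum]
              rw [h5, ← Finset.add_sum_erase univ _ (mem_univ (A, B))]
              have h7 : ∑ p ∈ univ.erase (A, B), Y N p.1 p.2 * (μ N p.1 * μ N p.2) ≤
                  ∑ p ∈ univ.erase (A, B), μ N p.1 * μ N p.2 :=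
                Finset.sum_le_sum fun p _ => hterm N p.1 p.2
              have h8 : ∑ p ∈ univ.erase (A, B), μ N p.1 * μ N p.2 ≤
                  ∑ p : Finset (Fin k) × Finset (Fin k), μ N p.1 * μ N p.2 :=
                Finset.sum_le_sum_of_subset_of_nonneg (Finset.erase_subset _ _)
                  fun p _ _ => mul_nonneg (hμ0 N _) (hμ0 N _)
              have h9 : (∑ A, μ N A) ^ 2 ≤ 1 :=
                pow_le_one₀ (Finset.sum_nonneg fun A _ => hμ0 N A) (hμs N)
              linarith
            linarith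
          have h4 := hbig N
          have h5 : -1 ≤ Y N A B * (μ N A * μ N B) := by
            have : 0 ≤ 2 * (V + ε) := by positivity
            linarith
          have h6 : ν A * ν B / 4 ≤ μ N A * μ N B := by nlinarith
          have h7 : 0 < ν A * ν B := mul_pos hA hB
          by_contra h8
          push Not at h8
          have h9 : Y N A B < 0 := lt_of_lt_of_le h8 (by
            have : 0 < 4 / (ν A * ν B) := by positivity
            linarith)
          have h10 : Y N A B * (μ N A * μ N B) ≤ Y N A B * (ν A * ν B / 4) :=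
            mul_le_mul_of_nonpos_left h6 h9.le
          have h11 : Y N A B * (ν A * ν B / 4) < -(4 / (ν A * ν B)) * (ν A * ν B / 4) :=
            mul_lt_mul_of_pos_right h8 (by positivity)
          have h12 : -(4 / (ν A * ν B)) * (ν A * ν B / 4) = -1 := by field_simp
          linarith
        obtain ⟨x, _, hx⟩ := lim1 U _ _ _ e3
        exact ⟨x, fun _ _ => hx⟩
      · exact ⟨0, fun _ h => absurd h hB⟩
    · exact ⟨0, fun h => absurd h hA⟩
  choose L hL using hlimY
  set Z : Finset (Fin k) → Finset (Fin k) → ℝ := fun A B =>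
    if 0 < ν A ∧ 0 < ν B then L A B else 0 with hZ
  have hZ1 : ∀ A B, 0 < ν A → 0 < ν B → Z A B = L A B := by
    intro A B hA hB
    simp only [hZ]
    rw [if_pos ⟨hA, hB⟩]
  have hZ2 : ∀ A B, ¬ (0 < ν A ∧ 0 < ν B) → Z A B = 0 := by
    intro A B h
    simp only [hZ]
    rw [if_neg h]
  have hZt : ∀ A B, 0 < ν A → 0 < ν B → Tendsto (fun N => Y N A B) (U : Filter ℕ) (𝓝 (Z A B)) := by
    intro A B hA hB
    rw [hZ1 A B hA hB]
    exact hL A B hA hB
  have hmassinf : ∀ A, 0 < ν A → ∀ c : ℕ, ∀ᶠ N in (U : Filter ℕ), c ≤ cnt (T N) A := by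
    intro A hA c
    have e1 : ∀ᶠ N in (U : Filter ℕ), ν A / 2 < μ N A :=
      (hνt A).eventually_const_lt (by linarith)
    have e2 : ∀ᶠ N : ℕ in (U : Filter ℕ), 2 * (c : ℝ) / ν A ≤ (N : ℝ) :=
      hUtop ((tendsto_natCast_atTop_atTop (R := ℝ)).eventually_ge_atTop _)
    filter_upwards [e1, e2] with N h1 h2
    have h3 : (c : ℝ) ≤ mass (T N) A := by
      have h4 : ν A / 2 * D N < mass (T N) A := by
        simp only [hμ] at h1
        rwa [lt_div_iff₀ (hDpos N)] at h1
      have h5 : 2 * (c : ℝ) / ν A ≤ D N := h2.trans (hDN N)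
      rw [div_le_iff₀ hA] at h5
      linarith
    have h6 : (c : ℝ) ≤ cnt (T N) A := by
      refine h3.trans ?_
      unfold mass
      exact_mod_cast Nat.sub_le _ _
    exact_mod_cast h6
  have hTMK : TMK Z := by
    refine ⟨?_, ?_, ?_⟩
    · intro A B
      by_cases hAB : 0 < ν A ∧ 0 < ν B
      · have h1 := hZt A B hAB.1 hAB.2
        have h2 := hZt B A hAB.2 hAB.1
        have h3 : (fun N => Y N B A) = fun N => Y N A B := by
          funext N
          exact (hTK N).sym B A
        rw [h3] at h2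
        exact tendsto_nhds_unique h1 h2
      · rw [hZ2 A B hAB, hZ2 B A (fun h => hAB ⟨h.2, h.1⟩)]
    · intro A B hAB
      by_cases hp : 0 < ν A ∧ 0 < ν B
      · have h1 := hZt A B hp.1 hp.2
        have h3 : (fun N => Y N A B) = fun _ => (0 : ℝ) := by
          funext N
          exact (hTK N).adj A B hAB
        rw [h3] at h1
        exact tendsto_nhds_unique h1 tendsto_const_nhds
      · exact hZ2 A B hp
    · intro n hn
      set n' : Finset (Fin k) → ℕ := fun A => if 0 < ν A then n A else 0 with hn'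
      have hn'1 : ∀ A, 0 < ν A → n' A = n A := fun A hA => by simp only [hn']; rw [if_pos hA]
      have hn'2 : ∀ A, ¬ 0 < ν A → n' A = 0 := fun A hA => by simp only [hn']; rw [if_neg hA]
      have hn'le : ∀ A, n' A ≠ 0 → n A ≠ 0 := by
        intro A h1 h2
        by_cases hA : 0 < ν A
        · rw [hn'1 A hA] at h1; exact h1 h2
        · exact h1 (hn'2 A hA)
      have hev : ∀ᶠ N in (U : Filter ℕ), ∀ A, n' A ≤ cnt (T N) A := by
        rw [Filter.eventually_all]
        intro A
        by_cases hA : 0 < ν A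
        · exact hmassinf A hA (n' A)
        · rw [hn'2 A hA]
          exact Filter.Eventually.of_forall fun N => Nat.zero_le _
      have hpat : ∀ᶠ N in (U : Filter ℕ),
          ∑ A, ∑ B, Y N A B * ((n' A : ℝ) * (n' B : ℝ)) - ∑ A, Y N A A * (n' A : ℝ) ≤ 2 := by
        filter_upwards [hev] with N hN
        exact tk_pat (hTK N) n' (fun A B hA hB => hn A B (hn'le A hA) (hn'le B hB)) hN
      have ht1 : ∀ A B, Tendsto (fun N => Y N A B * ((n' A : ℝ) * (n' B : ℝ))) (U : Filter ℕ)
          (𝓝 (Z A B * ((n A : ℝ) * (n B : ℝ)))) := by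
        intro A B
        by_cases hp : 0 < ν A ∧ 0 < ν B
        · rw [hn'1 A hp.1, hn'1 B hp.2]
          exact (hZt A B hp.1 hp.2).mul_const _
        · have h0 : ((n' A : ℝ) * (n' B : ℝ)) = 0 := by
            rcases not_and_or.1 hp with h | h
            · rw [hn'2 A h]; simp
            · rw [hn'2 B h]; simp
          rw [h0, hZ2 A B hp, zero_mul]
          simp
      have ht2 : ∀ A, Tendsto (fun N => Y N A A * (n' A : ℝ)) (U : Filter ℕ)
          (𝓝 (Z A A * (n A : ℝ))) := by
        intro A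
        by_cases hp : 0 < ν A
        · rw [hn'1 A hp]
          exact (hZt A A hp hp).mul_const _
        · rw [hn'2 A hp, hZ2 A A (fun h => hp h.1), zero_mul]
          simp
      have ht : Tendsto (fun N => ∑ A, ∑ B, Y N A B * ((n' A : ℝ) * (n' B : ℝ)) -
          ∑ A, Y N A A * (n' A : ℝ)) (U : Filter ℕ)
          (𝓝 (∑ A, ∑ B, Z A B * ((n A : ℝ) * (n B : ℝ)) - ∑ A, Z A A * (n A : ℝ))) :=
        (tendsto_finsetSum _ fun A _ => tendsto_finsetSum _ fun B _ => ht1 A B).sub
          (tendsto_finsetSum _ fun A _ => ht2 A)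
      exact le_of_tendsto ht hpat
  -- the limit of the quadratic form
  set g : ℕ → Finset (Fin k) → Finset (Fin k) → ℝ := fun N A B =>
    if 0 < ν A ∧ 0 < ν B then Y N A B * (μ N A * μ N B) else μ N A * μ N B with hg
  have hgle : ∀ N, qf (Y N) (μ N) ≤ ∑ A, ∑ B, g N A B := by
    intro N
    unfold qf
    refine Finset.sum_le_sum fun A _ => Finset.sum_le_sum fun B _ => ?_
    simp only [hg]
    split_ifs
    · exact le_rfl
    · exact hterm N A B
  have hgt : Tendsto (fun N => ∑ A, ∑ B, g N A B) (U : Filter ℕ) (𝓝 (qf Z ν)) := by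
    unfold qf
    refine tendsto_finsetSum _ fun A _ => tendsto_finsetSum _ fun B _ => ?_
    simp only [hg]
    by_cases hp : 0 < ν A ∧ 0 < ν B
    · simp only [if_pos hp]
      exact (hZt A B hp.1 hp.2).mul ((hνt A).mul (hνt B))
    · simp only [if_neg hp]
      rw [hZ2 A B hp, zero_mul]
      have h0 : ν A * ν B = 0 := by
        rcases not_and_or.1 hp with h | h
        · rw [le_antisymm (not_lt.1 h) (hν0 A), zero_mul]
        · rw [le_antisymm (not_lt.1 h) (hν0 B), mul_zero]
      have h1 := (hνt A).mul (hνt B)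
      rw [h0] at h1
      exact h1
  have hfin : 2 * (V + ε) ≤ qf Z ν :=
    ge_of_tendsto hgt (Filter.Eventually.of_forall fun N => ((hbig N).trans_le (hgle N)).le)
  have hh := h Z hTMK ν hν0
  have hs2 : (∑ A, ν A) ^ 2 ≤ 1 := pow_le_one₀ (Finset.sum_nonneg fun A _ => hν0 A) hνs
  nlinarith

end Pool.Agent.H99.CP
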