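import Mathlib

/-!
# Extremal fractional matchings with potentials (MP_10f644_co, piece D4)

`exists_matching`: a fractional matching `f` of the graph `{t > 0}` with row sums at most `m`,
maximising `F ^ 3 * I` (`F` the total mass, `I` the total weight), together with potentials
`p ≥ 0` for the weights `t + 3 I / F`: `p a + p b ≥ t a b + 3 I / F` on the graph, with equality
on the support of `f`, and `p a ≠ 0` only at saturated vertices.
-/

open Finset

namespace Pool.Agent.H99.CP

/-- fractional matchings of the graph `{t > 0}` with row sums at most `m` -/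
def MP {ι : Type} [Fintype ι] (t : ι → ι → ℝ) (m : ι → ℝ) : Set (ι → ι → ℝ) :=
  {f | (∀ a b, f a b = f b a) ∧ (∀ a b, 0 ≤ f a b) ∧ (∀ a b, f a b ≠ 0 → 0 < t a b) ∧
    ∀ a, ∑ b, f a b ≤ m a}

theorem isCompact_MP {ι : Type} [Fintype ι] (t : ι → ι → ℝ) (m : ι → ℝ) :
    IsCompact (MP t m) := by
  have hc : IsClosed (MP t m) := by
    unfold MP
    simp only [Set.setOf_and, Set.setOf_forall]
    refine IsClosed.inter ?_ (IsClosed.inter ?_ (IsClosed.inter ?_ ?_))
    · exact isClosed_iInter fun a => isClosed_iInter fun b => isClosed_eq (by fun_prop) (by fun_prop)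
    · exact isClosed_iInter fun a => isClosed_iInter fun b => isClosed_le (by fun_prop) (by fun_prop)
    · refine isClosed_iInter fun a => isClosed_iInter fun b => ?_
      by_cases h : 0 < t a b
      · simp [h]
      · have : {x : ι → ι → ℝ | x a b ≠ 0 → 0 < t a b} = {x | x a b = 0} := by
          ext x
          simp [h]
        simp only [this]
        exact isClosed_eq (by fun_prop) (by fun_prop)
    · exact isClosed_iInter fun a => isClosed_le (by fun_prop) (by fun_prop)
  refine IsCompact.of_isClosed_subset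
    (isCompact_Icc (a := fun _ _ => (0 : ℝ)) (b := fun a _ => m a)) hc ?_
  intro f hf
  obtain ⟨-, h2, -, h4⟩ := hf
  refine ⟨fun a b => h2 a b, fun a b => ?_⟩
  exact (Finset.single_le_sum (f := fun b => f a b) (fun b _ => h2 a b) (Finset.mem_univ b)).trans
    (h4 a)

/-- first order condition for `F ^ 3 * I` along a segment -/
theorem foc {F I dF dI : ℝ} (hF : 0 < F)
    (h : ∀ ε : ℝ, 0 < ε → ε ≤ 1 → (F + ε * dF) ^ 3 * (I + ε * dI) ≤ F ^ 3 * I) :
    dI + 3 * I / F * dF ≤ 0 := by
  have key : F ^ 3 * dI + 3 * F ^ 2 * I * dF ≤ 0 := by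
    by_contra hA
    push Not at hA
    set A := F ^ 3 * dI + 3 * F ^ 2 * I * dF with hAdef
    set B := 3 * F * dF ^ 2 * I + 3 * F ^ 2 * dF * dI with hB
    set C := dF ^ 3 * I + 3 * F * dF ^ 2 * dI with hC
    set D := dF ^ 3 * dI with hD
    set M := |B| + |C| + |D| + 1 with hM
    have hM0 : 0 < M := by positivity
    set ε := min 1 (A / (2 * M)) with hε
    have hε0 : 0 < ε := lt_min one_pos (by positivity)
    have hε1 : ε ≤ 1 := min_le_left _ _
    have hε2 : ε * M ≤ A / 2 := by
      have : ε ≤ A / (2 * M) := min_le_right _ _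
      calc ε * M ≤ A / (2 * M) * M := mul_le_mul_of_nonneg_right this hM0.le
        _ = A / 2 := by field_simp
    have h1 := h ε hε0 hε1
    have h2 : (F + ε * dF) ^ 3 * (I + ε * dI) = F ^ 3 * I + ε * (A + ε * (B + ε * C + ε ^ 2 * D)) := by
      rw [hAdef, hB, hC, hD]; ring
    have h3 : A + ε * (B + ε * C + ε ^ 2 * D) ≤ 0 := by
      by_contra h4
      push Not at h4
      have := mul_pos hε0 h4
      linarith
    have h5 : -(|B| + |C| + |D|) ≤ B + ε * C + ε ^ 2 * D := by
      have e1 : -|B| ≤ B := neg_abs_le B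
      have e2 : -|C| ≤ ε * C := by
        have := neg_abs_le C
        have h0 := abs_nonneg C
        nlinarith
      have e3 : -|D| ≤ ε ^ 2 * D := by
        have := neg_abs_le D
        have h0 := abs_nonneg D
        have h6 : ε ^ 2 ≤ 1 := by nlinarith
        have h7 : 0 ≤ ε ^ 2 := by positivity
        nlinarith
      linarith
    have h6 : ε * (-(|B| + |C| + |D|)) ≤ ε * (B + ε * C + ε ^ 2 * D) :=
      mul_le_mul_of_nonneg_left h5 hε0.le
    have h7 : ε * (|B| + |C| + |D|) ≤ ε * M := mul_le_mul_of_nonneg_left (by linarith) hε0.le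
    nlinarith
  have h1 : F ^ 3 * (dI + 3 * I / F * dF) ≤ 0 := by
    have : F ^ 3 * (dI + 3 * I / F * dF) = F ^ 3 * dI + 3 * F ^ 2 * I * dF := by
      field_simp
    rw [this]; exact key
  have h2 : 0 < F ^ 3 := by positivity
  by_contra h3
  push Not at h3
  have := mul_pos h2 h3
  linarith

/-- linear programming duality for fractional matchings, in the form of complementary slackness -/
theorem potentials {ι : Type} [Fintype ι] [DecidableEq ι] (t w : ι → ι → ℝ) (m : ι → ℝ)
    (hw : ∀ a b, w a b = w b a) (ht : ∀ a b, t a b = t b a) (hw0 : ∀ a b, 0 ≤ w a b)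
    (hm : ∀ a, 0 ≤ m a)
    (f : ι → ι → ℝ) (hf : f ∈ MP t m)
    (hmax : ∀ g ∈ MP t m, ∑ a, ∑ b, g a b * w a b ≤ ∑ a, ∑ b, f a b * w a b) :
    ∃ p : ι → ℝ, (∀ a, 0 ≤ p a) ∧ (∀ a b, 0 < t a b → w a b ≤ p a + p b) ∧
      (∀ a b, f a b ≠ 0 → p a + p b = w a b) ∧ (∀ a, p a ≠ 0 → ∑ b, f a b = m a) := by
  classical
  obtain ⟨hfs, hf0, hft, hfm⟩ := hf
  set r := ∑ a, ∑ b, f a b * w a b with hr
  -- the admissible directions
  let Q : (ι → ι → ℝ) → Prop := fun g => (∀ a b, g a b = g b a) ∧ (∀ a b, 0 ≤ g a b) ∧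
    (∀ a b, g a b ≠ 0 → 0 < t a b ∧ 0 < m a ∧ 0 < m b)
  have hQf : Q f := by
    refine ⟨hfs, hf0, fun a b hab => ⟨hft a b hab, ?_, ?_⟩⟩
    · have h1 : 0 < f a b := lt_of_le_of_ne (hf0 a b) (Ne.symm hab)
      exact h1.trans_le ((Finset.single_le_sum (f := fun b => f a b) (fun b _ => hf0 a b)
        (Finset.mem_univ b)).trans (hfm a))
    · have h1 : 0 < f b a := by
        rw [hfs b a]; exact lt_of_le_of_ne (hf0 a b) (Ne.symm hab)
      exact h1.trans_le ((Finset.single_le_sum (f := fun a => f b a) (fun a _ => hf0 b a)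
        (Finset.mem_univ a)).trans (hfm b))
  let K : Set (ℝ × (ι → ℝ)) := {x | ∃ g, Q g ∧ x.1 < ∑ a, ∑ b, g a b * w a b ∧
    ∀ a, 0 < m a → ∑ b, g a b < x.2 a}
  have hKo : IsOpen K := by
    have : K = ⋃ g : {g // Q g}, ({x : ℝ × (ι → ℝ) | x.1 < ∑ a, ∑ b, g.1 a b * w a b} ∩
        ⋂ a, {x : ℝ × (ι → ℝ) | 0 < m a → ∑ b, g.1 a b < x.2 a}) := by
      ext x
      simp only [K, Set.mem_setOf_eq, Set.mem_iUnion, Set.mem_inter_iff, Set.mem_iInter,
        Subtype.exists]
      constructor
      · rintro ⟨g, h1, h2, h3⟩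
        exact ⟨g, h1, h2, h3⟩
      · rintro ⟨g, h1, h2, h3⟩
        exact ⟨g, h1, h2, h3⟩
    rw [this]
    refine isOpen_iUnion fun g => IsOpen.inter (isOpen_lt (by fun_prop) (by fun_prop)) ?_
    refine isOpen_iInter_of_finite fun a => ?_
    by_cases h : 0 < m a
    · simp only [h, true_implies]
      exact isOpen_lt (by fun_prop) (by fun_prop)
    · simp [h]
  have hKc : Convex ℝ K := by
    rintro x ⟨g, ⟨g1, g2, g3⟩, gr, gm⟩ y ⟨g', ⟨g1', g2', g3'⟩, gr', gm'⟩ α β hα hβ hαβ
    refine ⟨fun a b => α * g a b + β * g' a b, ⟨?_, ?_, ?_⟩, ?_, ?_⟩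
    · intro a b
      show α * g a b + β * g' a b = α * g b a + β * g' b a
      rw [g1 a b, g1' a b]
    · intro a b
      have := g2 a b
      have := g2' a b
      positivity
    · intro a b hab
      by_cases h : g a b = 0
      · by_cases h' : g' a b = 0
        · exact absurd (show α * g a b + β * g' a b = 0 by rw [h, h']; ring) hab
        · exact g3' a b h'
      · exact g3 a b h
    · have e : ∑ a, ∑ b, (α * g a b + β * g' a b) * w a b =
          α * ∑ a, ∑ b, g a b * w a b + β * ∑ a, ∑ b, g' a b * w a b := by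
        simp only [Finset.mul_sum, ← Finset.sum_add_distrib]
        refine Finset.sum_congr rfl fun a _ => Finset.sum_congr rfl fun b _ => ?_
        ring
      rw [e]
      simp only [Prod.fst_add, Prod.smul_fst, smul_eq_mul]
      rcases eq_or_lt_of_le hα with h | h
      · have hβ1 : β = 1 := by linarith
        rw [← h, hβ1]; linarith
      · nlinarith
    · intro a ha
      have e : ∑ b, (α * g a b + β * g' a b) = α * ∑ b, g a b + β * ∑ b, g' a b := by
        simp only [Finset.mul_sum, ← Finset.sum_add_distrib]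
      rw [e]
      simp only [Prod.snd_add, Prod.smul_snd, Pi.add_apply, Pi.smul_apply, smul_eq_mul]
      have h1 := gm a ha
      have h2 := gm' a ha
      rcases eq_or_lt_of_le hα with h | h
      · have hβ1 : β = 1 := by linarith
        rw [← h, hβ1]; linarith
      · nlinarith
  have hnot : ((r, m) : ℝ × (ι → ℝ)) ∉ K := by
    rintro ⟨g, ⟨g1, g2, g3⟩, gr, gm⟩
    have hg : g ∈ MP t m := by
      refine ⟨g1, g2, fun a b hab => (g3 a b hab).1, fun a => ?_⟩
      by_cases ha : 0 < m a
      · exact (gm a ha).le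
      · have : ∑ b, g a b = 0 := Finset.sum_eq_zero fun b _ => by
          by_contra hab
          exact ha (g3 a b hab).2.1
        rw [this]; exact hm a
    exact absurd (hmax g hg) (not_le.2 gr)
  obtain ⟨Λ, hΛ⟩ := geometric_hahn_banach_open_point hKc hKo hnot
  set lam := Λ (1, 0) with hlam
  let q : ι → ℝ := fun a => -Λ (0, Pi.single a 1)
  have hΛe : ∀ (x : ℝ) (v : ι → ℝ), Λ (x, v) = lam * x - ∑ a, q a * v a := by
    intro x v
    have h1 : ((x, v) : ℝ × (ι → ℝ)) = x • ((1, 0) : ℝ × (ι → ℝ)) +
        ∑ a, v a • ((0, Pi.single a 1) : ℝ × (ι → ℝ)) := by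
      refine Prod.ext ?_ ?_
      · simp [Prod.fst_sum]
      · funext b
        simp [Prod.snd_sum, Finset.sum_apply, Pi.single_apply]
    rw [h1, map_add, map_smul, map_sum]
    simp only [map_smul, smul_eq_mul, q]
    rw [← hlam, sub_eq_add_neg, ← Finset.sum_neg_distrib]
    congr 1
    · ring
    · refine Finset.sum_congr rfl fun a _ => ?_
      ring
  set R := lam * r - ∑ a, q a * m a with hR
  -- strict inequality on K
  have hK : ∀ g, Q g → ∀ x : ℝ, x < ∑ a, ∑ b, g a b * w a b → ∀ v : ι → ℝ,
      (∀ a, 0 < m a → ∑ b, g a b < v a) → lam * x - ∑ a, q a * v a < R := by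
    intro g hg x hx v hv
    have := hΛ (x, v) ⟨g, hg, hx, hv⟩
    rw [hΛe, hΛe] at this
    exact this
  have hQ0 : Q (fun _ _ => 0) := ⟨fun _ _ => rfl, fun _ _ => le_rfl, fun a b h => absurd rfl h⟩
  -- (i) lam ≥ 0
  have hlam0 : 0 ≤ lam := by
    by_contra hneg
    push Not at hneg
    -- x = -(T) with T large
    have h1 : ∀ x : ℝ, x < 0 → lam * x - ∑ a, q a * (m a + 1) < R := fun x hx =>
      hK (fun _ _ => 0) hQ0 x (by simpa using hx) (fun a => m a + 1)
        (fun a ha => by simp; linarith)
    set S := ∑ a, q a * (m a + 1) with hS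
    have h2 := h1 (-(1 + |R + S|) / (-lam)) (by
      apply div_neg_of_neg_of_pos
      · have := abs_nonneg (R + S); linarith
      · linarith)
    have h3 : lam * (-(1 + |R + S|) / (-lam)) = 1 + |R + S| := by
      have hne : lam ≠ 0 := ne_of_lt hneg
      field_simp
    rw [h3] at h2
    have := le_abs_self (R + S)
    linarith
  -- (ii) q a ≥ 0 whenever m a > 0
  have hq0 : ∀ a, 0 < m a → 0 ≤ q a := by
    intro a ha
    by_contra hneg
    push Not at hneg
    have h1 : ∀ T : ℝ, 0 ≤ T → lam * (-1) - (∑ c, q c * (m c + 1) + q a * T) < R := by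
      intro T hT
      have h2 := hK (fun _ _ => 0) hQ0 (-1) (by simp) (fun c => m c + 1 + (if c = a then T else 0))
        (fun c hc => by
          simp only [Finset.sum_const_zero]
          split_ifs
          · linarith
          · linarith)
      have h3 : ∑ c, q c * (m c + 1 + (if c = a then T else 0)) =
          ∑ c, q c * (m c + 1) + q a * T := by
        simp only [mul_add (q _) (m _ + 1), Finset.sum_add_distrib, mul_ite, mul_zero,
          Finset.sum_ite_eq', Finset.mem_univ, if_true]
      rw [h3] at h2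
      exact h2
    set S := ∑ c, q c * (m c + 1) with hS
    have h2 := h1 ((1 + |R + lam + S|) / (-q a)) (by
      apply div_nonneg
      · have := abs_nonneg (R + lam + S); linarith
      · linarith)
    have h3 : q a * ((1 + |R + lam + S|) / (-q a)) = -(1 + |R + lam + S|) := by
      have : q a ≠ 0 := ne_of_lt hneg
      field_simp
    rw [h3] at h2
    have := le_abs_self (R + lam + S)
    linarith
  -- (iii) q a = 0 when m a = 0
  have hqz : ∀ a, ¬ 0 < m a → q a = 0 := by
    intro a ha
    have h1 : ∀ T : ℝ, lam * (-1) - (∑ c, q c * (m c + 1) + q a * T) < R := by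
      intro T
      have h2 := hK (fun _ _ => 0) hQ0 (-1) (by simp) (fun c => m c + 1 + (if c = a then T else 0))
        (fun c hc => by
          simp only [Finset.sum_const_zero]
          have : c ≠ a := fun h => ha (h ▸ hc)
          rw [if_neg this]
          linarith)
      have h3 : ∑ c, q c * (m c + 1 + (if c = a then T else 0)) =
          ∑ c, q c * (m c + 1) + q a * T := by
        simp only [mul_add (q _) (m _ + 1), Finset.sum_add_distrib, mul_ite, mul_zero,
          Finset.sum_ite_eq', Finset.mem_univ, if_true]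
      rw [h3] at h2
      exact h2
    set S := ∑ c, q c * (m c + 1) with hS
    by_contra hne
    have h2 := h1 (-(1 + |R + lam + S|) / (q a))
    have h3 : q a * (-(1 + |R + lam + S|) / (q a)) = -(1 + |R + lam + S|) := by
      field_simp
    rw [h3] at h2
    have := le_abs_self (R + lam + S)
    linarith
  have hqn : ∀ a, 0 ≤ q a := fun a => by
    by_cases ha : 0 < m a
    · exact hq0 a ha
    · rw [hqz a ha]
  -- (iv) lam > 0
  have hlam1 : 0 < lam := by
    rcases eq_or_lt_of_le hlam0 with h | h
    · exfalso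
      have h1 := hK (fun _ _ => 0) hQ0 (-1) (by simp) (fun a => m a / 2)
        (fun a ha => by simp; linarith)
      rw [hR, ← h] at h1
      have h2 : ∑ a, q a * (m a / 2) = (∑ a, q a * m a) / 2 := by
        rw [Finset.sum_div]
        refine Finset.sum_congr rfl fun a _ => by ring
      have h3 : 0 ≤ ∑ a, q a * m a := Finset.sum_nonneg fun a _ => mul_nonneg (hqn a) (hm a)
      rw [h2] at h1
      linarith
    · exact h
  -- (v) weak inequality
  have hKw : ∀ g, Q g → lam * ∑ a, ∑ b, g a b * w a b - ∑ a, q a * ∑ b, g a b ≤ R := by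
    intro g hg
    refine le_of_forall_pos_le_add fun ε hε => ?_
    -- x = W - δ, v = s + δ with δ small
    set Sq := ∑ a, q a with hSq
    have hSq0 : 0 ≤ Sq := Finset.sum_nonneg fun a _ => hqn a
    set δ := ε / (lam + Sq + 1) with hδ
    have hpos : 0 < lam + Sq + 1 := by linarith
    have hδ0 : 0 < δ := by positivity
    have h1 := hK g hg (∑ a, ∑ b, g a b * w a b - δ) (by linarith) (fun a => ∑ b, g a b + δ)
      (fun a _ => by linarith)
    have h2 : ∑ a, q a * (∑ b, g a b + δ) = ∑ a, q a * ∑ b, g a b + Sq * δ := by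
      rw [hSq, Finset.sum_mul, ← Finset.sum_add_distrib]
      exact Finset.sum_congr rfl fun a _ => by ring
    rw [h2] at h1
    have h3 : (lam + Sq) * δ ≤ ε := by
      have : (lam + Sq + 1) * δ = ε := by rw [hδ]; field_simp
      nlinarith
    nlinarith
  have hR0 : 0 ≤ R := by
    have := hKw _ hQ0
    simpa using this
  have hKz : ∀ g, Q g → lam * ∑ a, ∑ b, g a b * w a b - ∑ a, q a * ∑ b, g a b ≤ 0 := by
    intro g hg
    by_contra hcon
    push Not at hcon
    set X := lam * ∑ a, ∑ b, g a b * w a b - ∑ a, q a * ∑ b, g a b with hX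
    have hN : 0 < (R + 1) / X := div_pos (by linarith) hcon
    obtain ⟨N, hNe⟩ : ∃ N, N = (R + 1) / X := ⟨_, rfl⟩
    rw [← hNe] at hN
    have hg' : Q (fun a b => N * g a b) := by
      refine ⟨fun a b => ?_, fun a b => mul_nonneg hN.le (hg.2.1 a b),
        fun a b hab => hg.2.2 a b fun h => hab ?_⟩
      · show N * g a b = N * g b a
        rw [hg.1 a b]
      · show N * g a b = 0
        rw [h, mul_zero]
    have h1 := hKw _ hg'
    have h2 : lam * ∑ a, ∑ b, N * g a b * w a b - ∑ a, q a * ∑ b, N * g a b = (R + 1) / X * X := by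
      rw [← hNe]
      have e1 : ∑ a, ∑ b, N * g a b * w a b = N * ∑ a, ∑ b, g a b * w a b := by
        simp only [Finset.mul_sum, mul_assoc]
      have e2 : ∑ a, q a * ∑ b, N * g a b = N * ∑ a, q a * ∑ b, g a b := by
        rw [Finset.mul_sum]
        refine Finset.sum_congr rfl fun a _ => ?_
        rw [← Finset.mul_sum]
        ring
      rw [e1, e2, hX]
      ring
    rw [h2] at h1
    have h3 : (R + 1) / X * X = R + 1 := by
      have : X ≠ 0 := ne_of_gt hcon
      field_simp
    rw [h3] at h1
    linarith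
  -- (vi) equalities for f
  have hf1 := hKz f hQf
  rw [← hr] at hf1
  have hsle : ∑ a, q a * ∑ b, f a b ≤ ∑ a, q a * m a :=
    Finset.sum_le_sum fun a _ => mul_le_mul_of_nonneg_left (hfm a) (hqn a)
  have hE1 : ∑ a, q a * ∑ b, f a b = ∑ a, q a * m a := by linarith
  have hE2 : ∑ a, q a * ∑ b, f a b = lam * r := by linarith
  have hsat : ∀ a, q a ≠ 0 → ∑ b, f a b = m a := by
    intro a ha
    have h1 : ∑ a, (q a * m a - q a * ∑ b, f a b) = 0 := by
      rw [Finset.sum_sub_distrib, hE1, sub_self]
    have h2 := (Finset.sum_eq_zero_iff_of_nonneg (fun a _ =>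
      sub_nonneg.2 (mul_le_mul_of_nonneg_left (hfm a) (hqn a)))).1 h1 a (Finset.mem_univ a)
    have h3 : q a * (m a - ∑ b, f a b) = 0 := by linarith
    rcases mul_eq_zero.1 h3 with h4 | h4
    · exact absurd h4 ha
    · linarith
  -- the potentials
  set W := ∑ a, ∑ b, w a b with hW
  have hWle : ∀ a b, w a b ≤ W := fun a b =>
    (Finset.single_le_sum (f := fun b => w a b) (fun b _ => hw0 a b) (Finset.mem_univ b)).trans
      (Finset.single_le_sum (f := fun a => ∑ b, w a b)
        (fun a _ => Finset.sum_nonneg fun b _ => hw0 a b) (Finset.mem_univ a))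
  have hW0 : 0 ≤ W := Finset.sum_nonneg fun a _ => Finset.sum_nonneg fun b _ => hw0 a b
  let p : ι → ℝ := fun a => if 0 < m a then q a / (2 * lam) else W
  have hp1 : ∀ a, 0 < m a → p a = q a / (2 * lam) := fun a ha => if_pos ha
  have hp2 : ∀ a, ¬ 0 < m a → p a = W := fun a ha => if_neg ha
  have hp0 : ∀ a, 0 ≤ p a := by
    intro a
    by_cases ha : 0 < m a
    · rw [hp1 a ha]; exact div_nonneg (hqn a) (by linarith)
    · rw [hp2 a ha]; exact hW0
  have hpair : ∀ a b, 0 < t a b → 0 < m a → 0 < m b → w a b ≤ p a + p b := by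
    intro a b hab ha hb
    rw [hp1 a ha, hp1 b hb, ← add_div, le_div_iff₀ (by linarith)]
    -- the edge a b
    let g : ι → ι → ℝ := fun x y => (if x = a ∧ y = b then 1 else 0) + (if x = b ∧ y = a then 1 else 0)
    have hg : Q g := by
      refine ⟨fun x y => ?_, fun x y => ?_, fun x y hxy => ?_⟩
      · simp only [g]
        rw [add_comm]
        congr 1
        · simp only [and_comm]
        · simp only [and_comm]
      · simp only [g]
        positivity
      · by_cases h1 : x = a ∧ y = b
        · rw [h1.1, h1.2]; exact ⟨hab, ha, hb⟩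
        · by_cases h2 : x = b ∧ y = a
          · rw [h2.1, h2.2]; exact ⟨by rw [ht]; exact hab, hb, ha⟩
          · exact absurd (by simp only [g, if_neg h1, if_neg h2, add_zero]) hxy
    have h1 := hKz g hg
    have h2 : ∑ x, ∑ y, g x y * w x y = 2 * w a b := by
      simp only [g, add_mul, Finset.sum_add_distrib, ite_mul, one_mul, zero_mul, ite_and,
        Finset.sum_ite_irrel, Finset.sum_ite_eq', Finset.mem_univ, if_true, Finset.sum_const_zero]
      rw [hw b a]; ring
    have h3 : ∑ x, q x * ∑ y, g x y = q a + q b := by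
      simp only [g, Finset.sum_add_distrib, ite_and, mul_add,
        Finset.sum_ite_irrel, Finset.sum_ite_eq', Finset.mem_univ, if_true, Finset.sum_const_zero,
        mul_ite, mul_one, mul_zero]
    rw [h2, h3] at h1
    linarith
  refine ⟨p, hp0, ?_, ?_, ?_⟩
  · intro a b hab
    by_cases ha : 0 < m a
    · by_cases hb : 0 < m b
      · exact hpair a b hab ha hb
      · rw [hp2 b hb]; linarith [hp0 a, hWle a b]
    · rw [hp2 a ha]; linarith [hp0 b, hWle a b]
  · intro a b hab
    -- sum of nonnegative terms equal to zero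
    have hterm : ∀ x y, 0 ≤ f x y * (p x + p y - w x y) := by
      intro x y
      by_cases h : f x y = 0
      · rw [h]; simp
      · obtain ⟨h1, h2, h3⟩ := hQf.2.2 x y h
        exact mul_nonneg (hf0 x y) (by linarith [hpair x y h1 h2 h3])
    have hpf : ∀ x y, f x y * p x = f x y * (q x / (2 * lam)) := by
      intro x y
      by_cases h : f x y = 0
      · rw [h]; ring
      · rw [hp1 x (hQf.2.2 x y h).2.1]
    have hsum : ∑ x, ∑ y, f x y * (p x + p y - w x y) = 0 := by
      have h1 : ∑ x, ∑ y, f x y * p x = r / 2 := by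
        have : ∀ x, ∑ y, f x y * p x = (q x * ∑ y, f x y) / (2 * lam) := by
          intro x
          rw [Finset.sum_congr rfl fun y _ => hpf x y, ← Finset.sum_mul]
          ring
        rw [Finset.sum_congr rfl fun x _ => this x, ← Finset.sum_div, hE2]
        field_simp
      have h2 : ∑ x, ∑ y, f x y * p y = r / 2 := by
        rw [Finset.sum_comm, ← h1]
        refine Finset.sum_congr rfl fun x _ => Finset.sum_congr rfl fun y _ => ?_
        rw [hfs y x]
      have h3 : ∑ x, ∑ y, f x y * (p x + p y - w x y) =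
          ∑ x, ∑ y, f x y * p x + ∑ x, ∑ y, f x y * p y - ∑ x, ∑ y, f x y * w x y := by
        simp only [← Finset.sum_add_distrib, ← Finset.sum_sub_distrib]
        refine Finset.sum_congr rfl fun x _ => Finset.sum_congr rfl fun y _ => ?_
        ring
      rw [h3, h1, h2, ← hr]; ring
    have h1 := (Finset.sum_eq_zero_iff_of_nonneg (fun x _ =>
      Finset.sum_nonneg fun y _ => hterm x y)).1 hsum a (Finset.mem_univ a)
    have h2 := (Finset.sum_eq_zero_iff_of_nonneg (fun y _ => hterm a y)).1 h1 b (Finset.mem_univ b)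
    rcases mul_eq_zero.1 h2 with h3 | h3
    · exact absurd h3 hab
    · linarith
  · intro a ha
    by_cases hma : 0 < m a
    · refine hsat a fun h => ha ?_
      rw [hp1 a hma, h, zero_div]
    · have h1 : m a = 0 := le_antisymm (not_lt.1 hma) (hm a)
      have h2 : ∑ b, f a b = 0 := le_antisymm ((hfm a).trans h1.le)
        (Finset.sum_nonneg fun b _ => hf0 a b)
      rw [h1, h2]

/-- **Extremal fractional matching with potentials** (piece D4). -/
theorem exists_matching {ι : Type} [Fintype ι] [DecidableEq ι] (t : ι → ι → ℝ)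
    (ht : ∀ a b, t a b = t b a) (ht0 : ∀ a b, 0 ≤ t a b) (m : ι → ℝ) (hm : ∀ a, 0 ≤ m a)
    (hpos : ∃ a b, 0 < t a b ∧ 0 < m a ∧ 0 < m b) :
    ∃ (f : ι → ι → ℝ) (p : ι → ℝ) (F I : ℝ),
      (∀ a b, f a b = f b a) ∧ (∀ a b, 0 ≤ f a b) ∧ (∀ a b, f a b ≠ 0 → 0 < t a b) ∧
      (∀ a, ∑ b, f a b ≤ m a) ∧ (F = ∑ a, ∑ b, f a b) ∧ (I = ∑ a, ∑ b, f a b * t a b) ∧
      0 < F ∧ 0 < I ∧ (∀ a, 0 ≤ p a) ∧ (∀ a b, 0 < t a b → t a b + 3 * I / F ≤ p a + p b) ∧
      (∀ a b, f a b ≠ 0 → p a + p b = t a b + 3 * I / F) ∧
      (∀ a, p a ≠ 0 → ∑ b, f a b = m a) := by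
  classical
  let Φ : (ι → ι → ℝ) → ℝ := fun f => (∑ a, ∑ b, f a b) ^ 3 * ∑ a, ∑ b, f a b * t a b
  have hΦ : Continuous Φ := by fun_prop
  have hne : (MP t m).Nonempty :=
    ⟨fun _ _ => 0, fun _ _ => rfl, fun _ _ => le_rfl, fun a b h => absurd rfl h,
      fun a => by simpa using hm a⟩
  obtain ⟨f, hf, hfmax⟩ := (isCompact_MP t m).exists_isMaxOn hne hΦ.continuousOn
  have hmx : ∀ g ∈ MP t m, Φ g ≤ Φ f := fun g hg => hfmax hg
  set F := ∑ a, ∑ b, f a b with hF
  set I := ∑ a, ∑ b, f a b * t a b with hI
  have hf' := hf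
  obtain ⟨hfs, hf0, hft, hfm⟩ := hf
  have hF0 : 0 ≤ F := Finset.sum_nonneg fun a _ => Finset.sum_nonneg fun b _ => hf0 a b
  have hI0 : 0 ≤ I := Finset.sum_nonneg fun a _ => Finset.sum_nonneg fun b _ =>
    mul_nonneg (hf0 a b) (ht0 a b)
  -- positivity
  have hΦpos : 0 < Φ f := by
    obtain ⟨a, b, hab, ha, hb⟩ := hpos
    set c := min (m a) (m b) / 2 with hc
    have hc0 : 0 < c := by
      have := lt_min ha hb
      positivity
    have hca : 2 * c ≤ m a := by
      have := min_le_left (m a) (m b)
      rw [hc]; linarith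
    have hcb : 2 * c ≤ m b := by
      have := min_le_right (m a) (m b)
      rw [hc]; linarith
    let g : ι → ι → ℝ := fun x y => (if x = a ∧ y = b then c else 0) + (if x = b ∧ y = a then c else 0)
    have hg0 : ∀ x y, 0 ≤ g x y := by
      intro x y
      simp only [g]
      positivity
    have hrow : ∀ x, ∑ y, g x y = (if x = a then c else 0) + (if x = b then c else 0) := by
      intro x
      simp only [g, Finset.sum_add_distrib, ite_and,
        Finset.sum_ite_irrel, Finset.sum_ite_eq', Finset.mem_univ, if_true, Finset.sum_const_zero]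
    have hg : g ∈ MP t m := by
      refine ⟨fun x y => ?_, hg0, fun x y hxy => ?_, fun x => ?_⟩
      · simp only [g]
        rw [add_comm]
        congr 1
        · simp only [and_comm]
        · simp only [and_comm]
      · by_cases h1 : x = a ∧ y = b
        · rw [h1.1, h1.2]; exact hab
        · by_cases h2 : x = b ∧ y = a
          · rw [h2.1, h2.2, ht]; exact hab
          · exact absurd (by simp only [g, if_neg h1, if_neg h2, add_zero]) hxy
      · rw [hrow]
        by_cases h1 : x = a
        · by_cases h2 : x = b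
          · rw [if_pos h1, if_pos h2, h1]; linarith
          · rw [if_pos h1, if_neg h2, h1]; linarith
        · by_cases h2 : x = b
          · rw [if_neg h1, if_pos h2, h2]; linarith
          · rw [if_neg h1, if_neg h2]; linarith [hm x]
    have h1 : 0 < ∑ x, ∑ y, g x y := by
      have : ∑ x, ∑ y, g x y = 2 * c := by
        rw [Finset.sum_congr rfl fun x _ => hrow x]
        simp only [Finset.sum_add_distrib, Finset.sum_ite_eq', Finset.mem_univ, if_true]
        ring
      rw [this]; linarith
    have h2 : 0 < ∑ x, ∑ y, g x y * t x y := by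
      have h3 : g a b * t a b ≤ ∑ y, g a y * t a y :=
        Finset.single_le_sum (f := fun y => g a y * t a y)
          (fun y _ => mul_nonneg (hg0 a y) (ht0 a y)) (Finset.mem_univ b)
      have h4 : ∑ y, g a y * t a y ≤ ∑ x, ∑ y, g x y * t x y :=
        Finset.single_le_sum (f := fun x => ∑ y, g x y * t x y)
          (fun x _ => Finset.sum_nonneg fun y _ => mul_nonneg (hg0 x y) (ht0 x y))
          (Finset.mem_univ a)
      have h5 : c ≤ g a b := by
        simp only [g]
        have : (0 : ℝ) ≤ if a = b ∧ b = a then c else 0 := by positivity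
        simp only [and_self, if_true]
        linarith
      have h6 : 0 < g a b * t a b := mul_pos (by linarith) hab
      linarith
    have h3 : 0 < Φ g := mul_pos (by positivity) h2
    exact h3.trans_le (hmx g hg)
  have hΦe : Φ f = F ^ 3 * I := rfl
  have hFpos : 0 < F := by
    rcases eq_or_lt_of_le hF0 with h | h
    · rw [hΦe, ← h] at hΦpos; simp at hΦpos
    · exact h
  have hIpos : 0 < I := by
    rcases eq_or_lt_of_le hI0 with h | h
    · rw [hΦe, ← h] at hΦpos; simp at hΦpos
    · exact h
  -- first order condition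
  have hfo : ∀ g ∈ MP t m, ∑ a, ∑ b, g a b * (t a b + 3 * I / F) ≤
      ∑ a, ∑ b, f a b * (t a b + 3 * I / F) := by
    intro g hg
    have hgm := hg
    obtain ⟨gs, g0, gt, gm⟩ := hg
    have hsplit : ∀ h : ι → ι → ℝ, ∑ a, ∑ b, h a b * (t a b + 3 * I / F) =
        ∑ a, ∑ b, h a b * t a b + 3 * I / F * ∑ a, ∑ b, h a b := by
      intro h
      simp only [Finset.mul_sum, ← Finset.sum_add_distrib]
      refine Finset.sum_congr rfl fun a _ => Finset.sum_congr rfl fun b _ => ?_
      ring
    rw [hsplit, hsplit, ← hF, ← hI]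
    have key := foc (F := F) (I := I) (dF := ∑ a, ∑ b, g a b - F)
      (dI := ∑ a, ∑ b, g a b * t a b - I) hFpos (by
        intro ε hε hε1
        let k : ι → ι → ℝ := fun a b => f a b + ε * (g a b - f a b)
        have hk : k ∈ MP t m := by
          refine ⟨fun a b => ?_, fun a b => ?_, fun a b hab => ?_, fun a => ?_⟩
          · simp only [k]; rw [hfs a b, gs a b]
          · have h1 := hf0 a b
            have h2 := g0 a b
            have : k a b = (1 - ε) * f a b + ε * g a b := by simp only [k]; ring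
            rw [this]
            have : 0 ≤ 1 - ε := by linarith
            positivity
          · by_cases h1 : f a b = 0
            · by_cases h2 : g a b = 0
              · exact absurd (by simp only [k, h1, h2]; ring) hab
              · exact gt a b h2
            · exact hft a b h1
          · have : ∑ b, k a b = (1 - ε) * ∑ b, f a b + ε * ∑ b, g a b := by
              simp only [k, Finset.mul_sum, ← Finset.sum_add_distrib]
              exact Finset.sum_congr rfl fun b _ => by ring
            rw [this]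
            have h1 := hfm a
            have h2 := gm a
            have h3 : 0 ≤ 1 - ε := by linarith
            nlinarith [mul_le_mul_of_nonneg_left h1 h3, mul_le_mul_of_nonneg_left h2 hε.le]
        have h1 := hmx k hk
        have h2 : ∑ a, ∑ b, k a b = F + ε * (∑ a, ∑ b, g a b - F) := by
          rw [hF]
          simp only [k, Finset.sum_add_distrib, Finset.mul_sum, mul_sub, Finset.sum_sub_distrib]
        have h3 : ∑ a, ∑ b, k a b * t a b = I + ε * (∑ a, ∑ b, g a b * t a b - I) := by
          rw [hI]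
          simp only [k, add_mul, Finset.sum_add_distrib, Finset.mul_sum, mul_sub, sub_mul,
            Finset.sum_sub_distrib, mul_assoc]
        have h4 : Φ k = (F + ε * (∑ a, ∑ b, g a b - F)) ^ 3 *
            (I + ε * (∑ a, ∑ b, g a b * t a b - I)) := by
          simp only [Φ]
          rw [h2, h3]
        rw [h4, hΦe] at h1
        exact h1)
    linarith
  have he0 : 0 ≤ 3 * I / F := by positivity
  obtain ⟨p, hp0, hp1, hp2, hp3⟩ := potentials t (fun a b => t a b + 3 * I / F) m
    (fun a b => by rw [ht a b]) ht (fun a b => add_nonneg (ht0 a b) he0) hm f hf' hfo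
  exact ⟨f, p, F, I, hfs, hf0, hft, hfm, rfl, rfl, hFpos, hIpos, hp0, hp1, hp2, hp3⟩

end Pool.Agent.H99.CP
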