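import Mathlib
import Pool.Agent.H99.CP.LemC2
import Pool.Agent.H99.CP.Match
import Pool.Agent.H99.CP.LemB

/-!
# The local inequality `-Y(m,m) ≥ (1/2) ∬ (Y - 1/2)⁺`
-/

open Finset

namespace Pool.Agent.H99.CP

open Pool.Agent.H69.CPR

/-- the ratio `τ / max (2 τ) (τ + 1/6)` -/
noncomputable def ph (τ : ℝ) : ℝ := τ / max (2 * τ) (τ + 1 / 6)

theorem ph_zero : ph 0 = 0 := by simp [ph]

theorem mx_pos {τ : ℝ} (h : 0 ≤ τ) : 0 < max (2 * τ) (τ + 1 / 6) :=
  lt_of_lt_of_le (by linarith) (le_max_right _ _)

theorem ph_nonneg {τ : ℝ} (h : 0 ≤ τ) : 0 ≤ ph τ := div_nonneg h (mx_pos h).le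

theorem ph_le_half {τ : ℝ} (h : 0 ≤ τ) : ph τ ≤ 1 / 2 := by
  unfold ph
  rw [div_le_iff₀ (mx_pos h)]
  have := le_max_left (2 * τ) (τ + 1 / 6)
  linarith

theorem ph_le_lin {τ : ℝ} (h : 0 ≤ τ) : ph τ ≤ 1 / 4 + 3 / 2 * τ := by
  unfold ph
  rw [div_le_iff₀ (mx_pos h)]
  have h1 := le_max_right (2 * τ) (τ + 1 / 6)
  have h2 : (1 / 4 + 3 / 2 * τ) * (τ + 1 / 6) ≤ (1 / 4 + 3 / 2 * τ) * max (2 * τ) (τ + 1 / 6) :=
    mul_le_mul_of_nonneg_left h1 (by linarith)
  nlinarith [sq_nonneg (6 * τ - 1)]

section

variable {ι : Type} [Fintype ι] [DecidableEq ι] {Y : ι → ι → ℝ}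

theorem MK.diag (hY : MK Y) (a : ι) : Y a a ≤ 0 := by
  have h := hY.big (dl a) (fun x => by unfold dl; split_ifs <;> norm_num)
  rw [bf_dl] at h
  have : row Y (dl a) a = Y a a := by unfold dl; exact row_single Y a a
  rwa [this] at h

theorem MK.le_one (hY : MK Y) (a b : ι) : Y a b ≤ 1 := by
  have h := hY.star (dl b) (fun x => by unfold dl; split_ifs <;> norm_num) (by simp [dl]) 1 a
  have : row Y (dl b) a = Y a b := by unfold dl; exact row_single Y b a
  rw [this] at h
  push_cast at h
  linarith

theorem MK.three (hY : MK Y) (a b c : ι) : Y a b + Y a c + Y b c ≤ 1 := by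
  have h := hY.q2_le (((NV_dl a).add b).add c)
  have h1 := q2_add hY.sym (dl a) b
  have h2 := q2_add hY.sym (fun x => dl a x + dl b x) c
  have r : ∀ x y, row Y (dl x) y = Y y x := fun x y => by
    unfold dl; exact row_single Y x y
  have e2 : row Y (fun x => dl a x + dl b x) c = Y c a + Y c b := by
    rw [row_add, r, r]
  rw [q2_dl hY.sym, r] at h1
  rw [e2] at h2
  have h' : q2 Y (fun x => dl a x + dl b x + dl c x) ≤ 2 := h
  have h1' : q2 Y (fun x => dl a x + dl b x) = 0 + 2 * Y b a := h1
  have h2' : q2 Y (fun x => dl a x + dl b x + dl c x)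
      = q2 Y (fun x => dl a x + dl b x) + 2 * (Y c a + Y c b) := h2
  rw [hY.sym b a] at h1'
  rw [hY.sym c a, hY.sym c b] at h2'
  linarith

theorem tp_pos {a b : ι} : 0 < tp Y a b ↔ 1 / 2 < Y a b := by
  unfold tp
  rw [lt_max_iff]
  constructor
  · rintro (h | h)
    · linarith
    · exact absurd h (lt_irrefl _)
  · intro h
    left; linarith

theorem tp_eq {a b : ι} (h : 0 < tp Y a b) : tp Y a b = Y a b - 1 / 2 := by
  have := tp_pos.1 h
  unfold tp
  exact max_eq_left (by linarith)

theorem tp_nonneg (a b : ι) : 0 ≤ tp Y a b := le_max_right _ _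

theorem lin_half (hY : MK Y) (m : ι → ℝ) (hm : ∀ a, 0 ≤ m a) :
    qf (tp Y) m / 2 ≤ - qf Y m := by
  set t := tp Y with ht
  have tsym : ∀ a b, t a b = t b a := fun a b => by rw [ht]; unfold tp; rw [hY.sym]
  have t0 : ∀ a b, 0 ≤ t a b := tp_nonneg
  have thalf : ∀ a b, t a b ≤ 1 / 2 := fun a b => by
    rw [ht]; unfold tp
    exact max_le (by linarith [hY.le_one a b]) (by norm_num)
  have ttf : ∀ a b c, 0 < t a b → 0 < t a c → ¬ 0 < t b c := by
    intro a b c h1 h2 h3
    have := hY.three a b c
    have := tp_pos.1 h1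
    have := tp_pos.1 h2
    have := tp_pos.1 h3
    linarith
  by_cases hpos : ∃ a b, 0 < t a b ∧ 0 < m a ∧ 0 < m b
  swap
  · have hz : qf t m = 0 := by
      unfold qf
      refine Finset.sum_eq_zero fun a _ => Finset.sum_eq_zero fun b _ => ?_
      by_contra hne
      apply hpos
      refine ⟨a, b, (t0 a b).lt_of_ne (fun h => hne (by rw [← h]; ring)),
        (hm a).lt_of_ne (fun h => hne (by rw [← h]; ring)),
        (hm b).lt_of_ne (fun h => hne (by rw [← h]; ring))⟩
    rw [hz]
    have := hY.big m hm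
    rw [qf_eq_bf]
    linarith
  obtain ⟨f, p, F, I, hf, hf0, hft, hfm, hF, hI, hF0, hI0, hp0, hp1, hp2, hp3⟩ :=
    exists_matching t tsym t0 m hm hpos
  set e : ℝ := 3 * I / F with he
  have he0 : 0 < e := by positivity
  set s : ι → ℝ := fun a => ∑ b, f a b with hs
  have hs0 : ∀ a, 0 ≤ s a := fun a => Finset.sum_nonneg fun b _ => hf0 a b
  set o : ι → ℝ := fun a => m a - s a with ho
  have ho0 : ∀ a, 0 ≤ o a := fun a => sub_nonneg.2 (hfm a)
  have hpo : ∀ x, 0 < o x → p x = 0 := by
    intro x hx
    by_contra h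
    have := hp3 x h
    simp only [ho, hs] at hx
    linarith
  -- the total value of the edges
  set E : ℝ := ∑ a, ∑ b, f a b * Y a b with hE
  have hEI : E = F / 2 + I := by
    rw [hE, hF, hI, Finset.sum_div, ← Finset.sum_add_distrib]
    refine Finset.sum_congr rfl fun a _ => ?_
    rw [Finset.sum_div, ← Finset.sum_add_distrib]
    refine Finset.sum_congr rfl fun b _ => ?_
    by_cases h : f a b = 0
    · rw [h]; ring
    · have := tp_eq (hft a b h)
      rw [← ht] at this
      rw [this]; ring
  have hval : (4 * F * E - 2 * F ^ 2) / 8 = F * I / 2 := by rw [hEI]; ring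
  -- facts on the excess
  have hexc : ∀ a x, 0 < t a x → 0 < o x → t a x + e ≤ p a := by
    intro a x h1 h2
    have := hp1 a x h1
    rw [hpo x h2] at this
    linarith
  -- the excess part adjacent to `a`
  set g : ι → ι → ℝ := fun a x => if 0 < t a x then 1 else 0 with hg
  have hg0 : ∀ a x, 0 ≤ g a x := fun a x => by simp only [hg]; split_ifs <;> norm_num
  have hg1 : ∀ a x, g a x ≤ 1 := fun a x => by simp only [hg]; split_ifs <;> norm_num
  set q : ι → ι → ℝ := fun a x => g a x * o x with hq
  have hq0 : ∀ a x, 0 ≤ q a x := fun a x => mul_nonneg (hg0 a x) (ho0 x)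
  have hqo : ∀ a x, q a x ≤ o x := fun a x => by
    have := mul_le_mul_of_nonneg_right (hg1 a x) (ho0 x)
    simpa [hq] using this
  set P : ι → ℝ := fun a => ∑ x, q a x with hP
  have hP0 : ∀ a, 0 ≤ P a := fun a => Finset.sum_nonneg fun x _ => hq0 a x
  set T : ι → ℝ := fun a => ∑ x, t a x * o x with hT
  have hT0 : ∀ a, 0 ≤ T a := fun a => Finset.sum_nonneg fun x _ => mul_nonneg (t0 a x) (ho0 x)
  have hgt : ∀ a x, t a x * o x = t a x * q a x := by
    intro a x
    simp only [hq, hg]
    split_ifs with h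
    · ring
    · have : t a x = 0 := le_antisymm (not_lt.1 h) (t0 a x)
      rw [this]; ring
  have hTP : ∀ a, T a ≤ (p a - e) * P a := by
    intro a
    simp only [hT, hP, Finset.mul_sum]
    refine Finset.sum_le_sum fun x _ => ?_
    rw [hgt]
    by_cases h1 : 0 < t a x
    · by_cases h2 : 0 < o x
      · have := hexc a x h1 h2
        exact mul_le_mul_of_nonneg_right (by linarith) (hq0 a x)
      · have : q a x = 0 := by
          have : o x = 0 := le_antisymm (not_lt.1 h2) (ho0 x)
          simp only [hq, this, mul_zero]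
        rw [this]; simp
    · have : q a x = 0 := by simp only [hq, hg, if_neg h1, zero_mul]
      rw [this]; simp
  have hPe : ∀ a, 0 < P a → e ≤ p a := by
    intro a h
    obtain ⟨x, -, hx⟩ := Finset.exists_ne_zero_of_sum_ne_zero (ne_of_gt h)
    have h1 : 0 < t a x := by
      by_contra h1
      apply hx
      simp only [hq, hg, if_neg h1, zero_mul]
    have h2 : 0 < o x := by
      refine (ho0 x).lt_of_ne fun h2 => hx ?_
      simp only [hq, ← h2, mul_zero]
    have := hexc a x h1 h2
    linarith
  have hTz : ∀ a, P a = 0 → T a = 0 := by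
    intro a h
    have h1 := hTP a
    rw [h, mul_zero] at h1
    exact le_antisymm h1 (hT0 a)
  -- the total of `t`
  have hms : ∀ a, m a = s a + o a := fun a => by simp only [ho]; ring
  have hoo : bf t o o = 0 := by
    unfold bf
    refine Finset.sum_eq_zero fun x _ => Finset.sum_eq_zero fun y _ => ?_
    by_contra hne
    have h1 : 0 < t x y := (t0 x y).lt_of_ne (fun h => hne (by rw [← h]; ring))
    have h2 : 0 < o x := (ho0 x).lt_of_ne (fun h => hne (by rw [← h]; ring))
    have h3 : 0 < o y := (ho0 y).lt_of_ne (fun h => hne (by rw [← h]; ring))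
    have := hp1 x y h1
    rw [hpo x h2, hpo y h3] at this
    linarith
  have hso : bf t s o = ∑ a, s a * T a := by rw [bf_eq_row]; rfl
  have hmv : m = fun a => s a + o a := funext hms
  have htot : qf t m = bf t s s + 2 * ∑ a, s a * T a := by
    rw [qf_eq_bf, hmv, bf_add_left, bf_add_right, bf_add_right, hoo, bf_comm tsym o s, hso]
    ring
  have hB : bf t s s ≤ F * I / 2 + F ^ 2 * e / 8 := by
    have hFs : F = ∑ a, s a := hF
    exact lemB t f p s F I e tsym t0 ttf hf hf0 hft (fun a => rfl) hFs hI he0 hp0 hp1 hp2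
  have hFe : F ^ 2 * e / 8 = 3 * (F * I) / 8 := by
    rw [he]; field_simp
  rw [hFe] at hB
  by_contra hcon
  push Not at hcon
  set ST : ℝ := ∑ a, s a * T a with hST
  set Z : ℝ := ST - F * I / 16 with hZ
  have hFI : 0 < F * I := mul_pos hF0 hI0
  have hYm : - qf Y m < 7 / 16 * (F * I) + ST := by
    rw [htot] at hcon
    linarith
  -- Z is positive
  have hZ0 : 0 < Z := by
    have h := hY.lemC0 f hf hf0 s (fun _ => rfl) F E hF hF0 hE o ho0
    rw [hval, ← hmv, ← qf_eq_bf] at h
    rw [hZ]; linarith
  -- mean weight of the excess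
  set τ : ι → ℝ := fun a => T a / P a with hτ
  have hτ0 : ∀ a, 0 ≤ τ a := fun a => div_nonneg (hT0 a) (hP0 a)
  have hτz : ∀ a, P a = 0 → τ a = 0 := fun a h => by simp only [hτ, h, div_zero]
  have hτp : ∀ a, 0 < P a → τ a ≤ p a - e := by
    intro a h
    simp only [hτ]
    rw [div_le_iff₀ h]
    exact hTP a
  have hPT : ∀ a, 0 < P a → T a = τ a * P a := by
    intro a h
    simp only [hτ]
    field_simp
  -- the key estimate for each vertex
  have hkey : ∀ a, T a ≤ 4 * Z / F * ph (τ a) + F / 16 * τ a := by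
    intro a
    rcases (hP0 a).eq_or_lt with hPz | hPp
    · rw [hTz a hPz.symm, hτz a hPz.symm, ph_zero]
      simp
    -- cherries
    have hρ0 : ∀ x, 0 ≤ 1 / P a * q a x := fun x => mul_nonneg (by positivity) (hq0 a x)
    have hρ1 : ∑ x, 1 / P a * q a x ≤ 1 := by
      rw [← Finset.mul_sum]
      have : ∑ x, q a x = P a := rfl
      rw [this, one_div, inv_mul_cancel₀ hPp.ne']
    have hrow : row Y (q a) a = P a / 2 + T a := by
      have e1 : P a / 2 + T a = ∑ x, (q a x / 2 + t a x * q a x) := by
        rw [Finset.sum_add_distrib, ← Finset.sum_div]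
        congr 1
        exact Finset.sum_congr rfl fun x _ => hgt a x
      rw [e1]
      unfold row
      refine Finset.sum_congr rfl fun x _ => ?_
      by_cases h : 0 < t a x
      · have := tp_eq h
        rw [← ht] at this
        rw [this]; ring
      · have : q a x = 0 := by simp only [hq, hg, if_neg h, zero_mul]
        rw [this]; ring
    have hs2 := hY.star (fun x => 1 / P a * q a x) hρ0 hρ1 2 a
    have hs3 := hY.star (fun x => 1 / P a * q a x) hρ0 hρ1 3 a
    rw [row_smul, bf_smul_left, bf_smul_right, hrow, hPT a hPp] at hs2 hs3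
    set N : ℝ := - bf Y (q a) (q a) with hN
    have hN' : bf Y (q a) (q a) = - N := by rw [hN]; ring
    rw [hN'] at hs2 hs3
    have hPne : P a ≠ 0 := hPp.ne'
    have e2 : 1 / P a * (P a / 2 + τ a * P a) = 1 / 2 + τ a := by field_simp
    have e3 : 1 / P a * (1 / P a * -N) = - (N / P a ^ 2) := by field_simp
    rw [e2, e3] at hs2 hs3
    push_cast at hs2 hs3
    set Q : ℝ := max (2 * τ a) (τ a + 1 / 6) with hQ
    have hQ0 : 0 < Q := mx_pos (hτ0 a)
    have hNQ : Q ≤ N / P a ^ 2 := max_le (by linarith) (by linarith)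
    have hNQ' : Q * P a ^ 2 ≤ N := by
      rwa [le_div_iff₀ (by positivity)] at hNQ
    -- it suffices
    have hsuff : Q * P a * F ≤ 4 * Z + Q * F ^ 2 / 16 → T a ≤ 4 * Z / F * ph (τ a) + F / 16 * τ a := by
      intro h
      have h1 : P a ≤ 4 * Z / (Q * F) + F / 16 := by
        have : 4 * Z / (Q * F) + F / 16 = (4 * Z + Q * F ^ 2 / 16) / (Q * F) := by
          field_simp
        rw [this, le_div_iff₀ (by positivity)]
        linarith
      have h2 := mul_le_mul_of_nonneg_left h1 (hτ0 a)
      rw [hPT a hPp]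
      have h3 : τ a * (4 * Z / (Q * F) + F / 16) = 4 * Z / F * ph (τ a) + F / 16 * τ a := by
        unfold ph
        rw [← hQ]
        field_simp
      linarith
    -- Lemma C
    set r : ι → ℝ := fun x => o x - q a x with hr
    have hr0 : ∀ x, 0 ≤ r x := fun x => sub_nonneg.2 (hqo a x)
    have hmv2 : m = fun x => s x + (q a x + r x) := by
      funext x
      simp only [hr]
      rw [hms x]; ring
    apply hsuff
    rcases le_total (4 * P a) F with h4 | h4
    · have h := hY.lemC1 f hf hf0 s (fun _ => rfl) F E hF hF0 hE (q a) r (hq0 a) hr0 (P a) rfl hPp h4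
      rw [hval, ← hmv2, ← qf_eq_bf, hN'] at h
      have hNZ : N ≤ Z := by rw [hZ]; linarith
      have h5 : Q * P a ^ 2 ≤ Z := hNQ'.trans hNZ
      nlinarith [mul_nonneg hQ0.le (sq_nonneg (2 * P a - F / 4))]
    · have h := hY.lemC2 f hf hf0 s (fun _ => rfl) hs0 F E hF hF0 hE (q a) r (hq0 a) hr0 (P a) rfl h4
      rw [hval, ← hmv2, ← qf_eq_bf, hN'] at h
      have hNZ : F / (4 * P a) * N ≤ Z := by rw [hZ]; linarith
      have h6 : F / (4 * P a) * (Q * P a ^ 2) ≤ F / (4 * P a) * N :=
        mul_le_mul_of_nonneg_left hNQ' (by positivity)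
      have h7 : F / (4 * P a) * (Q * P a ^ 2) = Q * P a * F / 4 := by field_simp
      rw [h7] at h6
      have : 0 ≤ Q * F ^ 2 / 16 := by positivity
      linarith
  -- the per-edge estimates
  set tb : ℝ := I / F with htb
  have htb0 : 0 < tb := by positivity
  have hetb : e = 3 * tb := by rw [he, htb]; ring
  have hedge : ∀ a b, f a b ≠ 0 → τ a + τ b ≤ t a b ∧
      ph (τ a) + ph (τ b) ≤ if tb ≤ 1 / 6 then 1 / 4 + t a b / (4 * tb) else 1 / 2 := by
    intro a b hab
    have hpp := hp2 a b hab
    have htab := hft a b hab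
    have hth := thalf a b
    have haa := hτ0 a
    have hbb := hτ0 b
    have hpa := hp0 a
    have hpb := hp0 b
    have one : ∀ x, 0 ≤ x → x ≤ t a b →
        ph x ≤ if tb ≤ 1 / 6 then 1 / 4 + t a b / (4 * tb) else 1 / 2 := by
      intro x hx0 hx
      split_ifs with h
      · have h1 := ph_le_lin hx0
        have h2 : 3 / 2 * t a b ≤ t a b / (4 * tb) := by
          rw [le_div_iff₀ (by positivity)]
          nlinarith
        linarith
      · exact ph_le_half hx0
    rcases (hP0 a).eq_or_lt with ha | ha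
    · rw [hτz a ha.symm, ph_zero]
      rcases (hP0 b).eq_or_lt with hb | hb
      · rw [hτz b hb.symm, ph_zero]
        refine ⟨by linarith, ?_⟩
        have := one 0 le_rfl htab.le
        rw [ph_zero] at this
        linarith
      · have := hτp b hb
        refine ⟨by linarith, ?_⟩
        rw [zero_add]
        exact one _ hbb (by linarith)
    · have h1 := hτp a ha
      rcases (hP0 b).eq_or_lt with hb | hb
      · rw [hτz b hb.symm, ph_zero]
        refine ⟨by linarith, ?_⟩
        rw [add_zero]
        exact one _ haa (by linarith)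
      · have h2 := hτp b hb
        have h3 : τ a + τ b ≤ t a b - e := by linarith
        refine ⟨by linarith, ?_⟩
        have h4 : 3 * tb ≤ t a b := by linarith
        have h5 := ph_le_half haa
        have h6 := ph_le_half hbb
        split_ifs with h
        · have h7 : 3 / 4 ≤ t a b / (4 * tb) := by
            rw [le_div_iff₀ (by positivity)]
            linarith
          linarith
        · exfalso
          push Not at h
          linarith
  -- summation
  have hsumτ : ∑ a, s a * τ a ≤ I / 2 := by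
    have h1 : ∑ a, ∑ b, f a b * (τ a + τ b) ≤ I := by
      rw [hI]
      refine Finset.sum_le_sum fun a _ => Finset.sum_le_sum fun b _ => ?_
      by_cases h : f a b = 0
      · rw [h]; simp
      · exact mul_le_mul_of_nonneg_left (hedge a b h).1 (hf0 a b)
    have h2 : ∑ a, ∑ b, f a b * (τ a + τ b) = 2 * ∑ a, s a * τ a := by
      have e1 : ∑ a, ∑ b, f a b * τ a = ∑ a, s a * τ a := by
        refine Finset.sum_congr rfl fun a _ => ?_
        rw [← Finset.sum_mul]
      have e2 : ∑ a, ∑ b, f a b * τ b = ∑ a, s a * τ a := by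
        rw [Finset.sum_comm]
        refine Finset.sum_congr rfl fun a _ => ?_
        rw [← Finset.sum_mul]
        congr 1
        exact Finset.sum_congr rfl fun b _ => hf b a
      rw [two_mul]
      nth_rewrite 1 [← e1]
      rw [← e2, ← Finset.sum_add_distrib]
      refine Finset.sum_congr rfl fun a _ => ?_
      rw [← Finset.sum_add_distrib]
      exact Finset.sum_congr rfl fun b _ => by ring
    linarith
  have hsumφ : ∑ a, s a * ph (τ a) ≤ F / 4 := by
    have h1 : ∑ a, ∑ b, f a b * (ph (τ a) + ph (τ b)) ≤ F / 2 := by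
      by_cases hcase : tb ≤ 1 / 6
      · have h2 : ∑ a, ∑ b, f a b * (ph (τ a) + ph (τ b))
            ≤ ∑ a, ∑ b, (f a b / 4 + f a b * t a b / (4 * tb)) := by
          refine Finset.sum_le_sum fun a _ => Finset.sum_le_sum fun b _ => ?_
          by_cases h : f a b = 0
          · rw [h]; simp
          · have h3 := (hedge a b h).2
            rw [if_pos hcase] at h3
            have h4 := mul_le_mul_of_nonneg_left h3 (hf0 a b)
            have e : f a b * (1 / 4 + t a b / (4 * tb)) = f a b / 4 + f a b * t a b / (4 * tb) := by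
              ring
            linarith
        have h5 : ∑ a, ∑ b, (f a b / 4 + f a b * t a b / (4 * tb)) = F / 4 + I / (4 * tb) := by
          simp only [Finset.sum_add_distrib, ← Finset.sum_div]
          rw [← hF, ← hI]
        have h6 : I / (4 * tb) = F / 4 := by
          rw [htb]; field_simp
        linarith
      · have h2 : ∑ a, ∑ b, f a b * (ph (τ a) + ph (τ b)) ≤ ∑ a, ∑ b, f a b * (1 / 2) := by
          refine Finset.sum_le_sum fun a _ => Finset.sum_le_sum fun b _ => ?_
          by_cases h : f a b = 0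
          · rw [h]; simp
          · have h3 := (hedge a b h).2
            rw [if_neg hcase] at h3
            exact mul_le_mul_of_nonneg_left h3 (hf0 a b)
        have h5 : ∑ a, ∑ b, f a b * (1 / 2) = F * (1 / 2) := by
          simp only [← Finset.sum_mul]
          rw [← hF]
        linarith
    have h2 : ∑ a, ∑ b, f a b * (ph (τ a) + ph (τ b)) = 2 * ∑ a, s a * ph (τ a) := by
      have e1 : ∑ a, ∑ b, f a b * ph (τ a) = ∑ a, s a * ph (τ a) := by
        refine Finset.sum_congr rfl fun a _ => ?_
        rw [← Finset.sum_mul]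
      have e2 : ∑ a, ∑ b, f a b * ph (τ b) = ∑ a, s a * ph (τ a) := by
        rw [Finset.sum_comm]
        refine Finset.sum_congr rfl fun a _ => ?_
        rw [← Finset.sum_mul]
        congr 1
        exact Finset.sum_congr rfl fun b _ => hf b a
      rw [two_mul]
      nth_rewrite 1 [← e1]
      rw [← e2, ← Finset.sum_add_distrib]
      refine Finset.sum_congr rfl fun a _ => ?_
      rw [← Finset.sum_add_distrib]
      exact Finset.sum_congr rfl fun b _ => by ring
    linarith
  -- conclusion
  have hfin : ST ≤ 4 * Z / F * ∑ a, s a * ph (τ a) + F / 16 * ∑ a, s a * τ a := by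
    rw [hST, Finset.mul_sum, Finset.mul_sum, ← Finset.sum_add_distrib]
    refine Finset.sum_le_sum fun a _ => ?_
    have := mul_le_mul_of_nonneg_left (hkey a) (hs0 a)
    linarith
  have h1 : 4 * Z / F * ∑ a, s a * ph (τ a) ≤ 4 * Z / F * (F / 4) :=
    mul_le_mul_of_nonneg_left hsumφ (by positivity)
  have h2 : 4 * Z / F * (F / 4) = Z := by field_simp
  have h3 : F / 16 * ∑ a, s a * τ a ≤ F / 16 * (I / 2) :=
    mul_le_mul_of_nonneg_left hsumτ (by positivity)
  have h4 : F / 16 * (I / 2) = F * I / 32 := by ring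
  rw [hZ] at h2 h1 hfin
  linarith

end

end Pool.Agent.H99.CP
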