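import Mathlib
import Pool.Agent.H99.CP.Local

/-! # the local inequality in the form used by `kernel_bound` -/

namespace Pool.Agent.H99.CP

open Pool.Agent.H69.CPR

theorem lin_half' : ∀ (ι : Type) [Fintype ι] [DecidableEq ι] (Y : ι → ι → ℝ), MK Y →
    ∀ m : ι → ℝ, (∀ a, 0 ≤ m a) → qf (tp Y) m / 2 ≤ - qf Y m :=
  fun _ _ _ _ hY m hm => lin_half hY m hm

end Pool.Agent.H99.CP
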