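import Mathlib
import Pool.Agent.H99.CP.Match

/-!
# Extremal fractional matchings for the weights `t + e` with a constant `e`
-/

open Finset

namespace Pool.Agent.H99.CP

theorem exists_matching_const {ι : Type} [Fintype ι] [DecidableEq ι] (t : ι → ι → ℝ)
    (ht : ∀ a b, t a b = t b a) (ht0 : ∀ a b, 0 ≤ t a b) (m : ι → ℝ) (hm : ∀ a, 0 ≤ m a)
    (hpos : ∃ a b, 0 < t a b ∧ 0 < m a ∧ 0 < m b) (e : ℝ) (he : 0 < e) :
    ∃ (f : ι → ι → ℝ) (p : ι → ℝ) (F I : ℝ),
      (∀ a b, f a b = f b a) ∧ (∀ a b, 0 ≤ f a b) ∧ (∀ a b, f a b ≠ 0 → 0 < t a b) ∧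
      (∀ a, ∑ b, f a b ≤ m a) ∧ (F = ∑ a, ∑ b, f a b) ∧ (I = ∑ a, ∑ b, f a b * t a b) ∧
      0 < F ∧ 0 < I ∧ (∀ a, 0 ≤ p a) ∧ (∀ a b, 0 < t a b → t a b + e ≤ p a + p b) ∧
      (∀ a b, f a b ≠ 0 → p a + p b = t a b + e) ∧
      (∀ a, p a ≠ 0 → ∑ b, f a b = m a) := by
  classical
  let Φ : (ι → ι → ℝ) → ℝ := fun f => ∑ a, ∑ b, f a b * (t a b + e)
  have hΦ : Continuous Φ := by fun_prop
  have hne : (MP t m).Nonempty :=
    ⟨fun _ _ => 0, fun _ _ => rfl, fun _ _ => le_rfl, fun a b h => absurd rfl h,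
      fun a => by simpa using hm a⟩
  obtain ⟨f, hf, hfmax⟩ := (isCompact_MP t m).exists_isMaxOn hne hΦ.continuousOn
  have hmx : ∀ g ∈ MP t m, Φ g ≤ Φ f := fun g hg => hfmax hg
  have hf' := hf
  obtain ⟨hfs, hf0, hft, hfm⟩ := hf
  -- positivity
  have hΦpos : 0 < Φ f := by
    obtain ⟨a, b, hab, ha, hb⟩ := hpos
    set c := min (m a) (m b) / 2 with hc
    have hc0 : 0 < c := by
      have := lt_min ha hb
      positivity
    have hca : 2 * c ≤ m a := by
      have := min_le_left (m a) (m b)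
      rw [hc]; linarith
    have hcb : 2 * c ≤ m b := by
      have := min_le_right (m a) (m b)
      rw [hc]; linarith
    let g : ι → ι → ℝ := fun x y => (if x = a ∧ y = b then c else 0) + (if x = b ∧ y = a then c else 0)
    have hg0 : ∀ x y, 0 ≤ g x y := by
      intro x y
      simp only [g]
      positivity
    have hrow : ∀ x, ∑ y, g x y = (if x = a then c else 0) + (if x = b then c else 0) := by
      intro x
      simp only [g, Finset.sum_add_distrib, ite_and,
        Finset.sum_ite_irrel, Finset.sum_ite_eq', Finset.mem_univ, if_true, Finset.sum_const_zero]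
    have hg : g ∈ MP t m := by
      refine ⟨fun x y => ?_, hg0, fun x y hxy => ?_, fun x => ?_⟩
      · simp only [g]
        rw [add_comm]
        congr 1
        · simp only [and_comm]
        · simp only [and_comm]
      · by_cases h1 : x = a ∧ y = b
        · rw [h1.1, h1.2]; exact hab
        · by_cases h2 : x = b ∧ y = a
          · rw [h2.1, h2.2, ht]; exact hab
          · exact absurd (by simp only [g, if_neg h1, if_neg h2, add_zero]) hxy
      · rw [hrow]
        by_cases h1 : x = a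
        · by_cases h2 : x = b
          · rw [if_pos h1, if_pos h2, h1]; linarith
          · rw [if_pos h1, if_neg h2, h1]; linarith
        · by_cases h2 : x = b
          · rw [if_neg h1, if_pos h2, h2]; linarith
          · rw [if_neg h1, if_neg h2]; linarith [hm x]
    have h2 : 0 < ∑ x, ∑ y, g x y * (t x y + e) := by
      have h3 : g a b * (t a b + e) ≤ ∑ y, g a y * (t a y + e) :=
        Finset.single_le_sum (f := fun y => g a y * (t a y + e))
          (fun y _ => mul_nonneg (hg0 a y) (by linarith [ht0 a y])) (Finset.mem_univ b)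
      have h4 : ∑ y, g a y * (t a y + e) ≤ ∑ x, ∑ y, g x y * (t x y + e) :=
        Finset.single_le_sum (f := fun x => ∑ y, g x y * (t x y + e))
          (fun x _ => Finset.sum_nonneg fun y _ => mul_nonneg (hg0 x y) (by linarith [ht0 x y]))
          (Finset.mem_univ a)
      have h5 : c ≤ g a b := by
        simp only [g]
        have : (0 : ℝ) ≤ if a = b ∧ b = a then c else 0 := by positivity
        simp only [and_self, if_true]
        linarith
      have h6 : 0 < g a b * (t a b + e) := mul_pos (by linarith) (by linarith)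
      linarith
    exact h2.trans_le (hmx g hg)
  have hnz : ∃ a b, 0 < f a b ∧ 0 < t a b := by
    by_contra hcon
    push Not at hcon
    have : Φ f = 0 := by
      refine Finset.sum_eq_zero fun a _ => Finset.sum_eq_zero fun b _ => ?_
      by_cases h : f a b = 0
      · rw [h, zero_mul]
      · have h1 := hcon a b ((hf0 a b).lt_of_ne (Ne.symm h))
        have h2 := hft a b h
        linarith
    linarith
  obtain ⟨a₀, b₀, h1, h2⟩ := hnz
  have hF0 : 0 < ∑ a, ∑ b, f a b := by
    have h3 : f a₀ b₀ ≤ ∑ b, f a₀ b :=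
      Finset.single_le_sum (f := fun b => f a₀ b) (fun b _ => hf0 a₀ b) (Finset.mem_univ b₀)
    have h4 : ∑ b, f a₀ b ≤ ∑ a, ∑ b, f a b :=
      Finset.single_le_sum (f := fun a => ∑ b, f a b)
        (fun a _ => Finset.sum_nonneg fun b _ => hf0 a b) (Finset.mem_univ a₀)
    linarith
  have hI0 : 0 < ∑ a, ∑ b, f a b * t a b := by
    have h3 : f a₀ b₀ * t a₀ b₀ ≤ ∑ b, f a₀ b * t a₀ b :=
      Finset.single_le_sum (f := fun b => f a₀ b * t a₀ b)
        (fun b _ => mul_nonneg (hf0 a₀ b) (ht0 a₀ b)) (Finset.mem_univ b₀)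
    have h4 : ∑ b, f a₀ b * t a₀ b ≤ ∑ a, ∑ b, f a b * t a b :=
      Finset.single_le_sum (f := fun a => ∑ b, f a b * t a b)
        (fun a _ => Finset.sum_nonneg fun b _ => mul_nonneg (hf0 a b) (ht0 a b))
        (Finset.mem_univ a₀)
    have := mul_pos h1 h2
    linarith
  obtain ⟨p, hp0, hp1, hp2, hp3⟩ := potentials t (fun a b => t a b + e) m
    (fun a b => by rw [ht a b]) ht (fun a b => add_nonneg (ht0 a b) he.le) hm f hf' hmx
  exact ⟨f, p, _, _, hfs, hf0, hft, hfm, rfl, rfl, hF0, hI0, hp0, hp1, hp2, hp3⟩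

end Pool.Agent.H99.CP
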