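import Mathlib
import Pool.Agent.H99.CP.Local
import Pool.Agent.H99.CP.LemC3
import Pool.Agent.H99.CP.Match49
import Pool.Agent.H99.CP.End49
import Pool.Agent.H99.CP.Defs49

/-!
# The local inequality `-Y(m,m) ≥ (3/4) ∬ (Y - 4/7)⁺`
-/

open Finset

namespace Pool.Agent.H99.CP

open Pool.Agent.H69.CPR

variable {ι : Type} [Fintype ι] [DecidableEq ι] {Y : ι → ι → ℝ}

theorem tq_pos {a b : ι} : 0 < tq Y a b ↔ 4 / 7 < Y a b := by
  unfold tq
  rw [lt_max_iff]
  constructor
  · rintro (h | h)
    · linarith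
    · exact absurd h (lt_irrefl _)
  · intro h
    left; linarith

theorem tq_eq {a b : ι} (h : 0 < tq Y a b) : tq Y a b = Y a b - 4 / 7 := by
  have := tq_pos.1 h
  unfold tq
  exact max_eq_left (by linarith)

theorem tq_nonneg (a b : ι) : 0 ≤ tq Y a b := le_max_right _ _

theorem lin49 (hY : MK Y) (m : ι → ℝ) (hm : ∀ a, 0 ≤ m a) :
    3 / 4 * qf (tq Y) m ≤ - qf Y m := by
  set t := tq Y with ht
  have tsym : ∀ a b, t a b = t b a := fun a b => by rw [ht]; unfold tq; rw [hY.sym]
  have t0 : ∀ a b, 0 ≤ t a b := tq_nonneg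
  have thalf : ∀ a b, t a b ≤ 3 / 7 := fun a b => by
    rw [ht]; unfold tq
    exact max_le (by linarith [hY.le_one a b]) (by norm_num)
  have ttf : ∀ a b c, 0 < t a b → 0 < t a c → ¬ 0 < t b c := by
    intro a b c h1 h2 h3
    have := hY.three a b c
    have := tq_pos.1 h1
    have := tq_pos.1 h2
    have := tq_pos.1 h3
    linarith
  by_cases hpos : ∃ a b, 0 < t a b ∧ 0 < m a ∧ 0 < m b
  swap
  · have hz : qf t m = 0 := by
      unfold qf
      refine Finset.sum_eq_zero fun a _ => Finset.sum_eq_zero fun b _ => ?_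
      by_contra hne
      apply hpos
      refine ⟨a, b, (t0 a b).lt_of_ne (fun h => hne (by rw [← h]; ring)),
        (hm a).lt_of_ne (fun h => hne (by rw [← h]; ring)),
        (hm b).lt_of_ne (fun h => hne (by rw [← h]; ring))⟩
    rw [hz]
    have := hY.big m hm
    rw [qf_eq_bf]
    linarith
  obtain ⟨f, p, F, I, hf, hf0, hft, hfm, hF, hI, hF0, hI0, hp0, hp1, hp2, hp3⟩ :=
    exists_matching_const t tsym t0 m hm hpos (8 / 21) (by norm_num)
  have he0 : (0:ℝ) < 8 / 21 := by norm_num
  set s : ι → ℝ := fun a => ∑ b, f a b with hs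
  have hs0 : ∀ a, 0 ≤ s a := fun a => Finset.sum_nonneg fun b _ => hf0 a b
  set o : ι → ℝ := fun a => m a - s a with ho
  have ho0 : ∀ a, 0 ≤ o a := fun a => sub_nonneg.2 (hfm a)
  have hpo : ∀ x, 0 < o x → p x = 0 := by
    intro x hx
    by_contra h
    have := hp3 x h
    simp only [ho, hs] at hx
    linarith
  -- the total value of the edges
  set E : ℝ := ∑ a, ∑ b, f a b * Y a b with hE
  have hEI : E = F * (4 / 7) + I := by
    rw [hE, hF, hI, Finset.sum_mul, ← Finset.sum_add_distrib]
    refine Finset.sum_congr rfl fun a _ => ?_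
    rw [Finset.sum_mul, ← Finset.sum_add_distrib]
    refine Finset.sum_congr rfl fun b _ => ?_
    by_cases h : f a b = 0
    · rw [h]; ring
    · have := tq_eq (hft a b h)
      rw [← ht] at this
      rw [this]; ring
  have hval : (4 * F * E - 2 * F ^ 2) / 8 = F ^ 2 / 28 + F * I / 2 := by rw [hEI]; ring
  -- facts on the excess
  have hexc : ∀ a x, 0 < t a x → 0 < o x → t a x + 8 / 21 ≤ p a := by
    intro a x h1 h2
    have := hp1 a x h1
    rw [hpo x h2] at this
    linarith
  -- the excess part adjacent to `a`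
  set g : ι → ι → ℝ := fun a x => if 0 < t a x then 1 else 0 with hg
  have hg0 : ∀ a x, 0 ≤ g a x := fun a x => by simp only [hg]; split_ifs <;> norm_num
  have hg1 : ∀ a x, g a x ≤ 1 := fun a x => by simp only [hg]; split_ifs <;> norm_num
  set q : ι → ι → ℝ := fun a x => g a x * o x with hq
  have hq0 : ∀ a x, 0 ≤ q a x := fun a x => mul_nonneg (hg0 a x) (ho0 x)
  have hqo : ∀ a x, q a x ≤ o x := fun a x => by
    have := mul_le_mul_of_nonneg_right (hg1 a x) (ho0 x)
    simpa [hq] using this
  set P : ι → ℝ := fun a => ∑ x, q a x with hP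
  have hP0 : ∀ a, 0 ≤ P a := fun a => Finset.sum_nonneg fun x _ => hq0 a x
  set T : ι → ℝ := fun a => ∑ x, t a x * o x with hT
  have hT0 : ∀ a, 0 ≤ T a := fun a => Finset.sum_nonneg fun x _ => mul_nonneg (t0 a x) (ho0 x)
  have hgt : ∀ a x, t a x * o x = t a x * q a x := by
    intro a x
    simp only [hq, hg]
    split_ifs with h
    · ring
    · have : t a x = 0 := le_antisymm (not_lt.1 h) (t0 a x)
      rw [this]; ring
  have hTP : ∀ a, T a ≤ (p a - 8 / 21) * P a := by
    intro a
    simp only [hT, hP, Finset.mul_sum]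
    refine Finset.sum_le_sum fun x _ => ?_
    rw [hgt]
    by_cases h1 : 0 < t a x
    · by_cases h2 : 0 < o x
      · have := hexc a x h1 h2
        exact mul_le_mul_of_nonneg_right (by linarith) (hq0 a x)
      · have : q a x = 0 := by
          have : o x = 0 := le_antisymm (not_lt.1 h2) (ho0 x)
          simp only [hq, this, mul_zero]
        rw [this]; simp
    · have : q a x = 0 := by simp only [hq, hg, if_neg h1, zero_mul]
      rw [this]; simp
  have hTh : ∀ a, T a ≤ 3 / 7 * P a := by
    intro a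
    simp only [hT, hP, Finset.mul_sum]
    refine Finset.sum_le_sum fun x _ => ?_
    rw [hgt]
    exact mul_le_mul_of_nonneg_right (thalf a x) (hq0 a x)
  have hTz : ∀ a, P a = 0 → T a = 0 := by
    intro a h
    have h1 := hTP a
    rw [h, mul_zero] at h1
    exact le_antisymm h1 (hT0 a)
  -- the total of `t`
  have hms : ∀ a, m a = s a + o a := fun a => by simp only [ho]; ring
  have hoo : bf t o o = 0 := by
    unfold bf
    refine Finset.sum_eq_zero fun x _ => Finset.sum_eq_zero fun y _ => ?_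
    by_contra hne
    have h1 : 0 < t x y := (t0 x y).lt_of_ne (fun h => hne (by rw [← h]; ring))
    have h2 : 0 < o x := (ho0 x).lt_of_ne (fun h => hne (by rw [← h]; ring))
    have h3 : 0 < o y := (ho0 y).lt_of_ne (fun h => hne (by rw [← h]; ring))
    have := hp1 x y h1
    rw [hpo x h2, hpo y h3] at this
    linarith
  have hso : bf t s o = ∑ a, s a * T a := by rw [bf_eq_row]; rfl
  have hmv : m = fun a => s a + o a := funext hms
  have htot : qf t m = bf t s s + 2 * ∑ a, s a * T a := by
    rw [qf_eq_bf, hmv, bf_add_left, bf_add_right, bf_add_right, hoo, bf_comm tsym o s, hso]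
    ring
  have hB : bf t s s ≤ F * I / 2 + F ^ 2 * (8 / 21) / 8 := by
    have hFs : F = ∑ a, s a := hF
    exact lemB t f p s F I (8 / 21) tsym t0 ttf hf hf0 hft (fun a => rfl) hFs hI he0 hp0 hp1 hp2
  by_contra hcon
  push Not at hcon
  set ST : ℝ := ∑ a, s a * T a with hST
  set Z : ℝ := 3 / 2 * ST - F * I / 8 with hZ
  have hFI : 0 < F * I := mul_pos hF0 hI0
  have hYm : - qf Y m < F ^ 2 / 28 + F * I / 2 + Z := by
    rw [htot] at hcon
    rw [hZ]
    linarith
  -- Z is positive
  have hZ0 : 0 < Z := by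
    have h := hY.lemC0 f hf hf0 s (fun _ => rfl) F E hF hF0 hE o ho0
    rw [hval, ← hmv, ← qf_eq_bf] at h
    linarith
  have hF2 : 0 < F ^ 2 := by positivity
  set tb : ℝ := I / F with htb
  have htb0 : 0 < tb := by positivity
  have hIF : I = tb * F := by rw [htb]; field_simp
  have htb1 : tb ≤ 3 / 7 := by
    rw [htb, div_le_iff₀ hF0, hI, hF, Finset.mul_sum]
    refine Finset.sum_le_sum fun a _ => ?_
    rw [Finset.mul_sum]
    refine Finset.sum_le_sum fun b _ => ?_
    have := mul_le_mul_of_nonneg_left (thalf a b) (hf0 a b)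
    linarith
  set z : ℝ := 4 * Z / F ^ 2 with hz
  have hz0 : 0 < z := by positivity
  have hZz : Z = z * F ^ 2 / 4 := by rw [hz]; field_simp
  -- mean weight and relative mass of the excess
  set τ : ι → ℝ := fun a => T a / P a with hτ
  set l : ι → ℝ := fun a => P a / F with hl
  have hτ0 : ∀ a, 0 ≤ τ a := fun a => div_nonneg (hT0 a) (hP0 a)
  have hl0 : ∀ a, 0 ≤ l a := fun a => div_nonneg (hP0 a) hF0.le
  have hτp : ∀ a, 0 < P a → τ a ≤ p a - 8 / 21 := by
    intro a h
    simp only [hτ]
    rw [div_le_iff₀ h]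
    exact hTP a
  have hτh : ∀ a, 0 < P a → τ a ≤ 3 / 7 := by
    intro a h
    simp only [hτ]
    rw [div_le_iff₀ h]
    exact hTh a
  have hPT : ∀ a, 0 < P a → T a = τ a * P a := by
    intro a h
    simp only [hτ]
    field_simp
  have hTl : ∀ a, 0 < P a → T a / F = τ a * l a := by
    intro a h
    rw [hPT a h]
    simp only [hl]
    ring
  have hlP : ∀ a, P a = l a * F := by
    intro a
    simp only [hl]
    field_simp
  -- the constraints of each vertex with excess
  have hVC : ∀ a, 0 < P a → VC z (3 / 7 - tb) (τ a) (l a) := by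
    intro a hPp
    -- cherries
    have hρ0 : ∀ x, 0 ≤ 1 / P a * q a x := fun x => mul_nonneg (by positivity) (hq0 a x)
    have hρ1 : ∑ x, 1 / P a * q a x ≤ 1 := by
      rw [← Finset.mul_sum]
      have : ∑ x, q a x = P a := rfl
      rw [this, one_div, inv_mul_cancel₀ hPp.ne']
    have hrow : row Y (q a) a = P a * (4 / 7) + T a := by
      have e1 : P a * (4 / 7) + T a = ∑ x, (q a x * (4 / 7) + t a x * q a x) := by
        rw [Finset.sum_add_distrib, ← Finset.sum_mul]
        congr 1
        exact Finset.sum_congr rfl fun x _ => hgt a x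
      rw [e1]
      unfold row
      refine Finset.sum_congr rfl fun x _ => ?_
      by_cases h : 0 < t a x
      · have := tq_eq h
        rw [← ht] at this
        rw [this]; ring
      · have : q a x = 0 := by simp only [hq, hg, if_neg h, zero_mul]
        rw [this]; ring
    have hs2 := hY.star (fun x => 1 / P a * q a x) hρ0 hρ1 2 a
    have hs3 := hY.star (fun x => 1 / P a * q a x) hρ0 hρ1 3 a
    rw [row_smul, bf_smul_left, bf_smul_right, hrow, hPT a hPp] at hs2 hs3
    set N : ℝ := - bf Y (q a) (q a) with hN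
    have hN' : bf Y (q a) (q a) = - N := by rw [hN]; ring
    rw [hN'] at hs2 hs3
    have hPne : P a ≠ 0 := hPp.ne'
    have e2 : 1 / P a * (P a * (4 / 7) + τ a * P a) = 4 / 7 + τ a := by field_simp
    have e3 : 1 / P a * (1 / P a * -N) = - (N / P a ^ 2) := by field_simp
    rw [e2, e3] at hs2 hs3
    push_cast at hs2 hs3
    have h37 := hτh a hPp
    have h00 := hτ0 a
    have hl0' := hl0 a
    set Q : ℝ := max (2 * τ a + 1 / 7) (τ a + 5 / 21) with hQ
    have hQ1 : 2 * τ a + 1 / 7 ≤ Q := le_max_left _ _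
    have hQ2 : τ a + 5 / 21 ≤ Q := le_max_right _ _
    have hQ3 : Q ≤ 1 := max_le (by linarith) (by linarith)
    have hQ0 : 0 < Q := by linarith
    have hNQ : Q ≤ N / P a ^ 2 := max_le (by linarith) (by linarith)
    have hNQ' : Q * P a ^ 2 ≤ N := by
      rwa [le_div_iff₀ (by positivity)] at hNQ
    -- Lemma C
    set r : ι → ℝ := fun x => o x - q a x with hr
    have hr0 : ∀ x, 0 ≤ r x := fun x => sub_nonneg.2 (hqo a x)
    have hmv2 : m = fun x => s x + (q a x + r x) := by
      funext x
      simp only [hr]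
      rw [hms x]; ring
    have hPl := hlP a
    refine ⟨hτ0 a, hl0 a, h37, Q, hQ1, hQ2, hQ3, ?_, ?_, ?_⟩
    · intro h4
      have h4' : 4 * P a ≤ F := by rw [hPl]; nlinarith
      have h := hY.lemC1 f hf hf0 s (fun _ => rfl) F E hF hF0 hE (q a) r (hq0 a) hr0 (P a) rfl hPp h4'
      rw [hval, ← hmv2, ← qf_eq_bf, hN'] at h
      have hNZ : N < Z := by linarith
      have h5 : Q * P a ^ 2 < Z := hNQ'.trans_lt hNZ
      rw [hPl, hZz] at h5
      have h6 : (4 * Q * l a ^ 2) * F ^ 2 < z * F ^ 2 := by nlinarith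
      exact lt_of_mul_lt_mul_right h6 hF2.le
    · intro h4
      have h4' : F ≤ 4 * P a := by rw [hPl]; nlinarith
      have h := hY.lemC2 f hf hf0 s (fun _ => rfl) hs0 F E hF hF0 hE (q a) r (hq0 a) hr0 (P a) rfl h4'
      rw [hval, ← hmv2, ← qf_eq_bf, hN'] at h
      have hNZ : F / (4 * P a) * N < Z := by linarith
      have h6 : F / (4 * P a) * (Q * P a ^ 2) ≤ F / (4 * P a) * N :=
        mul_le_mul_of_nonneg_left hNQ' (by positivity)
      have h7 : F / (4 * P a) * (Q * P a ^ 2) = Q * P a * F / 4 := by field_simp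
      rw [h7] at h6
      have h8 : Q * P a * F / 4 < Z := h6.trans_lt hNZ
      rw [hPl, hZz] at h8
      have h9 : (Q * l a) * F ^ 2 < z * F ^ 2 := by nlinarith
      exact lt_of_mul_lt_mul_right h9 hF2.le
    · intro h4
      have h4' : F ≤ 2 * P a := by rw [hPl]; nlinarith
      have h := hY.lemC3 f hf hf0 s (fun _ => rfl) F E hF hF0 hE (q a) r (hq0 a) hr0 (P a) rfl h4'
      rw [hval, ← hmv2, ← qf_eq_bf, hN'] at h
      have hc : 0 ≤ (4 * F * P a - F ^ 2) / (8 * P a ^ 2) := by
        apply div_nonneg _ (by positivity)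
        nlinarith
      have h6 := mul_le_mul_of_nonneg_left hNQ' hc
      have h7 : (4 * F * P a - F ^ 2) / (8 * P a ^ 2) * (Q * P a ^ 2)
          = (4 * F * P a - F ^ 2) * Q / 8 := by field_simp
      rw [h7] at h6
      have h8 : (4 * F * P a - F ^ 2) * Q / 8 < Z + (2 * P a - F) / 6 * (F - E) := by linarith
      rw [hEI, hIF, hPl, hZz] at h8
      have h9 : ((2 * l a - 1 / 2) * Q) * F ^ 2
          < (z + (4 * l a - 2) * (3 / 7 - tb) / 3) * F ^ 2 := by
        have e1 : (4 * F * (l a * F) - F ^ 2) * Q / 8 = ((2 * l a - 1 / 2) * Q) * F ^ 2 / 4 := by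
          ring
        have e2 : z * F ^ 2 / 4 + (2 * (l a * F) - F) / 6 * (F - (F * (4 / 7) + tb * F))
            = (z + (4 * l a - 2) * (3 / 7 - tb) / 3) * F ^ 2 / 4 := by ring
        rw [e1, e2] at h8
        linarith
      exact lt_of_mul_lt_mul_right h9 hF2.le
  obtain ⟨α, β, hαβ, hnone, hone, htwo⟩ := endgame hz0 htb0 htb1
  -- the estimate of an edge
  have hedge : ∀ a b, f a b ≠ 0 → T a / F + T b / F ≤ α + β * t a b := by
    intro a b hab
    have hpp := hp2 a b hab
    have htab := hft a b hab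
    have hth := thalf a b
    have haa := hτ0 a
    have hbb := hτ0 b
    have hpa := hp0 a
    have hpb := hp0 b
    rcases (hP0 a).eq_or_lt with ha | ha
    · rw [hTz a ha.symm, zero_div, zero_add]
      rcases (hP0 b).eq_or_lt with hb | hb
      · rw [hTz b hb.symm, zero_div]
        exact hnone _ htab
      · have := hτp b hb
        rw [hTl b hb]
        exact hone _ htab hth _ _ (hVC b hb) (by linarith)
    · have h1 := hτp a ha
      rcases (hP0 b).eq_or_lt with hb | hb
      · rw [hTz b hb.symm, zero_div, add_zero, hTl a ha]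
        exact hone _ htab hth _ _ (hVC a ha) (by linarith)
      · have h2 := hτp b hb
        rw [hTl a ha, hTl b hb]
        exact htwo _ (by linarith) hth _ _ _ _ (hVC a ha) (hVC b hb) (by linarith)
  -- summation
  have h1 : ∑ a, ∑ b, f a b * (T a / F + T b / F) ≤ α * F + β * I := by
    have e : α * F + β * I = ∑ a, ∑ b, f a b * (α + β * t a b) := by
      rw [hF, hI, Finset.mul_sum, Finset.mul_sum, ← Finset.sum_add_distrib]
      refine Finset.sum_congr rfl fun a _ => ?_
      rw [Finset.mul_sum, Finset.mul_sum, ← Finset.sum_add_distrib]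
      exact Finset.sum_congr rfl fun b _ => by ring
    rw [e]
    refine Finset.sum_le_sum fun a _ => Finset.sum_le_sum fun b _ => ?_
    by_cases h : f a b = 0
    · rw [h]; simp
    · exact mul_le_mul_of_nonneg_left (hedge a b h) (hf0 a b)
  have h2 : ∑ a, ∑ b, f a b * (T a / F + T b / F) = 2 * ST / F := by
    have e1 : ∑ a, ∑ b, f a b * (T a / F) = ST / F := by
      rw [hST, Finset.sum_div]
      refine Finset.sum_congr rfl fun a _ => ?_
      rw [← Finset.sum_mul]
      ring
    have e2 : ∑ a, ∑ b, f a b * (T b / F) = ST / F := by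
      rw [Finset.sum_comm, hST, Finset.sum_div]
      refine Finset.sum_congr rfl fun a _ => ?_
      rw [← Finset.sum_mul]
      have : ∑ b, f b a = s a := Finset.sum_congr rfl fun b _ => hf b a
      rw [this]
      ring
    have e3 : 2 * ST / F = ST / F + ST / F := by ring
    rw [e3]
    nth_rewrite 1 [← e1]
    rw [← e2, ← Finset.sum_add_distrib]
    refine Finset.sum_congr rfl fun a _ => ?_
    rw [← Finset.sum_add_distrib]
    exact Finset.sum_congr rfl fun b _ => by ring
  rw [h2, hIF] at h1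
  have h3 : 2 * ST ≤ (α + β * tb) * F ^ 2 := by
    rw [div_le_iff₀ hF0] at h1
    nlinarith
  have h4 : 3 * (α + β * tb) * F ^ 2 < (z + tb / 2) * F ^ 2 := mul_lt_mul_of_pos_right hαβ hF2
  have h5 : Z = 3 / 2 * ST - F * (tb * F) / 8 := by rw [← hIF]
  nlinarith

/-- explicit form -/
theorem lin49' : ∀ (ι : Type) [Fintype ι] [DecidableEq ι] (Y : ι → ι → ℝ), MK Y →
    ∀ m : ι → ℝ, (∀ a, 0 ≤ m a) → 3 / 4 * qf (tq Y) m ≤ - qf Y m :=
  fun _ _ _ _ hY m hm => lin49 hY m hm

end Pool.Agent.H99.CP
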