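import Mathlib
import Pool.Agent.H69.CPR.Schemes

/-!
# Systems of cliques of types with large overlap (MP_10f644_co)

The cliques are indexed by the subsets `J` of the set of covering cliques; a type `A` gets the
weight `w |J| |A ∩ J| |A|`.  The sums over `J` are evaluated by a closed formula in
`|A ∩ B|, |A \ B|, |B \ A|`.
-/

open Finset

namespace Pool.Agent.H99.CP

open Pool.Agent.H69.CPR Pool.Agent.H29.CPR

section Split

variable {α : Type} [DecidableEq α]

theorem sum_split (X Y : Finset α) (h : Disjoint X Y) (g : Finset α → ℕ) :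
    ∑ J ∈ (X ∪ Y).powerset, g J = ∑ S ∈ X.powerset, ∑ T ∈ Y.powerset, g (S ∪ T) := by
  rw [← Finset.sum_product']
  refine Finset.sum_nbij' (fun J => (J ∩ X, J ∩ Y)) (fun P => P.1 ∪ P.2) ?_ ?_ ?_ ?_ ?_
  · intro J _
    simp
  · intro P hP
    simp only [Finset.mem_product, Finset.mem_powerset] at hP ⊢
    exact Finset.union_subset_union hP.1 hP.2
  · intro J hJ
    simp only [Finset.mem_powerset] at hJ
    simp only
    rw [← Finset.inter_union_distrib_left]
    exact Finset.inter_eq_left.2 hJ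
  · intro P hP
    simp only [Finset.mem_product, Finset.mem_powerset] at hP
    have h1 : P.2 ∩ X = ∅ := by
      apply Finset.disjoint_iff_inter_eq_empty.1
      exact (h.mono_right hP.2).symm
    have h2 : P.1 ∩ Y = ∅ := by
      apply Finset.disjoint_iff_inter_eq_empty.1
      exact h.mono_left hP.1
    ext1
    · simp only
      rw [Finset.union_inter_distrib_right, h1, Finset.union_empty]
      exact Finset.inter_eq_left.2 hP.1
    · simp only
      rw [Finset.union_inter_distrib_right, h2, Finset.empty_union]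
      exact Finset.inter_eq_left.2 hP.2
  · intro J hJ
    simp only [Finset.mem_powerset] at hJ
    simp only
    rw [← Finset.inter_union_distrib_left, Finset.inter_eq_left.2 hJ]

/-- the closed formula -/
def tot (l a b r : ℕ) (G : ℕ → ℕ → ℕ → ℕ) : ℕ :=
  ∑ p ∈ range (l + 1), l.choose p * ∑ q ∈ range (a + 1), a.choose q *
    ∑ u ∈ range (b + 1), b.choose u * ∑ v ∈ range (r + 1), r.choose v *
      G (p + q + u + v) (p + q) (p + u)

theorem sum_four (X1 X2 X3 X4 : Finset α) (h12 : Disjoint X1 X2) (h13 : Disjoint X1 X3)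
    (h14 : Disjoint X1 X4) (h23 : Disjoint X2 X3) (h24 : Disjoint X2 X4) (h34 : Disjoint X3 X4)
    (G : ℕ → ℕ → ℕ → ℕ) :
    ∑ J ∈ (X1 ∪ (X2 ∪ (X3 ∪ X4))).powerset,
        G J.card ((X1 ∪ X2) ∩ J).card ((X1 ∪ X3) ∩ J).card
      = tot X1.card X2.card X3.card X4.card G := by
  rw [sum_split X1 _ (by
    rw [Finset.disjoint_union_right, Finset.disjoint_union_right]
    exact ⟨h12, h13, h14⟩)]
  have hin : ∀ {U V S T : Finset α}, Disjoint U V → S ⊆ U → T ⊆ V → Disjoint S T := by
    intro U V S T h hS hT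
    exact Disjoint.mono hS hT h
  have key : ∀ S1 ∈ X1.powerset, ∀ S2 ∈ X2.powerset, ∀ S3 ∈ X3.powerset, ∀ S4 ∈ X4.powerset,
      G (S1 ∪ (S2 ∪ (S3 ∪ S4))).card ((X1 ∪ X2) ∩ (S1 ∪ (S2 ∪ (S3 ∪ S4)))).card
        ((X1 ∪ X3) ∩ (S1 ∪ (S2 ∪ (S3 ∪ S4)))).card
      = G (S1.card + S2.card + S3.card + S4.card) (S1.card + S2.card) (S1.card + S3.card) := by
    intro S1 h1 S2 h2 S3 h3 S4 h4
    rw [Finset.mem_powerset] at h1 h2 h3 h4
    have d12 := hin h12 h1 h2
    have d13 := hin h13 h1 h3
    have d14 := hin h14 h1 h4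
    have d23 := hin h23 h2 h3
    have d24 := hin h24 h2 h4
    have d34 := hin h34 h3 h4
    have e1 : (S1 ∪ (S2 ∪ (S3 ∪ S4))).card = S1.card + S2.card + S3.card + S4.card := by
      rw [Finset.card_union_of_disjoint, Finset.card_union_of_disjoint,
        Finset.card_union_of_disjoint d34]
      · ring
      · rw [Finset.disjoint_union_right]
        exact ⟨d23, d24⟩
      · rw [Finset.disjoint_union_right, Finset.disjoint_union_right]
        exact ⟨d12, d13, d14⟩
    have e2 : (X1 ∪ X2) ∩ (S1 ∪ (S2 ∪ (S3 ∪ S4))) = S1 ∪ S2 := by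
      ext x
      simp only [Finset.mem_inter, Finset.mem_union]
      constructor
      · rintro ⟨h | h, h' | h' | h' | h'⟩
        · exact Or.inl h'
        · exact Or.inr h'
        · exact absurd (h3 h') (Finset.disjoint_left.1 h13 h)
        · exact absurd (h4 h') (Finset.disjoint_left.1 h14 h)
        · exact Or.inl h'
        · exact Or.inr h'
        · exact absurd (h3 h') (Finset.disjoint_left.1 h23 h)
        · exact absurd (h4 h') (Finset.disjoint_left.1 h24 h)
      · rintro (h | h)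
        · exact ⟨Or.inl (h1 h), Or.inl h⟩
        · exact ⟨Or.inr (h2 h), Or.inr (Or.inl h)⟩
    have e3 : (X1 ∪ X3) ∩ (S1 ∪ (S2 ∪ (S3 ∪ S4))) = S1 ∪ S3 := by
      ext x
      simp only [Finset.mem_inter, Finset.mem_union]
      constructor
      · rintro ⟨h | h, h' | h' | h' | h'⟩
        · exact Or.inl h'
        · exact absurd (h2 h') (Finset.disjoint_left.1 h12 h)
        · exact Or.inr h'
        · exact absurd (h4 h') (Finset.disjoint_left.1 h14 h)
        · exact Or.inl h'
        · exact absurd h (Finset.disjoint_left.1 h23 (h2 h'))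
        · exact Or.inr h'
        · exact absurd (h4 h') (Finset.disjoint_left.1 h34 h)
      · rintro (h | h)
        · exact ⟨Or.inl (h1 h), Or.inl h⟩
        · exact ⟨Or.inr (h3 h), Or.inr (Or.inr (Or.inl h))⟩
    rw [e1, e2, e3, Finset.card_union_of_disjoint d12, Finset.card_union_of_disjoint d13]
  have step : ∀ S1 ∈ X1.powerset,
      ∑ T ∈ (X2 ∪ (X3 ∪ X4)).powerset, G (S1 ∪ T).card ((X1 ∪ X2) ∩ (S1 ∪ T)).card
        ((X1 ∪ X3) ∩ (S1 ∪ T)).card
      = ∑ q ∈ range (X2.card + 1), X2.card.choose q * ∑ u ∈ range (X3.card + 1),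
          X3.card.choose u * ∑ v ∈ range (X4.card + 1), X4.card.choose v *
            G (S1.card + q + u + v) (S1.card + q) (S1.card + u) := by
    intro S1 h1
    rw [sum_split X2 _ (by
      rw [Finset.disjoint_union_right]
      exact ⟨h23, h24⟩)]
    rw [Finset.sum_congr rfl fun S2 _ => sum_split X3 X4 h34 _]
    rw [Finset.sum_congr rfl fun S2 h2 => Finset.sum_congr rfl fun S3 h3 =>
      Finset.sum_congr rfl fun S4 h4 => key S1 h1 S2 h2 S3 h3 S4 h4]
    have a1 : ∀ x y z : ℕ, ∑ S4 ∈ X4.powerset, G (x + y + z + S4.card) (x + y) (x + z)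
        = ∑ v ∈ range (X4.card + 1), X4.card.choose v * G (x + y + z + v) (x + y) (x + z) := by
      intro x y z
      have := Finset.sum_powerset_apply_card (x := X4) (fun v => G (x + y + z + v) (x + y) (x + z))
      simpa using this
    simp only [a1]
    have a2 : ∀ x y : ℕ, ∑ S3 ∈ X3.powerset, ∑ v ∈ range (X4.card + 1),
          X4.card.choose v * G (x + y + S3.card + v) (x + y) (x + S3.card)
        = ∑ u ∈ range (X3.card + 1), X3.card.choose u * ∑ v ∈ range (X4.card + 1),
          X4.card.choose v * G (x + y + u + v) (x + y) (x + u) := by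
      intro x y
      have := Finset.sum_powerset_apply_card (x := X3) (fun u => ∑ v ∈ range (X4.card + 1),
          X4.card.choose v * G (x + y + u + v) (x + y) (x + u))
      simpa using this
    simp only [a2]
    have a3 := Finset.sum_powerset_apply_card (x := X2) (fun q => ∑ u ∈ range (X3.card + 1),
      X3.card.choose u * ∑ v ∈ range (X4.card + 1),
          X4.card.choose v * G (S1.card + q + u + v) (S1.card + q) (S1.card + u))
    simpa using a3
  rw [Finset.sum_congr rfl step]
  have a4 := Finset.sum_powerset_apply_card (x := X1) (fun p => ∑ q ∈ range (X2.card + 1),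
    X2.card.choose q * ∑ u ∈ range (X3.card + 1), X3.card.choose u *
      ∑ v ∈ range (X4.card + 1), X4.card.choose v * G (p + q + u + v) (p + q) (p + u))
  unfold tot
  simpa using a4

end Split

theorem sum_types {k : ℕ} (A B : Finset (Fin k)) (G : ℕ → ℕ → ℕ → ℕ) :
    ∑ J : Finset (Fin k), G J.card (A ∩ J).card (B ∩ J).card
      = tot (A ∩ B).card (A \ B).card (B \ A).card
          (k - (A ∩ B).card - (A \ B).card - (B \ A).card) G
      ∧ (A ∩ B).card + (A \ B).card + (B \ A).card ≤ k := by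
  have hU : (Finset.univ : Finset (Finset (Fin k)))
      = ((A ∩ B) ∪ ((A \ B) ∪ ((B \ A) ∪ (A ∪ B)ᶜ))).powerset := by
    rw [← Finset.powerset_univ]
    congr 1
    ext x
    simp only [Finset.mem_univ, Finset.mem_union, Finset.mem_inter, Finset.mem_sdiff,
      Finset.mem_compl, true_iff]
    tauto
  have hd12 : Disjoint (A ∩ B) (A \ B) := by
    rw [Finset.disjoint_left]; intro x; simp only [Finset.mem_inter, Finset.mem_sdiff]; tauto
  have hd13 : Disjoint (A ∩ B) (B \ A) := by
    rw [Finset.disjoint_left]; intro x; simp only [Finset.mem_inter, Finset.mem_sdiff]; tauto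
  have hd14 : Disjoint (A ∩ B) (A ∪ B)ᶜ := by
    rw [Finset.disjoint_left]; intro x
    simp only [Finset.mem_inter, Finset.mem_compl, Finset.mem_union]; tauto
  have hd23 : Disjoint (A \ B) (B \ A) := by
    rw [Finset.disjoint_left]; intro x; simp only [Finset.mem_sdiff]; tauto
  have hd24 : Disjoint (A \ B) (A ∪ B)ᶜ := by
    rw [Finset.disjoint_left]; intro x
    simp only [Finset.mem_sdiff, Finset.mem_compl, Finset.mem_union]; tauto
  have hd34 : Disjoint (B \ A) (A ∪ B)ᶜ := by
    rw [Finset.disjoint_left]; intro x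
    simp only [Finset.mem_sdiff, Finset.mem_compl, Finset.mem_union]; tauto
  have hA : (A ∩ B) ∪ (A \ B) = A := by
    ext x; simp only [Finset.mem_union, Finset.mem_inter, Finset.mem_sdiff]; tauto
  have hB : (A ∩ B) ∪ (B \ A) = B := by
    ext x; simp only [Finset.mem_union, Finset.mem_inter, Finset.mem_sdiff]; tauto
  have h := sum_four (A ∩ B) (A \ B) (B \ A) (A ∪ B)ᶜ hd12 hd13 hd14 hd23 hd24 hd34 G
  rw [← hU, hA, hB] at h
  have hcard : (A ∩ B).card + (A \ B).card + (B \ A).card + ((A ∪ B)ᶜ).card = k := by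
    have h1 : ((A ∩ B) ∪ ((A \ B) ∪ ((B \ A) ∪ (A ∪ B)ᶜ))) = (Finset.univ : Finset (Fin k)) := by
      ext x
      simp only [Finset.mem_univ, Finset.mem_union, Finset.mem_inter, Finset.mem_sdiff,
        Finset.mem_compl, iff_true]
      tauto
    have h2 := congrArg Finset.card h1
    rw [Finset.card_union_of_disjoint, Finset.card_union_of_disjoint,
      Finset.card_union_of_disjoint hd34, Finset.card_univ, Fintype.card_fin] at h2
    · omega
    · rw [Finset.disjoint_union_right]
      exact ⟨hd23, hd24⟩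
    · rw [Finset.disjoint_union_right, Finset.disjoint_union_right]
      exact ⟨hd12, hd13, hd14⟩
  have hr : ((A ∪ B)ᶜ).card = k - (A ∩ B).card - (A \ B).card - (B \ A).card := by omega
  rw [hr] at h
  exact ⟨h, by omega⟩

/-- A system of cliques from a weight `w |J| |A ∩ J| |A|`. -/
theorem scheme_of_weight (k : ℕ) (w : ℕ → ℕ → ℕ → ℕ) (N c : ℕ) (hN : 0 < N)
    (hw : ∀ j ≤ k, ∀ p ≤ j, ∀ n ≤ k, w j p n ≠ 0 → j < 2 * p)
    (hsq : ∀ n ≤ k, tot n 0 0 (k - n) (fun j p _ => w j p n ^ 2) ≤ N ^ 2)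
    (hov : ∀ l ≤ k, ∀ a ≤ k, ∀ b ≤ k, l + a + b ≤ k → 1 ≤ l → 1 ≤ a + b →
      c ≤ tot l a b (k - l - a - b) (fun j p q => w j p (l + a) * w j q (l + b))) :
    Nonempty (Scheme k (Finset (Fin k)) ((c : ℝ) / (N : ℝ) ^ 2)) := by
  have hcard : ∀ S : Finset (Fin k), S.card ≤ k := fun S => by
    have := Finset.card_le_univ S
    rwa [Fintype.card_fin] at this
  refine ⟨ofNat (fun J A => w J.card (A ∩ J).card A.card) N c hN ?_ ?_ ?_⟩
  · intro J A B hA hB
    have h1 := hw _ (hcard J) _ (Finset.card_le_card Finset.inter_subset_right) _ (hcard A) hA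
    have h2 := hw _ (hcard J) _ (Finset.card_le_card Finset.inter_subset_right) _ (hcard B) hB
    by_contra hne
    rw [Finset.not_nonempty_iff_eq_empty] at hne
    have hd : Disjoint (A ∩ J) (B ∩ J) := by
      rw [Finset.disjoint_left]
      intro x hx hy
      have : x ∈ A ∩ B := Finset.mem_inter.2 ⟨(Finset.mem_inter.1 hx).1, (Finset.mem_inter.1 hy).1⟩
      rw [hne] at this
      exact absurd this (Finset.notMem_empty x)
    have h3 : ((A ∩ J) ∪ (B ∩ J)).card ≤ J.card :=
      Finset.card_le_card (Finset.union_subset Finset.inter_subset_right Finset.inter_subset_right)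
    rw [Finset.card_union_of_disjoint hd] at h3
    omega
  · intro A
    have h := (sum_types A A (fun j p _ => w j p A.card ^ 2)).1
    simp only [Finset.inter_self, Finset.sdiff_self, Finset.card_empty, Nat.sub_zero] at h
    rw [h]
    exact hsq _ (hcard A)
  · intro A B hAB hne
    obtain ⟨h, hk⟩ := sum_types A B (fun j p q => w j p A.card * w j q B.card)
    rw [h]
    have hAc : A.card = (A ∩ B).card + (A \ B).card := by
      have := Finset.card_inter_add_card_sdiff A B
      omega
    have hBc : B.card = (A ∩ B).card + (B \ A).card := by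
      have := Finset.card_inter_add_card_sdiff B A
      rw [Finset.inter_comm] at this
      omega
    have hl : 1 ≤ (A ∩ B).card := Finset.card_pos.2 hne
    have hab : 1 ≤ (A \ B).card + (B \ A).card := by
      by_contra hlt
      apply hAB
      have h1 : (A \ B).card = 0 := by omega
      have h2 : (B \ A).card = 0 := by omega
      rw [Finset.card_eq_zero, Finset.sdiff_eq_empty_iff_subset] at h1 h2
      exact Finset.Subset.antisymm h1 h2
    have := hov (A ∩ B).card (hcard _) (A \ B).card (hcard _) (B \ A).card (hcard _) hk hl hab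
    rw [hAc, hBc]
    exact this

/-- stars with weights `S`, triples with weights `T` -/
def wt (S T : List ℕ) (j p n : ℕ) : ℕ :=
  if j = 1 then (if p = 1 then S.getD n 0 else 0)
  else if j = 3 then (if p = 2 then T.getD n 0 else 0) else 0

theorem wt_supp (S T : List ℕ) (j p n : ℕ) (h : wt S T j p n ≠ 0) : j < 2 * p := by
  unfold wt at h
  split_ifs at h
  · omega
  · exact absurd rfl h
  · omega
  · exact absurd rfl h
  · exact absurd rfl h


/-- the overlap check, as a Boolean -/
def chk (k : ℕ) (S T : List ℕ) (c : ℕ) : Bool :=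
  (List.range (k + 1)).all fun l => (List.range (k + 1)).all fun a =>
    (List.range (k + 1)).all fun b => decide (l + a + b ≤ k → 1 ≤ l → 1 ≤ a + b →
      c ≤ tot l a b (k - l - a - b) (fun j p q => wt S T j p (l + a) * wt S T j q (l + b)))

theorem scheme_wt (k : ℕ) (S T : List ℕ) (N c : ℕ) (hN : 0 < N)
    (hsq : ∀ n ≤ k, tot n 0 0 (k - n) (fun j p _ => wt S T j p n ^ 2) ≤ N ^ 2)
    (hov : chk k S T c = true) :
    Nonempty (Scheme k (Finset (Fin k)) ((c : ℝ) / (N : ℝ) ^ 2)) := by
  refine scheme_of_weight k (wt S T) N c hN (fun j _ p _ n _ h => wt_supp S T j p n h) hsq ?_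
  intro l hl a ha b hb h1 h2 h3
  unfold chk at hov
  rw [List.all_eq_true] at hov
  have e1 := hov l (List.mem_range.2 (by omega))
  rw [List.all_eq_true] at e1
  have e2 := e1 a (List.mem_range.2 (by omega))
  rw [List.all_eq_true] at e2
  have e3 := e2 b (List.mem_range.2 (by omega))
  exact of_decide_eq_true e3 h1 h2 h3

/-- three covering cliques, overlap `390 / 676` -/
theorem scheme3 : ∃ (J : Type) (_ : Fintype J), Nonempty (Scheme 3 J (390 / 676)) := by
  have h := scheme_wt 3 [0, 26, 15, 15] [0, 0, 15, 0] 26 390 (by norm_num)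
    (by decide +kernel) (by decide +kernel)
  have e : (((390 : ℕ) : ℝ) / ((26 : ℕ) : ℝ) ^ 2) = 390 / 676 := by norm_num
  rw [e] at h
  exact ⟨_, _, h⟩

/-- five covering cliques -/
theorem scheme5_best : Nonempty (Scheme 5 (Finset (Fin 5)) ((433310 : ℕ) / ((1000 : ℕ) : ℝ) ^ 2)) :=
  scheme_wt 5 [0, 1000, 550, 439, 446, 447] [0, 0, 362, 265, 184, 0] 1000 433310 (by norm_num)
    (by decide +kernel) (by decide +kernel)

/-- six covering cliques -/
theorem scheme6_best : Nonempty (Scheme 6 (Finset (Fin 6)) ((378612 : ℕ) / ((1000 : ℕ) : ℝ) ^ 2)) :=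
  scheme_wt 6 [0, 1000, 588, 444, 383, 397, 408] [0, 0, 277, 213, 185, 145, 0] 1000 378612
    (by norm_num) (by decide +kernel) (by decide +kernel)

/-- seven covering cliques -/
theorem scheme7_best : Nonempty (Scheme 7 (Finset (Fin 7)) ((333217 : ℕ) / ((1000 : ℕ) : ℝ) ^ 2)) :=
  scheme_wt 7 [0, 1000, 569, 431, 371, 362, 363, 377] [0, 0, 265, 192, 158, 131, 118, 0] 1000
    333217 (by norm_num) (by decide +kernel) (by decide +kernel)

/-- eight covering cliques -/
theorem scheme8_best : Nonempty (Scheme 8 (Finset (Fin 8)) ((301680 : ℕ) / ((1000 : ℕ) : ℝ) ^ 2)) :=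
  scheme_wt 8 [0, 1000, 573, 420, 339, 347, 320, 335, 353]
    [0, 0, 239, 177, 150, 115, 113, 100, 0] 1000 301680 (by norm_num)
    (by decide +kernel) (by decide +kernel)

/-- nine covering cliques -/
theorem scheme9_best : Nonempty (Scheme 9 (Finset (Fin 9)) ((274042 : ℕ) / ((1000 : ℕ) : ℝ) ^ 2)) :=
  scheme_wt 9 [0, 1000, 578, 437, 359, 321, 312, 310, 315, 333]
    [0, 0, 217, 154, 127, 110, 96, 88, 85, 0] 1000 274042 (by norm_num)
    (by decide +kernel) (by decide +kernel)

theorem scheme5 : ∃ (J : Type) (_ : Fintype J) (c : ℝ), 0.406 ≤ c ∧ Nonempty (Scheme 5 J c) :=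
  ⟨_, _, _, by norm_num, scheme5_best⟩

theorem scheme6 : ∃ (J : Type) (_ : Fintype J) (c : ℝ), 0.3301 ≤ c ∧ Nonempty (Scheme 6 J c) :=
  ⟨_, _, _, by norm_num, scheme6_best⟩

theorem scheme7 : ∃ (J : Type) (_ : Fintype J) (c : ℝ), 0.2673 ≤ c ∧ Nonempty (Scheme 7 J c) :=
  ⟨_, _, _, by norm_num, scheme7_best⟩

theorem scheme5' : ∃ (J : Type) (_ : Fintype J) (c : ℝ), 0.4333 ≤ c ∧ Nonempty (Scheme 5 J c) :=
  ⟨_, _, _, by norm_num, scheme5_best⟩

theorem scheme6' : ∃ (J : Type) (_ : Fintype J) (c : ℝ), 0.3786 ≤ c ∧ Nonempty (Scheme 6 J c) :=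
  ⟨_, _, _, by norm_num, scheme6_best⟩

theorem scheme7' : ∃ (J : Type) (_ : Fintype J) (c : ℝ), 0.3332 ≤ c ∧ Nonempty (Scheme 7 J c) :=
  ⟨_, _, _, by norm_num, scheme7_best⟩

theorem scheme8' : ∃ (J : Type) (_ : Fintype J) (c : ℝ), 0.3016 ≤ c ∧ Nonempty (Scheme 8 J c) :=
  ⟨_, _, _, by norm_num, scheme8_best⟩

theorem scheme9' : ∃ (J : Type) (_ : Fintype J) (c : ℝ), 0.274 ≤ c ∧ Nonempty (Scheme 9 J c) :=
  ⟨_, _, _, by norm_num, scheme9_best⟩

end Pool.Agent.H99.CP
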