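import Mathlib
import Pool.Agent.H99.CP.Comb49
import Pool.Agent.H99.CP.LinHalf
import Pool.Agent.H99.CP.Limit
import Pool.Agent.H99.CP.Schemes
import Pool.Agent.H99.CP.Local49
import Pool.Agent.H69.CPR.Two

/-!
# The dual bounds for every number of covering cliques, with constant `1/49`
-/

open Finset

namespace Pool.Agent.H99.CP.M49

open Pool.Agent.H69.CPR Pool.Agent.H29.CPR Pool.Agent.H99.CP

theorem sqrt_two_ge' : (1.4142 : ℝ) ≤ √2 := by
  apply Real.le_sqrt_of_sq_le
  norm_num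

/-- the dual bound given by a scheme of overlap at least `c₀` -/
theorem dualBound_of_scheme {k : ℕ} {J : Type} [Fintype J] {c : ℝ} (S : Scheme k J c)
    {c₀ s β : ℝ} (hc : c₀ ≤ c) (hc0 : 0 ≤ c₀) (hs0 : 0 ≤ s) (hs1 : s ≤ 1) (hβ : 0 ≤ β)
    (h1 : (1 - c₀ * s) / 2 ≤ β) (h2 : 1 - c₀ * (5 / 4 * s + 1.4142 * (1 - s)) ≤ β)
    (ε : ℝ) (hε : 0 < ε) : ∃ C, DualBound k (β / 4 + ε) C := by
  apply dualBound_of_kernel _ _ ε hε
  intro Y hY m hm
  have e1 : (1 - c * s) / 2 ≤ β := by
    have := mul_le_mul_of_nonneg_right hc hs0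
    linarith
  have e2 : 1 - c * (5 / 4 * s + √2 * (1 - s)) ≤ β := by
    have g1 := mul_le_mul_of_nonneg_right sqrt_two_ge' (sub_nonneg.2 hs1)
    have g2 : (0 : ℝ) ≤ 5 / 4 * s + 1.4142 * (1 - s) := by
      have : (0 : ℝ) ≤ 1.4142 * (1 - s) := mul_nonneg (by norm_num) (sub_nonneg.2 hs1)
      linarith
    have g3 : c₀ * (5 / 4 * s + 1.4142 * (1 - s)) ≤ c * (5 / 4 * s + √2 * (1 - s)) :=
      mul_le_mul hc (by linarith) g2 (hc0.trans hc)
    linarith
  have h := kernel_bound S (hc0.trans hc) hs0 hs1 hβ e1 e2 lin_half' hY m hm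
  have : 2 * (β / 4) * (∑ A, m A) ^ 2 = β / 2 * (∑ A, m A) ^ 2 := by ring
  rw [this]
  exact h

/-- two covering cliques -/
noncomputable def scheme2 : Scheme 2 (Fin 2) (1 / √2) where
  φ := (simple 2).φ
  nonneg := (simple 2).nonneg
  supp := (simple 2).supp
  sq := (simple 2).sq
  ov := by
    intro A B hne hAB
    rcases two_types A B hne hAB with ⟨j, rfl, rfl⟩ | ⟨j, rfl, rfl⟩
    · rw [Finset.sum_congr rfl fun i _ => simple_two j i]
      simp
    · have : ∀ i, (simple 2).φ i univ * (simple 2).φ i {j} = if i = j then 1 / √2 else 0 := by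
        intro i
        rw [mul_comm]
        exact simple_two j i
      rw [Finset.sum_congr rfl fun i _ => this i]
      simp

theorem scheme2_le : (0.7067 : ℝ) ≤ 1 / √2 := by
  have h2 := sqrt_two_le
  have h3 : (1 / 1.415 : ℝ) ≤ 1 / √2 := by
    apply one_div_le_one_div_of_le _ h2
    exact Real.sqrt_pos.2 (by norm_num)
  norm_num at h3 ⊢
  linarith

theorem dualBound_mono {k : ℕ} {V V' C : ℝ} (h : DualBound k V C) (hV : V ≤ V') :
    DualBound k V' C := by
  intro D T y hy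
  have h1 := h D T y hy
  have h2 := mul_le_mul_of_nonneg_right hV (sq_nonneg (D : ℝ))
  linarith

/-- at most two covering cliques -/
theorem dualBound_zero_one (k : ℕ) (h1 : k ≤ 1) (ε : ℝ) (hε : 0 < ε) :
    ∃ C, DualBound k (0 + ε) C := by
  rcases Nat.eq_zero_or_pos k with hk | hk
  · subst hk
    refine ⟨0, ?_⟩
    intro D T y _
    have : Pool.Agent.H29.CPR.tot (tg T) y = 0 := by
      unfold Pool.Agent.H29.CPR.tot
      refine Finset.sum_eq_zero fun u _ => Finset.sum_eq_zero fun v _ => ?_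
      rw [if_neg]
      rintro ⟨-, i, -⟩
      exact i.elim0
    rw [this]
    have := mul_nonneg hε.le (sq_nonneg (D : ℝ))
    linarith
  · have hk1 : k = 1 := by omega
    subst hk1
    have h := dualBound_simple 1 le_rfl
    refine ⟨1, ?_⟩
    norm_num at h
    refine dualBound_mono (V := 0) ?_ (by linarith)
    exact h

theorem dualBound_two (ε : ℝ) (hε : 0 < ε) : ∃ C, DualBound 2 (1 / 27 + ε) C := by
  have h := dualBound_of_scheme scheme2 (c₀ := 0.7067) (s := 1) (β := 4 / 27) scheme2_le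
    (by norm_num) (by norm_num) (by norm_num) (by norm_num) (by norm_num) (by norm_num) ε hε
  norm_num at h ⊢
  exact h


theorem const49 : (0.368 : ℝ) ≤ (1 / √2) * (1 / 7 + √(1 / 7)) := by
  have h1 : (0.7071 : ℝ) ≤ 1 / √2 := by
    have h2 : √2 ≤ 1.41422 := by
      rw [Real.sqrt_le_iff]
      norm_num
    have h3 : (1 / 1.41422 : ℝ) ≤ 1 / √2 := by
      apply one_div_le_one_div_of_le _ h2
      exact Real.sqrt_pos.2 (by norm_num)
    norm_num at h3 ⊢
    linarith
  have h2 : (0.3779 : ℝ) ≤ √(1 / 7) := by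
    apply Real.le_sqrt_of_sq_le
    norm_num
  have h3 : (0.7071 : ℝ) * (1 / 7 + 0.3779) ≤ (1 / √2) * (1 / 7 + √(1 / 7)) :=
    mul_le_mul h1 (by linarith) (by norm_num) (by linarith)
  norm_num at h3 ⊢
  linarith

/-- the dual bound given by a scheme of overlap at least `c₀`, with `(L49)` -/
theorem dualBound_of_scheme49 {k : ℕ} {J : Type} [Fintype J] {c : ℝ} (S : Scheme k J c)
    {c₀ s β : ℝ} (hc : c₀ ≤ c) (hc0 : 0 ≤ c₀) (hs0 : 0 ≤ s) (hs1 : s ≤ 1) (hβ : 0 ≤ β)
    (h1 : (1 - c₀ * s) / 2 ≤ β) (h2 : 4 / 7 - c₀ * (s * (4 / 7) + 0.368 * (1 - s)) ≤ β)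
    (h3 : 1 - c₀ * (s * (37 / 28) + 1.4142 * (1 - s)) ≤ β)
    (ε : ℝ) (hε : 0 < ε) : ∃ C, DualBound k (β / 4 + ε) C := by
  apply dualBound_of_kernel _ _ ε hε
  intro Y hY m hm
  have hs1' : 0 ≤ 1 - s := sub_nonneg.2 hs1
  have e1 : (1 - c * s) / 2 ≤ β := by
    have := mul_le_mul_of_nonneg_right hc hs0
    linarith
  have e2 : 4 / 7 - c * (s * (4 / 7) + (1 - s) * ((1 / √2) * (1 / 7 + √(1 / 7)))) ≤ β := by
    have g1 := mul_le_mul_of_nonneg_right const49 hs1'
    have g2 : (0 : ℝ) ≤ s * (4 / 7) + 0.368 * (1 - s) := by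
      have : (0 : ℝ) ≤ 0.368 * (1 - s) := mul_nonneg (by norm_num) hs1'
      linarith
    have g3 : c₀ * (s * (4 / 7) + 0.368 * (1 - s))
        ≤ c * (s * (4 / 7) + (1 - s) * ((1 / √2) * (1 / 7 + √(1 / 7)))) :=
      mul_le_mul hc (by linarith) g2 (hc0.trans hc)
    linarith
  have e3 : 1 - c * (s * (1 + 9 / 28) + (1 - s) * √2) ≤ β := by
    have g1 := mul_le_mul_of_nonneg_right sqrt_two_ge' hs1'
    have g2 : (0 : ℝ) ≤ s * (37 / 28) + 1.4142 * (1 - s) := by
      have : (0 : ℝ) ≤ 1.4142 * (1 - s) := mul_nonneg (by norm_num) hs1'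
      linarith
    have g3 : c₀ * (s * (37 / 28) + 1.4142 * (1 - s)) ≤ c * (s * (1 + 9 / 28) + (1 - s) * √2) :=
      mul_le_mul hc (by linarith) g2 (hc0.trans hc)
    linarith
  have h := kernel_bound49 S (hc0.trans hc) hs0 hs1 hβ e1 e2 e3
    lin49' hY m hm
  have : 2 * (β / 4) * (∑ A, m A) ^ 2 = β / 2 * (∑ A, m A) ^ 2 := by ring
  rw [this]
  exact h

/-- The bound for graphs with clique cover number `k`. -/
noncomputable def bound49 (k : ℕ) : ℝ :=
  if k ≤ 1 then 0 else if k = 2 then 1 / 27 else if k = 3 then 2 / 33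
    else if k = 4 then 7 / 86 else if k = 5 then 81 / 800 else if k = 6 then 2 / 17
    else if k = 7 then 9 / 68 else if k = 8 then 23 / 160 else if k = 9 then 23 / 150
    else (1 - 2 * √2 / ((k : ℝ) + 1)) / 4

theorem bound49_nonneg (k : ℕ) : 0 ≤ bound49 k := by
  unfold bound49
  split_ifs with h1 h2 h3 h4 h5 h6 h7 h8 h9
  · exact le_rfl
  · norm_num
  · norm_num
  · norm_num
  · norm_num
  · norm_num
  · norm_num
  · norm_num
  · norm_num
  · have hk : (9 : ℝ) ≤ k := by exact_mod_cast (by omega : 9 ≤ k)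
    have h5 := sqrt_two_le
    have : 2 * √2 / ((k : ℝ) + 1) ≤ 1 := by
      rw [div_le_one (by linarith)]
      linarith
    linarith

theorem dualBound_bound49 (k : ℕ) (ε : ℝ) (hε : 0 < ε) :
    ∃ C, DualBound k (bound49 k + ε) C := by
  unfold bound49
  split_ifs with h1 h2 h3 h4 h5 h6 h7 h8 h9
  · exact dualBound_zero_one k h1 ε hε
  · subst h2
    exact dualBound_two ε hε
  · subst h3
    obtain ⟨J, _, ⟨S⟩⟩ := scheme3
    have h := dualBound_of_scheme49 S (c₀ := 390 / 676) (s := 1) (β := 8 / 33) (by norm_num)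
      (by norm_num) (by norm_num) (by norm_num) (by norm_num) (by norm_num) (by norm_num)
      (by norm_num) ε hε
    norm_num at h
    exact h
  · subst h4
    have h := dualBound_of_scheme49 scheme4 (c₀ := 1 / 2) (s := 0.7) (β := 14 / 43)
      (by norm_num) (by norm_num) (by norm_num) (by norm_num) (by norm_num) (by norm_num)
      (by norm_num) (by norm_num) ε hε
    norm_num at h ⊢
    exact h
  · subst h5
    obtain ⟨J, _, c, hc, ⟨S⟩⟩ := scheme5'
    have h := dualBound_of_scheme49 S (c₀ := 0.4333) (s := 0.44) (β := 81 / 200) hc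
      (by norm_num) (by norm_num) (by norm_num) (by norm_num) (by norm_num) (by norm_num)
      (by norm_num) ε hε
    norm_num at h ⊢
    exact h
  · subst h6
    obtain ⟨J, _, c, hc, ⟨S⟩⟩ := scheme6'
    have h := dualBound_of_scheme49 S (c₀ := 0.3786) (s := 0.158) (β := 8 / 17) hc
      (by norm_num) (by norm_num) (by norm_num) (by norm_num) (by norm_num) (by norm_num)
      (by norm_num) ε hε
    norm_num at h ⊢
    exact h
  · subst h7
    obtain ⟨J, _, c, hc, ⟨S⟩⟩ := scheme7'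
    have h := dualBound_of_scheme49 S (c₀ := 0.3332) (s := 0) (β := 9 / 17) hc
      (by norm_num) (by norm_num) (by norm_num) (by norm_num) (by norm_num) (by norm_num)
      (by norm_num) ε hε
    norm_num at h ⊢
    exact h
  · subst h8
    obtain ⟨J, _, c, hc, ⟨S⟩⟩ := scheme8'
    have h := dualBound_of_scheme49 S (c₀ := 0.3016) (s := 0) (β := 23 / 40) hc
      (by norm_num) (by norm_num) (by norm_num) (by norm_num) (by norm_num) (by norm_num)
      (by norm_num) ε hε
    norm_num at h ⊢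
    exact h
  · subst h9
    obtain ⟨J, _, c, hc, ⟨S⟩⟩ := scheme9'
    have h := dualBound_of_scheme49 S (c₀ := 0.274) (s := 0) (β := 46 / 75) hc
      (by norm_num) (by norm_num) (by norm_num) (by norm_num) (by norm_num) (by norm_num)
      (by norm_num) ε hε
    norm_num at h ⊢
    exact h
  · exact ⟨_, dualBound_mono (dualBound_ge5 k (by omega)) (by linarith)⟩

theorem bound49_le (k : ℕ) : bound49 k ≤ 1 / 49 * k := by
  unfold bound49
  split_ifs with h1 h2 h3 h4 h5 h6 h7 h8 h9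
  · positivity
  · subst h2; norm_num
  · subst h3; norm_num
  · subst h4; norm_num
  · subst h5; norm_num
  · subst h6; norm_num
  · subst h7; norm_num
  · subst h8; norm_num
  · subst h9; norm_num
  · have hk : (9 : ℝ) ≤ k := by exact_mod_cast (by omega : 9 ≤ k)
    have h5 := sqrt_two_ge'
    have hpos : (0 : ℝ) < (k : ℝ) + 1 := by linarith
    have h6 : 1 - 2 * √2 / ((k : ℝ) + 1) = ((k : ℝ) + 1 - 2 * √2) / ((k : ℝ) + 1) := by
      field_simp
    rw [h6, div_div, div_le_iff₀ (by positivity)]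
    nlinarith [sq_nonneg ((k : ℝ) - 9)]

end Pool.Agent.H99.CP.M49
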