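import Pool.Agent.H99.CP.Match

/-!
# Extremal fractional matchings with potentials, constant version (MP_10f644_co, piece E1)

`exists_matching'`: the same as `exists_matching`, for a maximiser of `I + e F` with a constant
`e > 0` instead of `3 I / F`.
-/

open Finset

namespace Pool.Agent.H99.CP

theorem exists_matching' {ι : Type} [Fintype ι] [DecidableEq ι] (t : ι → ι → ℝ)
    (ht : ∀ a b, t a b = t b a) (ht0 : ∀ a b, 0 ≤ t a b) (m : ι → ℝ) (hm : ∀ a, 0 ≤ m a)
    (hpos : ∃ a b, 0 < t a b ∧ 0 < m a ∧ 0 < m b) (e : ℝ) (he : 0 < e) :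
    ∃ (f : ι → ι → ℝ) (p : ι → ℝ) (F I : ℝ),
      (∀ a b, f a b = f b a) ∧ (∀ a b, 0 ≤ f a b) ∧ (∀ a b, f a b ≠ 0 → 0 < t a b) ∧
      (∀ a, ∑ b, f a b ≤ m a) ∧ (F = ∑ a, ∑ b, f a b) ∧ (I = ∑ a, ∑ b, f a b * t a b) ∧
      0 < F ∧ 0 < I ∧ (∀ a, 0 ≤ p a) ∧ (∀ a b, 0 < t a b → t a b + e ≤ p a + p b) ∧
      (∀ a b, f a b ≠ 0 → p a + p b = t a b + e) ∧
      (∀ a, p a ≠ 0 → ∑ b, f a b = m a) := by
  classical
  let Φ : (ι → ι → ℝ) → ℝ := fun f => ∑ a, ∑ b, f a b * (t a b + e)
  have hΦ : Continuous Φ := by fun_prop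
  have hne : (MP t m).Nonempty :=
    ⟨fun _ _ => 0, fun _ _ => rfl, fun _ _ => le_rfl, fun a b h => absurd rfl h,
      fun a => by simpa using hm a⟩
  obtain ⟨f, hf, hfmax⟩ := (isCompact_MP t m).exists_isMaxOn hne hΦ.continuousOn
  have hmx : ∀ g ∈ MP t m, Φ g ≤ Φ f := fun g hg => hfmax hg
  have hf' := hf
  obtain ⟨hfs, hf0, hft, hfm⟩ := hf
  have hw0 : ∀ a b, 0 ≤ t a b + e := fun a b => add_nonneg (ht0 a b) he.le
  -- positivity
  have hΦpos : 0 < Φ f := by
    obtain ⟨a, b, hab, ha, hb⟩ := hpos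
    set c := min (m a) (m b) / 2 with hc
    have hc0 : 0 < c := by
      have := lt_min ha hb
      positivity
    have hca : 2 * c ≤ m a := by
      have := min_le_left (m a) (m b)
      rw [hc]; linarith
    have hcb : 2 * c ≤ m b := by
      have := min_le_right (m a) (m b)
      rw [hc]; linarith
    let g : ι → ι → ℝ := fun x y => (if x = a ∧ y = b then c else 0) + (if x = b ∧ y = a then c else 0)
    have hg0 : ∀ x y, 0 ≤ g x y := by
      intro x y
      simp only [g]
      positivity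
    have hrow : ∀ x, ∑ y, g x y = (if x = a then c else 0) + (if x = b then c else 0) := by
      intro x
      simp only [g, Finset.sum_add_distrib, ite_and,
        Finset.sum_ite_irrel, Finset.sum_ite_eq', Finset.mem_univ, if_true, Finset.sum_const_zero]
    have hg : g ∈ MP t m := by
      refine ⟨fun x y => ?_, hg0, fun x y hxy => ?_, fun x => ?_⟩
      · simp only [g]
        rw [add_comm]
        congr 1
        · simp only [and_comm]
        · simp only [and_comm]
      · by_cases h1 : x = a ∧ y = b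
        · rw [h1.1, h1.2]; exact hab
        · by_cases h2 : x = b ∧ y = a
          · rw [h2.1, h2.2, ht]; exact hab
          · exact absurd (by simp only [g, if_neg h1, if_neg h2, add_zero]) hxy
      · rw [hrow]
        by_cases h1 : x = a
        · by_cases h2 : x = b
          · rw [if_pos h1, if_pos h2, h1]; linarith
          · rw [if_pos h1, if_neg h2, h1]; linarith
        · by_cases h2 : x = b
          · rw [if_neg h1, if_pos h2, h2]; linarith
          · rw [if_neg h1, if_neg h2]; linarith [hm x]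
    have h2 : 0 < ∑ x, ∑ y, g x y * (t x y + e) := by
      have h3 : g a b * (t a b + e) ≤ ∑ y, g a y * (t a y + e) :=
        Finset.single_le_sum (f := fun y => g a y * (t a y + e))
          (fun y _ => mul_nonneg (hg0 a y) (hw0 a y)) (Finset.mem_univ b)
      have h4 : ∑ y, g a y * (t a y + e) ≤ ∑ x, ∑ y, g x y * (t x y + e) :=
        Finset.single_le_sum (f := fun x => ∑ y, g x y * (t x y + e))
          (fun x _ => Finset.sum_nonneg fun y _ => mul_nonneg (hg0 x y) (hw0 x y))
          (Finset.mem_univ a)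
      have h5 : c ≤ g a b := by
        simp only [g]
        have : (0 : ℝ) ≤ if a = b ∧ b = a then c else 0 := by positivity
        simp only [and_self, if_true]
        linarith
      have h6 : 0 < g a b * (t a b + e) := mul_pos (by linarith) (by linarith)
      linarith
    exact h2.trans_le (hmx g hg)
  -- some entry of `f` is not zero
  obtain ⟨a₀, b₀, hab₀⟩ : ∃ a b, f a b ≠ 0 := by
    by_contra h
    push Not at h
    have : Φ f = 0 := by simp [Φ, h]
    rw [this] at hΦpos
    exact lt_irrefl _ hΦpos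
  have hf00 : 0 < f a₀ b₀ := lt_of_le_of_ne (hf0 a₀ b₀) (Ne.symm hab₀)
  have hFpos : 0 < ∑ a, ∑ b, f a b := by
    have h3 : f a₀ b₀ ≤ ∑ y, f a₀ y :=
      Finset.single_le_sum (f := fun y => f a₀ y) (fun y _ => hf0 a₀ y) (Finset.mem_univ b₀)
    have h4 : ∑ y, f a₀ y ≤ ∑ x, ∑ y, f x y :=
      Finset.single_le_sum (f := fun x => ∑ y, f x y)
        (fun x _ => Finset.sum_nonneg fun y _ => hf0 x y) (Finset.mem_univ a₀)
    linarith
  have hIpos : 0 < ∑ a, ∑ b, f a b * t a b := by
    have h3 : f a₀ b₀ * t a₀ b₀ ≤ ∑ y, f a₀ y * t a₀ y :=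
      Finset.single_le_sum (f := fun y => f a₀ y * t a₀ y)
        (fun y _ => mul_nonneg (hf0 a₀ y) (ht0 a₀ y)) (Finset.mem_univ b₀)
    have h4 : ∑ y, f a₀ y * t a₀ y ≤ ∑ x, ∑ y, f x y * t x y :=
      Finset.single_le_sum (f := fun x => ∑ y, f x y * t x y)
        (fun x _ => Finset.sum_nonneg fun y _ => mul_nonneg (hf0 x y) (ht0 x y))
        (Finset.mem_univ a₀)
    have := mul_pos hf00 (hft a₀ b₀ hab₀)
    linarith
  obtain ⟨p, hp0, hp1, hp2, hp3⟩ := potentials t (fun a b => t a b + e) m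
    (fun a b => by rw [ht a b]) ht hw0 hm f hf' hmx
  exact ⟨f, p, _, _, hfs, hf0, hft, hfm, rfl, rfl, hFpos, hIpos, hp0, hp1, hp2, hp3⟩

end Pool.Agent.H99.CP
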